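import Mathlib
import Pool.Agent.Helper259.HtDef

set_option autoImplicit false

/-! Definitions: projective spaces over the algebraic numbers, the absolute logarithmic Weil
height on them, quasi-projective sets and morphisms, and the comparison of functions. -/

namespace Run7.h578.Orb

open Pool.Agent.Helper259.AbsHt MvPolynomial
open scoped LinearAlgebra.Projectivization

/-- projective space of dimension `n` over the algebraic closure `Qbar` of the rationals -/
abbrev PP (n : ℕ) : Type := ℙ Qbar (Fin (n + 1) → Qbar)

/-- the standard absolute logarithmic Weil height on projective space -/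
noncomputable def ht {n : ℕ} (p : PP n) : ℝ := absLogHeight p.rep

/-- a subset of projective space is quasi-projective if it is given by the vanishing of a set `S`
of homogeneous polynomials and the non-simultaneous vanishing of a set `T` of homogeneous
polynomials (that is, if it is a Zariski closed set minus a Zariski closed set) -/
def IsQuasiProjective {n : ℕ} (X : Set (PP n)) : Prop :=
  ∃ S T : Set (MvPolynomial (Fin (n + 1)) Qbar),
    (∀ F ∈ S ∪ T, ∃ d : ℕ, F.IsHomogeneous d) ∧
    X = {p : PP n | (∀ F ∈ S, eval p.rep F = 0) ∧ ∃ F ∈ T, eval p.rep F ≠ 0}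

/-- a map from a subset `X` of a projective space to a projective space is a morphism if near each
point it is given by homogeneous polynomials of the same degree without common zero -/
def IsMorphism {n m : ℕ} (X : Set (PP n)) (φ : X → PP m) : Prop :=
  ∀ p : X, ∃ (d : ℕ) (F : Fin (m + 1) → MvPolynomial (Fin (n + 1)) Qbar),
    (∀ i, (F i).IsHomogeneous d) ∧ (∃ i, eval p.1.rep (F i) ≠ 0) ∧
    ∀ (q : X) (h : (fun i => eval q.1.rep (F i)) ≠ 0),
      φ q = Projectivization.mk Qbar (fun i => eval q.1.rep (F i)) h

/-- the relation `≍` between real functions on a set -/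
def Asymp {α : Type*} (A B : α → ℝ) : Prop :=
  ∃ c₁ c₂ c₃ c₄ : ℝ, 0 < c₁ ∧ 0 < c₂ ∧ ∀ x, c₁ * A x - c₃ ≤ B x ∧ B x ≤ c₂ * A x + c₄

end Run7.h578.Orb
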