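import Mathlib

set_option autoImplicit false

namespace Run7.h578.Ultra

open Filter Polynomial

universe u

/-- the countable ultrapower of a field -/
abbrev UP (Q : Type u) : Type u := Germ (hyperfilter ℕ : Filter ℕ) Q

section

variable (Q : Type u) [Field Q]

/-- the class of a sequence in the ultrapower -/
noncomputable def cls : (ℕ → Q) →+* UP Q := Germ.coeRingHom _

/-- the diagonal embedding -/
noncomputable def diag : Q →+* UP Q := (cls Q).comp (Pi.constRingHom ℕ Q)

lemma cls_surj : Function.Surjective (cls Q) := fun a => by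
  induction a using Germ.inductionOn with
  | _ f => exact ⟨f, rfl⟩

lemma cls_eq_zero (f : ℕ → Q) : cls Q f = 0 ↔ ∀ᶠ N in (hyperfilter ℕ : Filter ℕ), f N = 0 := by
  have : cls Q f = 0 ↔ ((f : UP Q) = ((0 : ℕ → Q) : UP Q)) := Iff.rfl
  rw [this, Germ.coe_eq]
  rfl

lemma cls_ne_zero (f : ℕ → Q) : cls Q f ≠ 0 ↔ ∀ᶠ N in (hyperfilter ℕ : Filter ℕ), f N ≠ 0 := by
  rw [Ne, cls_eq_zero]
  exact Ultrafilter.eventually_not.symm

theorem isAlgClosed_UP [IsAlgClosed Q] : IsAlgClosed (UP Q) := by
  apply IsAlgClosed.of_exists_root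
  intro p hp hirr
  -- lift to a monic polynomial over the product ring
  obtain ⟨P, hP⟩ : ∃ P : (ℕ → Q)[X], P.map (cls Q) = p :=
    Polynomial.map_surjective _ (cls_surj Q) p
  set d := p.natDegree with hd
  have hd0 : d ≠ 0 := hirr.natDegree_pos.ne'
  let f : ℕ → Q[X] := fun N => X ^ d + ∑ i ∈ Finset.range d, C (P.coeff i N) * X ^ i
  have hf : ∀ N, ∃ r : Q, (f N).eval r = 0 := by
    intro N
    have hlt : (∑ i ∈ Finset.range d, C (P.coeff i N) * X ^ i : Q[X]).degree < d := by
      rw [← Polynomial.mem_degreeLT]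
      refine Submodule.sum_mem _ fun i hi => ?_
      rw [Polynomial.mem_degreeLT]
      refine (Polynomial.degree_C_mul_X_pow_le _ _).trans_lt ?_
      exact_mod_cast Finset.mem_range.mp hi
    have hdeg : (f N).degree = d := by
      rw [Polynomial.degree_add_eq_left_of_degree_lt]
      · exact Polynomial.degree_X_pow d
      · rwa [Polynomial.degree_X_pow]
    have := IsAlgClosed.exists_root (f N) (by rw [hdeg]; exact_mod_cast hd0)
    exact this
  choose r hr using hf
  refine ⟨cls Q r, ?_⟩
  have hp' : p = X ^ d + ∑ i ∈ Finset.range d, C (p.coeff i) * X ^ i := hp.as_sum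
  rw [hp']
  simp only [eval_add, eval_pow, eval_X, eval_finsetSum, eval_mul, eval_C]
  have hc : ∀ i, p.coeff i = cls Q (P.coeff i) := by
    intro i
    rw [← hP, Polynomial.coeff_map]
  simp only [hc, ← map_pow, ← map_mul, ← map_sum, ← map_add]
  rw [show (r ^ d + ∑ i ∈ Finset.range d, P.coeff i * r ^ i) = 0 from ?_, map_zero]
  funext N
  have := hr N
  simp only [f, eval_add, eval_pow, eval_X, eval_finsetSum, eval_mul, eval_C] at this
  simpa using this

end

section los

variable (Q : Type u) [Field Q] {n m : ℕ}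

lemma los_mv {σ : Type*} (u : σ → ℕ → Q) (P : MvPolynomial σ Q) :
    MvPolynomial.eval₂ (diag Q) (fun i => cls Q (u i)) P =
      cls Q (fun N => MvPolynomial.eval (fun i => u i N) P) := by
  have h : MvPolynomial.eval₂Hom (diag Q) (fun i => cls Q (u i)) =
      (cls Q).comp (RingHom.pi fun N => MvPolynomial.eval (fun i => u i N)) := by
    apply MvPolynomial.ringHom_ext
    · intro r
      simp only [MvPolynomial.coe_eval₂Hom, MvPolynomial.eval₂_C, RingHom.comp_apply, diag]
      congr 1
      funext N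
      simp
    · intro i
      simp only [MvPolynomial.coe_eval₂Hom, MvPolynomial.eval₂_X, RingHom.comp_apply]
      congr 1
      funext N
      simp
  have := congrArg (fun g => g P) h
  simp only [MvPolynomial.coe_eval₂Hom, RingHom.comp_apply] at this
  rw [this]
  rfl

lemma los_poly {σ : Type*} (v : σ → ℕ → Q) (t : ℕ → Q) (D : (MvPolynomial σ Q)[X]) :
    Polynomial.eval₂ (MvPolynomial.eval₂Hom (diag Q) (fun i => cls Q (v i))) (cls Q t) D =
      cls Q (fun N => (D.map (MvPolynomial.eval (fun i => v i N))).eval (t N)) := by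
  have h : Polynomial.eval₂RingHom (MvPolynomial.eval₂Hom (diag Q) (fun i => cls Q (v i)))
      (cls Q t) =
      (cls Q).comp (RingHom.pi fun N =>
        (Polynomial.eval₂RingHom (MvPolynomial.eval (fun i => v i N)) (t N))) := by
    apply Polynomial.ringHom_ext
    · intro P
      simp only [Polynomial.coe_eval₂RingHom, Polynomial.eval₂_C, RingHom.comp_apply]
      have := los_mv Q v P
      rw [MvPolynomial.coe_eval₂Hom, this]
      congr 1
      funext N
      simp
    · simp only [Polynomial.coe_eval₂RingHom, Polynomial.eval₂_X, RingHom.comp_apply]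
      congr 1
      funext N
      simp
  have := congrArg (fun g => g D) h
  simp only [Polynomial.coe_eval₂RingHom, RingHom.comp_apply] at this
  rw [this]
  congr 1
  funext N
  simp [Polynomial.eval_map]

end los

/-- The key statement: over an algebraically closed field, the fibres of a family of basic
constructible sets have points which are roots of boundedly many polynomials in the parameter. -/
theorem unif (Q : Type u) [Field Q] [IsAlgClosed Q] {n m : ℕ}
    (W : Set (MvPolynomial (Fin n ⊕ Fin m) Q)) (hW : W.Finite)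
    (G : MvPolynomial (Fin n ⊕ Fin m) Q) (x : ℕ → Fin n → Q) (y : ℕ → Fin m → Q)
    (hx : ∀ N, (∀ w ∈ W, MvPolynomial.eval (Sum.elim (x N) (y N)) w = 0) ∧
      MvPolynomial.eval (Sum.elim (x N) (y N)) G ≠ 0) :
    ∃ (D : Fin n → (MvPolynomial (Fin m) Q)[X]) (x' : ℕ → Fin n → Q),
      ∀ᶠ N in (hyperfilter ℕ : Filter ℕ),
        (∀ w ∈ W, MvPolynomial.eval (Sum.elim (x' N) (y N)) w = 0) ∧
        MvPolynomial.eval (Sum.elim (x' N) (y N)) G ≠ 0 ∧
        ∀ i, (D i).map (MvPolynomial.eval (y N)) ≠ 0 ∧
          ((D i).map (MvPolynomial.eval (y N))).eval (x' N i) = 0 := by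
  classical
  let _ : Algebra Q (UP Q) := (diag Q).toAlgebra
  have : IsAlgClosed (UP Q) := isAlgClosed_UP Q
  set yy : Fin m → UP Q := fun j => cls Q (fun N => y N j) with hyy
  set xx : Fin n → UP Q := fun i => cls Q (fun N => x N i) with hxx
  let k0 : IntermediateField Q (UP Q) := IntermediateField.adjoin Q (Set.range yy)
  let K' : IntermediateField k0 (UP Q) := algebraicClosure k0 (UP Q)
  let yk : Fin m → k0 := fun j => ⟨yy j, IntermediateField.subset_adjoin _ _ ⟨j, rfl⟩⟩
  -- specialise the parameters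
  let sp : MvPolynomial (Fin n ⊕ Fin m) Q →ₐ[Q] MvPolynomial (Fin n) k0 :=
    MvPolynomial.aeval (Sum.elim MvPolynomial.X (fun j => MvPolynomial.C (yk j)))
  let I : Ideal (MvPolynomial (Fin n) k0) := Ideal.span (sp '' W)
  have hsp : ∀ (L : Type u) [Field L] [Algebra k0 L] [Algebra Q L] [IsScalarTower Q k0 L]
      (z : Fin n → L) (P : MvPolynomial (Fin n ⊕ Fin m) Q),
      MvPolynomial.aeval z (sp P) =
        MvPolynomial.aeval (Sum.elim z (fun j => algebraMap k0 L (yk j))) P := by
    intro L _ _ _ _ z P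
    have h : ((MvPolynomial.aeval z : MvPolynomial (Fin n) k0 →ₐ[k0] L).restrictScalars Q).comp
        sp = MvPolynomial.aeval (Sum.elim z (fun j => algebraMap k0 L (yk j))) := by
      apply MvPolynomial.algHom_ext
      rintro (i | j)
      · simp [sp]
      · simp [sp]
    exact congrArg (fun g => g P) h
  have hax : ∀ (z : Fin n → ℕ → Q) (P : MvPolynomial (Fin n ⊕ Fin m) Q),
      MvPolynomial.aeval (Sum.elim (fun i => cls Q (z i))
        (fun j => algebraMap k0 (UP Q) (yk j))) P =
      cls Q (fun N => MvPolynomial.eval (Sum.elim (fun i => z i N) (y N)) P) := by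
    intro z P
    have := los_mv Q (Sum.elim z (fun j N => y N j)) P
    have e1 : (fun i => cls Q (Sum.elim z (fun j N => y N j) i)) =
        Sum.elim (fun i => cls Q (z i)) (fun j => algebraMap k0 (UP Q) (yk j)) := by
      funext i
      rcases i with i | j <;> rfl
    have e2 : ∀ N, (fun i => Sum.elim z (fun j N => y N j) i N) =
        Sum.elim (fun i => z i N) (y N) := by
      intro N
      funext i
      rcases i with i | j <;> rfl
    simp only [e2] at this
    rw [← this, ← e1]
    rfl
  have hcl : IsAlgClosed K' := IsAlgClosure.isAlgClosed k0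
  -- the Nullstellensatz
  have hex : ∃ z : Fin n → K', (∀ w ∈ W, MvPolynomial.aeval z (sp w) = 0) ∧
      MvPolynomial.aeval z (sp G) ≠ 0 := by
    by_contra hcon
    push Not at hcon
    have h1 : sp G ∈ MvPolynomial.vanishingIdeal k0 (MvPolynomial.zeroLocus K' I) := by
      rw [MvPolynomial.mem_vanishingIdeal_iff]
      intro z hz
      rw [MvPolynomial.zeroLocus_span] at hz
      exact hcon z fun w hw => hz _ ⟨w, hw, rfl⟩
    rw [MvPolynomial.vanishingIdeal_zeroLocus_eq_radical] at h1
    have h2 := MvPolynomial.radical_le_vanishingIdeal_zeroLocus (K := UP Q) I h1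
    rw [MvPolynomial.mem_vanishingIdeal_iff] at h2
    have h3 := h2 xx (by
      rw [MvPolynomial.zeroLocus_span]
      rintro _ ⟨w, hw, rfl⟩
      rw [hsp (UP Q) xx w, hax (fun i N => x N i) w, cls_eq_zero]
      exact Filter.Eventually.of_forall fun N => (hx N).1 w hw)
    rw [hsp (UP Q) xx G, hax (fun i N => x N i) G, cls_eq_zero] at h3
    obtain ⟨N, hN⟩ := h3.exists
    exact (hx N).2 hN
  obtain ⟨z, hzW, hzG⟩ := hex
  -- lift the new point to sequences
  have hlift : ∀ i, ∃ s : ℕ → Q, cls Q s = (z i : UP Q) := fun i => cls_surj Q _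
  choose s hs using hlift
  have hzz : ∀ P, ((MvPolynomial.aeval z (sp P) : K') : UP Q) =
      cls Q (fun N => MvPolynomial.eval (Sum.elim (fun i => s i N) (y N)) P) := by
    intro P
    rw [← hax, ← hsp (UP Q)]
    have : (fun i => cls Q (s i)) = fun i => algebraMap K' (UP Q) (z i) := funext fun i => hs i
    rw [this]
    have h5 := MvPolynomial.aeval_algebraMap_apply (UP Q) z (sp P)
    exact h5.symm
  -- the polynomials
  have hD : ∀ i, ∃ D : (MvPolynomial (Fin m) Q)[X],
      D.map (MvPolynomial.eval₂Hom (diag Q) yy) ≠ 0 ∧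
      Polynomial.eval₂ (MvPolynomial.eval₂Hom (diag Q) yy) (z i : UP Q) D = 0 := by
    intro i
    have h1 : IsAlgebraic k0 (z i : UP Q) := mem_algebraicClosure_iff.mp (z i).2
    open scoped IntermediateField.algebraAdjoinAdjoin in
    have h2 : IsAlgebraic (Algebra.adjoin Q (Set.range yy)) (z i : UP Q) :=
      (IsFractionRing.isAlgebraic_iff (Algebra.adjoin Q (Set.range yy)) k0 (UP Q)).mpr h1
    rw [Algebra.adjoin_range_eq_range_aeval] at h2
    obtain ⟨p, hp0, hp⟩ := h2
    let ρ : MvPolynomial (Fin m) Q →+* (MvPolynomial.aeval yy : _ →ₐ[Q] UP Q).range :=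
      ((MvPolynomial.aeval yy : _ →ₐ[Q] UP Q).rangeRestrict : _ →+* _)
    have hρ : Function.Surjective ρ :=
      (MvPolynomial.aeval yy : _ →ₐ[Q] UP Q).rangeRestrict_surjective
    obtain ⟨D, rfl⟩ := Polynomial.map_surjective ρ hρ p
    have hcomp : (algebraMap (MvPolynomial.aeval yy : _ →ₐ[Q] UP Q).range (UP Q)).comp ρ =
        MvPolynomial.eval₂Hom (diag Q) yy := by
      apply MvPolynomial.ringHom_ext
      · intro r
        simp only [MvPolynomial.coe_eval₂Hom, MvPolynomial.eval₂_C, RingHom.comp_apply]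
        exact (MvPolynomial.aeval yy : _ →ₐ[Q] UP Q).commutes r
      · intro j
        simp only [MvPolynomial.coe_eval₂Hom, MvPolynomial.eval₂_X, RingHom.comp_apply]
        exact MvPolynomial.aeval_X yy j
    refine ⟨D, ?_, ?_⟩
    · rw [← hcomp, ← Polynomial.map_map]
      intro h
      apply hp0
      exact (Polynomial.map_eq_zero_iff Subtype.val_injective).mp h
    · rw [← hcomp, ← Polynomial.eval₂_map]
      exact hp
  choose D hD0 hD1 using hD
  refine ⟨D, fun N i => s i N, ?_⟩
  have e1 : ∀ w ∈ W, ∀ᶠ N in (hyperfilter ℕ : Filter ℕ),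
      MvPolynomial.eval (Sum.elim (fun i => s i N) (y N)) w = 0 := by
    intro w hw
    rw [← cls_eq_zero, ← hzz, hzW w hw]
    rfl
  have e2 : ∀ᶠ N in (hyperfilter ℕ : Filter ℕ),
      MvPolynomial.eval (Sum.elim (fun i => s i N) (y N)) G ≠ 0 := by
    rw [← cls_ne_zero, ← hzz]
    intro h
    exact hzG (Subtype.val_injective h)
  have e3 : ∀ i, ∀ᶠ N in (hyperfilter ℕ : Filter ℕ),
      (D i).map (MvPolynomial.eval (y N)) ≠ 0 := by
    intro i
    obtain ⟨k, hk⟩ : ∃ k, ((D i).map (MvPolynomial.eval₂Hom (diag Q) yy)).coeff k ≠ 0 := by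
      by_contra hcon
      push Not at hcon
      exact hD0 i (Polynomial.ext fun k => by rw [hcon k, Polynomial.coeff_zero])
    rw [Polynomial.coeff_map] at hk
    have h6 := los_mv Q (fun j N => y N j) ((D i).coeff k)
    have h7 : cls Q (fun N => MvPolynomial.eval (y N) ((D i).coeff k)) ≠ 0 := by
      rw [← h6]
      exact hk
    rw [cls_ne_zero] at h7
    filter_upwards [h7] with N hN h0
    apply hN
    have := congrArg (fun q => q.coeff k) h0
    simpa [Polynomial.coeff_map] using this
  have e4 : ∀ i, ∀ᶠ N in (hyperfilter ℕ : Filter ℕ),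
      ((D i).map (MvPolynomial.eval (y N))).eval (s i N) = 0 := by
    intro i
    have h6 := los_poly Q (fun j N => y N j) (s i) (D i)
    rw [← cls_eq_zero]
    rw [← h6, hs i]
    exact hD1 i
  have e5 := (hW.eventually_all (l := (hyperfilter ℕ : Filter ℕ))).mpr e1
  filter_upwards [e5, e2, Filter.eventually_all.mpr e3, Filter.eventually_all.mpr e4] with
    N h1 h2 h3 h4
  exact ⟨h1, h2, fun i => ⟨h3 i, h4 i⟩⟩

end Run7.h578.Ultra
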