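import Mathlib
import Pool.Agent.Helper259.AbsHt
import Pool.Agent.Run7.h578.Ultra

set_option autoImplicit false

namespace Run7.h578.FibHt

open Pool.Agent.Helper259.AbsHt Pool.Agent.Helper259.HtPoly MvPolynomial Filter

/-- homogenisation in degree `N` with a new variable `0` -/
noncomputable def homog {m : ℕ} (N : ℕ) (p : MvPolynomial (Fin m) Qbar) :
    MvPolynomial (Fin (m + 1)) Qbar :=
  ∑ k ∈ Finset.range (N + 1), X 0 ^ (N - k) * rename Fin.succ (homogeneousComponent k p)

lemma homog_isHomogeneous {m : ℕ} (N : ℕ) (p : MvPolynomial (Fin m) Qbar) :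
    (homog N p).IsHomogeneous N := by
  refine IsHomogeneous.sum _ _ _ fun k hk => ?_
  have h1 : (X 0 ^ (N - k) : MvPolynomial (Fin (m + 1)) Qbar).IsHomogeneous (N - k) := by
    have := (isHomogeneous_X Qbar (0 : Fin (m + 1))).pow (N - k)
    simpa using this
  have h2 : (rename Fin.succ (homogeneousComponent k p) :
      MvPolynomial (Fin (m + 1)) Qbar).IsHomogeneous k :=
    (homogeneousComponent_isHomogeneous k p).rename_isHomogeneous
  have := h1.mul h2
  have e : N - k + k = N := by
    have := Finset.mem_range.mp hk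
    omega
  rwa [e] at this

lemma eval_homog {m : ℕ} (N : ℕ) (p : MvPolynomial (Fin m) Qbar) (hN : p.totalDegree ≤ N)
    (y : Fin m → Qbar) : eval (Fin.cons 1 y : Fin (m + 1) → Qbar) (homog N p) = eval y p := by
  have h1 : ∑ k ∈ Finset.range (N + 1), homogeneousComponent k p = p := by
    conv_rhs => rw [← sum_homogeneousComponent p]
    symm
    apply Finset.sum_subset
    · intro k hk
      rw [Finset.mem_range] at hk ⊢
      omega
    · intro k _ hk
      rw [Finset.mem_range] at hk
      exact homogeneousComponent_eq_zero _ _ (by omega)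
  conv_rhs => rw [← h1]
  rw [homog, map_sum, map_sum]
  refine Finset.sum_congr rfl fun k _ => ?_
  rw [map_mul, map_pow, eval_X, Fin.cons_zero, one_pow, one_mul, eval_rename]
  congr 2

/-- heights of values of polynomials -/
theorem ht_values {m : ℕ} {ι : Type*} [Finite ι] (p : ι → MvPolynomial (Fin m) Qbar) :
    ∃ C : ℝ, 0 ≤ C ∧ ∀ y : Fin m → Qbar, absLogHeight (fun j => eval y (p j)) ≤
      C + C * absLogHeight (Fin.cons 1 y : Fin (m + 1) → Qbar) := by
  classical
  have := Fintype.ofFinite ι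
  set N := Finset.univ.sup fun j => (p j).totalDegree with hN
  obtain ⟨C, hC⟩ := absLogHeight_eval N (fun j => homog N (p j))
    (fun j => homog_isHomogeneous N (p j))
  refine ⟨max C N, le_max_of_le_right (Nat.cast_nonneg _), fun y => ?_⟩
  have h1 := hC (Fin.cons 1 y)
  have e : (fun j => eval (Fin.cons 1 y : Fin (m + 1) → Qbar) (homog N (p j))) =
      fun j => eval y (p j) := by
    funext j
    exact eval_homog N (p j) (Finset.le_sup (f := fun j => (p j).totalDegree)
      (Finset.mem_univ j)) y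
  rw [e] at h1
  refine h1.trans ?_
  have h0 := absLogHeight_nonneg (Fin.cons 1 y : Fin (m + 1) → Qbar)
  have := le_max_left C (N : ℝ)
  have := mul_le_mul_of_nonneg_right (le_max_right C (N : ℝ)) h0
  linarith

/-- heights of roots of polynomials with polynomial coefficients -/
theorem ht_roots {n m : ℕ} (D : Fin n → Polynomial (MvPolynomial (Fin m) Qbar)) :
    ∃ C : ℝ, 0 ≤ C ∧ ∀ (x : Fin n → Qbar) (y : Fin m → Qbar),
      (∀ i, (D i).map (eval y) ≠ 0 ∧ ((D i).map (eval y)).eval (x i) = 0) →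
      absLogHeight (Fin.cons 1 x : Fin (n + 1) → Qbar) ≤
        C + C * absLogHeight (Fin.cons 1 y : Fin (m + 1) → Qbar) := by
  classical
  choose A hA using fun i => absLogHeight_root (D i).natDegree
  choose B hB0 hB using fun i => ht_values
    (fun j : Fin ((D i).natDegree + 1) => (D i).coeff j)
  set c0 := absLogHeight ![(1 : Qbar), 1] with hc0
  have h00 : 0 ≤ c0 := absLogHeight_nonneg _
  have hBs : ∀ i, 0 ≤ B i := hB0
  have hAs : ∀ i, 0 ≤ |A i| := fun i => abs_nonneg _
  refine ⟨c0 + ∑ i, (|A i| + B i), add_nonneg h00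
    (Finset.sum_nonneg fun i _ => add_nonneg (hAs i) (hBs i)), fun x y h => ?_⟩
  have h1 := absLogHeight_le_sum (Fin.cons 1 x : Fin (n + 1) → Qbar)
  rw [Fin.sum_univ_succ] at h1
  simp only [Fin.cons_zero, Fin.cons_succ] at h1
  have hy0 := absLogHeight_nonneg (Fin.cons 1 y : Fin (m + 1) → Qbar)
  set H := absLogHeight (Fin.cons 1 y : Fin (m + 1) → Qbar) with hH
  have h2 : ∀ i, absLogHeight ![1, x i] ≤ |A i| + (B i + B i * H) := by
    intro i
    have h3 := hA i ((D i).map (eval y)) (x i) (h i).1 (Polynomial.natDegree_map_le) (h i).2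
    have e : cv (D i).natDegree ((D i).map (eval y)) =
        fun j : Fin ((D i).natDegree + 1) => eval y ((D i).coeff j) := by
      funext j
      simp [cv, Polynomial.coeff_map]
    rw [e] at h3
    have h4 := hB i y
    have h5 := le_abs_self (A i)
    linarith
  have h3 : ∑ i, absLogHeight ![1, x i] ≤ ∑ i, (|A i| + (B i + B i * H)) :=
    Finset.sum_le_sum fun i _ => h2 i
  have h4 : ∑ i, (|A i| + (B i + B i * H)) =
      ∑ i, (|A i| + B i) + (∑ i, B i) * H := by
    rw [Finset.sum_mul, ← Finset.sum_add_distrib]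
    exact Finset.sum_congr rfl fun i _ => by ring
  have h5 : (∑ i, B i) ≤ ∑ i, (|A i| + B i) :=
    Finset.sum_le_sum fun i _ => by have := hAs i; linarith
  have h6 := mul_le_mul_of_nonneg_right h5 hy0
  have h7 : 0 ≤ c0 * H := mul_nonneg h00 hy0
  calc absLogHeight (Fin.cons 1 x : Fin (n + 1) → Qbar)
      ≤ c0 + ∑ i, absLogHeight ![1, x i] := h1
    _ ≤ c0 + ∑ i, (|A i| + B i) + (c0 + ∑ i, (|A i| + B i)) * H := by linarith

/-- In an algebraic family of constructible sets, every nonempty fibre has a point whose height is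
bounded linearly in terms of the height of the parameter. -/
theorem ht_fibre {n m : ℕ} (W : Set (MvPolynomial (Fin n ⊕ Fin m) Qbar)) (hW : W.Finite)
    (G : MvPolynomial (Fin n ⊕ Fin m) Qbar) :
    ∃ C : ℝ, 0 ≤ C ∧ ∀ y : Fin m → Qbar,
      (∃ x : Fin n → Qbar, (∀ w ∈ W, eval (Sum.elim x y) w = 0) ∧ eval (Sum.elim x y) G ≠ 0) →
      ∃ x : Fin n → Qbar, ((∀ w ∈ W, eval (Sum.elim x y) w = 0) ∧
        eval (Sum.elim x y) G ≠ 0) ∧
        absLogHeight (Fin.cons 1 x : Fin (n + 1) → Qbar) ≤
        C + C * absLogHeight (Fin.cons 1 y : Fin (m + 1) → Qbar) := by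
  by_contra hcon
  push Not at hcon
  choose y hy hbad using fun N : ℕ => hcon N (Nat.cast_nonneg N)
  choose x hx using hy
  obtain ⟨D, x', hD⟩ := Ultra.unif Qbar W hW G x y hx
  obtain ⟨C, hC0, hC⟩ := ht_roots D
  have hlarge : ∀ᶠ N : ℕ in (hyperfilter ℕ : Filter ℕ), C ≤ (N : ℝ) := by
    have h1 : ∀ᶠ N : ℕ in (atTop : Filter ℕ), C ≤ (N : ℝ) := by
      filter_upwards [Filter.eventually_ge_atTop ⌈C⌉₊] with N hN
      exact (Nat.le_ceil C).trans (by exact_mod_cast hN)
    rw [← Nat.cofinite_eq_atTop] at h1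
    exact h1.filter_mono hyperfilter_le_cofinite
  obtain ⟨N, ⟨h1, h2, h3⟩, h4⟩ := (hD.and hlarge).exists
  have h5 := hbad N (x' N) ⟨h1, h2⟩
  have h6 := hC (x' N) (y N) h3
  have h0 := absLogHeight_nonneg (Fin.cons 1 (y N) : Fin (m + 1) → Qbar)
  have h7 := mul_le_mul_of_nonneg_right h4 h0
  linarith

end Run7.h578.FibHt
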