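import Mathlib
import Pool.Agent.Helper259.AbsHt
import Pool.Agent.Run7.h578.FibHt
import Pool.Agent.Run7.h578.ProjDefs

set_option autoImplicit false

namespace Run7.h578.Orb

open Pool.Agent.Helper259.AbsHt MvPolynomial
open scoped LinearAlgebra.Projectivization

lemma eval_smul_of_homog {k d : ℕ} {F : MvPolynomial (Fin k) Qbar} (hF : F.IsHomogeneous d)
    (c : Qbar) (v : Fin k → Qbar) : eval (c • v) F = c ^ d * eval v F := by
  rw [eval_eq, eval_eq, Finset.mul_sum]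
  refine Finset.sum_congr rfl fun s hs => ?_
  have hd : ∑ i ∈ s.support, s i = d := by
    have := hF (mem_support_iff.mp hs)
    rw [← this]
    simp [Finsupp.weight_apply, Finsupp.sum]
  simp only [Pi.smul_apply, smul_eq_mul, mul_pow, Finset.prod_mul_distrib]
  rw [Finset.prod_pow_eq_pow_sum, hd]
  ring

lemma fin_red {k : ℕ} (A : Set (MvPolynomial (Fin k) Qbar)) :
    ∃ A0 : Finset (MvPolynomial (Fin k) Qbar), (A0 : Set (MvPolynomial (Fin k) Qbar)) ⊆ A ∧
      ∀ v : Fin k → Qbar, (∀ F ∈ A0, eval v F = 0) → ∀ F ∈ A, eval v F = 0 := by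
  obtain ⟨A0, h1, h2⟩ := (Submodule.fg_span_iff_fg_span_finset_subset A).mp
    (IsNoetherian.noetherian (Ideal.span A))
  refine ⟨A0, h1, fun v hv F hF => ?_⟩
  have h3 : F ∈ Ideal.span (A0 : Set (MvPolynomial (Fin k) Qbar)) := by
    have : F ∈ Submodule.span (MvPolynomial (Fin k) Qbar) A := Submodule.subset_span hF
    rwa [h2] at this
  have h4 : Ideal.span (A0 : Set (MvPolynomial (Fin k) Qbar)) ≤ RingHom.ker (eval v) := by
    rw [Ideal.span_le]
    intro G hG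
    exact (RingHom.mem_ker).mpr (hv G hG)
  exact (RingHom.mem_ker).mp (h4 h3)

lemma mk_smul {n : ℕ} (c : Qbar) (v : Fin (n + 1) → Qbar) (h : c • v ≠ 0) (hv : v ≠ 0) :
    Projectivization.mk Qbar (c • v) h = Projectivization.mk Qbar v hv := by
  rw [Projectivization.mk_eq_mk_iff']
  exact ⟨c, rfl⟩

lemma ht_mk {n : ℕ} (v : Fin (n + 1) → Qbar) (hv : v ≠ 0) :
    ht (Projectivization.mk Qbar v hv) = absLogHeight v := by
  obtain ⟨a, ha⟩ := Projectivization.exists_smul_eq_mk_rep Qbar v hv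
  rw [ht, ← ha]
  exact absLogHeight_smul v a.ne_zero

lemma ht_nonneg {n : ℕ} (p : PP n) : 0 ≤ ht p := absLogHeight_nonneg _

/-- a valid local representation -/
def Valid {n m : ℕ} (X : Set (PP n)) (φ : X → PP m) (d : ℕ)
    (F : Fin (m + 1) → MvPolynomial (Fin (n + 1)) Qbar) : Prop :=
  (∀ i, (F i).IsHomogeneous d) ∧ ∀ (q : X) (h : (fun i => eval q.1.rep (F i)) ≠ 0),
      φ q = Projectivization.mk Qbar (fun i => eval q.1.rep (F i)) h

/-- a morphism has a finite atlas of local representations -/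
lemma exists_atlas {n m : ℕ} (X : Set (PP n)) (φ : X → PP m) (hφ : IsMorphism X φ) :
    ∃ (A0 : Finset (MvPolynomial (Fin (n + 1)) Qbar))
      (d : MvPolynomial (Fin (n + 1)) Qbar → ℕ)
      (F : MvPolynomial (Fin (n + 1)) Qbar → Fin (m + 1) → MvPolynomial (Fin (n + 1)) Qbar)
      (i : MvPolynomial (Fin (n + 1)) Qbar → Fin (m + 1)),
      (∀ P ∈ A0, Valid X φ (d P) (F P) ∧ F P (i P) = P) ∧
      ∀ q : X, ∃ P ∈ A0, eval q.1.rep P ≠ 0 := by
  classical
  let A : Set (MvPolynomial (Fin (n + 1)) Qbar) :=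
    {P | ∃ (d : ℕ) (F : Fin (m + 1) → MvPolynomial (Fin (n + 1)) Qbar) (i : Fin (m + 1)),
      Valid X φ d F ∧ F i = P}
  obtain ⟨A0, h1, h2⟩ := fin_red A
  have h3 : ∀ P : MvPolynomial (Fin (n + 1)) Qbar, ∃ (d : ℕ)
      (F : Fin (m + 1) → MvPolynomial (Fin (n + 1)) Qbar) (i : Fin (m + 1)),
      P ∈ A0 → Valid X φ d F ∧ F i = P := by
    intro P
    by_cases hP : P ∈ A0
    · obtain ⟨d, F, i, h⟩ := h1 hP
      exact ⟨d, F, i, fun _ => h⟩
    · exact ⟨0, 0, 0, fun h => absurd h hP⟩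
  choose d F i hv using h3
  refine ⟨A0, d, F, i, hv, fun q => ?_⟩
  obtain ⟨d', F', h4, ⟨j, h5⟩, h6⟩ := hφ q
  by_contra hcon
  push Not at hcon
  exact h5 (h2 _ hcon _ ⟨d', F', j, ⟨h4, h6⟩, rfl⟩)

end Run7.h578.Orb
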