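import Mathlib
import Pool.Agent.Helper259.AbsHt
import Pool.Agent.Run7.h578.FibHt
import Pool.Agent.Run7.h578.ProjDefs
import Pool.Agent.Run7.h578.ProjFib

set_option autoImplicit false

namespace Run7.h578.Orb

open Pool.Agent.Helper259.AbsHt MvPolynomial
open scoped LinearAlgebra.Projectivization

/-- the easy direction -/
theorem lower {n m : ℕ} (X : Set (PP n)) (φ : X → PP m) (hφ : IsMorphism X φ) :
    ∃ C : ℝ, 0 ≤ C ∧ ∀ x : X, ht (φ x) ≤ C + C * ht x.1 := by
  classical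
  obtain ⟨A0, d, F, i, hv, hcov⟩ := exists_atlas X φ hφ
  have h1 : ∀ P : A0, ∃ C : ℝ, ∀ x : Fin (n + 1) → Qbar,
      absLogHeight (fun j => eval x (F P j)) ≤ C + d P * absLogHeight x := fun P =>
    absLogHeight_eval (d P) (F P) (hv P P.2).1.1
  choose c hc using h1
  have hnn : ∀ P : A0, 0 ≤ |c P| + d P := fun P => by positivity
  refine ⟨∑ P : A0, (|c P| + d P), Finset.sum_nonneg fun P _ => hnn P, fun x => ?_⟩
  obtain ⟨P, hP, hPx⟩ := hcov x
  obtain ⟨⟨hd, hval⟩, hi⟩ := hv P hP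
  have hne : (fun j => eval x.1.rep (F P j)) ≠ 0 := by
    intro h0
    have := congrFun h0 (i P)
    simp only [hi, Pi.zero_apply] at this
    exact hPx this
  rw [hval x hne, ht_mk]
  have h2 := hc ⟨P, hP⟩ x.1.rep
  have h3 : |c ⟨P, hP⟩| + d P ≤ ∑ P : A0, (|c P| + d P) :=
    Finset.single_le_sum (f := fun P : A0 => |c P| + (d P : ℝ)) (fun P _ => hnn P)
      (Finset.mem_univ (⟨P, hP⟩ : A0))
  have h4 := ht_nonneg x.1
  have h5 : absLogHeight x.1.rep = ht x.1 := rfl
  rw [h5] at h2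
  have h6 := le_abs_self (c ⟨P, hP⟩)
  have h7 : (0 : ℝ) ≤ d P := Nat.cast_nonneg _
  have h8 := abs_nonneg (c ⟨P, hP⟩)
  have h9 : (d P : ℝ) * ht x.1 ≤ (∑ P : A0, (|c P| + d P)) * ht x.1 :=
    mul_le_mul_of_nonneg_right (by linarith) h4
  simp only at h2
  linarith

/-- the main direction: a point of small height in every fibre -/
theorem upper {n m : ℕ} (X : Set (PP n)) (hX : IsQuasiProjective X) (φ : X → PP m)
    (hφ : IsMorphism X φ) :
    ∃ C : ℝ, 0 ≤ C ∧ ∀ x : X, ∃ x' : X, φ x' = φ x ∧ ht x'.1 ≤ C + C * ht (φ x) := by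
  classical
  obtain ⟨A0, d, F, i, hv, hcov⟩ := exists_atlas X φ hφ
  obtain ⟨S, T, hST, rfl⟩ := hX
  obtain ⟨S0, hS0, hS0'⟩ := fin_red S
  obtain ⟨T0, hT0, hT0'⟩ := fin_red T
  -- the charts
  let W : MvPolynomial (Fin (n + 1)) Qbar → Fin (n + 1) →
      Set (MvPolynomial (Fin (n + 1) ⊕ Fin (m + 1)) Qbar) := fun P l =>
    (rename Sum.inl '' (S0 : Set (MvPolynomial (Fin (n + 1)) Qbar))) ∪ {X (Sum.inl l) - 1} ∪
      Set.range (fun j => rename Sum.inl (F P j) - X (Sum.inr j) * rename Sum.inl P)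
  have hWfin : ∀ P l, (W P l).Finite := fun P l =>
    (((Finset.finite_toSet S0).image _).union (Set.finite_singleton _)).union (Set.finite_range _)
  let G : MvPolynomial (Fin (n + 1)) Qbar → MvPolynomial (Fin (n + 1)) Qbar →
      MvPolynomial (Fin (n + 1) ⊕ Fin (m + 1)) Qbar := fun P g => rename Sum.inl (g * P)
  have hWmem : ∀ P l (x : Fin (n + 1) → Qbar) (y : Fin (m + 1) → Qbar),
      (∀ w ∈ W P l, eval (Sum.elim x y) w = 0) ↔
        ((∀ s ∈ S0, eval x s = 0) ∧ x l = 1 ∧ ∀ j, eval x (F P j) = y j * eval x P) := by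
    intro P l x y
    constructor
    · intro h
      refine ⟨fun s hs => ?_, ?_, fun j => ?_⟩
      · have := h (rename Sum.inl s) (Or.inl (Or.inl ⟨s, hs, rfl⟩))
        rw [eval_rename] at this
        exact this
      · have := h (X (Sum.inl l) - 1) (Or.inl (Or.inr rfl))
        simp only [map_sub, eval_X, Sum.elim_inl, map_one] at this
        exact sub_eq_zero.mp this
      · have := h _ (Or.inr ⟨j, rfl⟩)
        simp only [map_sub, map_mul, eval_X, Sum.elim_inr, eval_rename] at this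
        exact sub_eq_zero.mp this
    · rintro ⟨h1, h2, h3⟩ w ((⟨s, hs, rfl⟩ | rfl) | ⟨j, rfl⟩)
      · rw [eval_rename]
        exact h1 s hs
      · simp [h2]
      · have := h3 j
        simp only [map_sub, map_mul, eval_X, Sum.elim_inr, eval_rename]
        exact sub_eq_zero.mpr this
  have hGmem : ∀ P g (x : Fin (n + 1) → Qbar) (y : Fin (m + 1) → Qbar),
      eval (Sum.elim x y) (G P g) ≠ 0 ↔ (eval x g ≠ 0 ∧ eval x P ≠ 0) := by
    intro P g x y
    have : eval (Sum.elim x y) (G P g) = eval x g * eval x P := by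
      simp only [G, eval_rename, map_mul]
      rfl
    rw [this, mul_ne_zero_iff]
  choose C hC0 hC using fun a : (A0 × T0) × Fin (n + 1) =>
    FibHt.ht_fibre (W a.1.1 a.2) (hWfin _ _) (G a.1.1 a.1.2)
  refine ⟨∑ a, C a, Finset.sum_nonneg fun a _ => hC0 a, fun x => ?_⟩
  obtain ⟨hxS, g, hg, hxg⟩ := x.2
  obtain ⟨g, hg, hxg⟩ : ∃ g ∈ T0, eval x.1.rep g ≠ 0 := by
    by_contra hcon
    push Not at hcon
    exact hxg (hT0' _ hcon g hg)
  obtain ⟨P, hP, hPx⟩ := hcov x
  obtain ⟨⟨hd, hval⟩, hi⟩ := hv P hP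
  obtain ⟨l, hl⟩ : ∃ l, x.1.rep l ≠ 0 := by
    by_contra hcon
    push Not at hcon
    exact x.1.rep_nonzero (funext hcon)
  have hPd : P.IsHomogeneous (d P) := by
    have := hd (i P)
    rwa [hi] at this
  -- normalised representative
  set c : Qbar := (x.1.rep l)⁻¹ with hc
  have hc0 : c ≠ 0 := inv_ne_zero hl
  set v : Fin (n + 1) → Qbar := c • x.1.rep with hvdef
  have hSv : ∀ s ∈ S0, eval v s = 0 := by
    intro s hs
    obtain ⟨e, he⟩ := hST s (Or.inl (hS0 hs))
    rw [hvdef, eval_smul_of_homog he, hxS s (hS0 hs), mul_zero]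
  have hgv : eval v g ≠ 0 := by
    obtain ⟨e, he⟩ := hST g (Or.inr (hT0 hg))
    rw [hvdef, eval_smul_of_homog he]
    exact mul_ne_zero (pow_ne_zero _ hc0) hxg
  have hPv : eval v P ≠ 0 := by
    rw [hvdef, eval_smul_of_homog hPd]
    exact mul_ne_zero (pow_ne_zero _ hc0) hPx
  set y : Fin (m + 1) → Qbar := fun j => eval v (F P j) / eval v P with hy
  have hyi : y (i P) = 1 := by
    simp only [hy, hi]
    exact div_self hPv
  have hy0 : y ≠ 0 := by
    intro h0
    have := congrFun h0 (i P)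
    rw [hyi] at this
    exact one_ne_zero this
  -- the value of the morphism at a point given by a solution
  have key : ∀ (q : {p : PP n | (∀ F ∈ S, eval p.rep F = 0) ∧ ∃ F ∈ T, eval p.rep F ≠ 0})
      (u : Fin (n + 1) → Qbar) (b : Qbar), b ≠ 0 → q.1.rep = b • u → eval u P ≠ 0 →
      (∀ j, eval u (F P j) = y j * eval u P) → φ q = Projectivization.mk Qbar y hy0 := by
    intro q u b hb hq hu h
    have e : (fun j => eval q.1.rep (F P j)) = (b ^ d P * eval u P) • y := by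
      funext j
      rw [hq, eval_smul_of_homog (hd j), h j, Pi.smul_apply, smul_eq_mul]
      ring
    have hne : (b ^ d P * eval u P) ≠ 0 := mul_ne_zero (pow_ne_zero _ hb) hu
    have hne' : (fun j => eval q.1.rep (F P j)) ≠ 0 := by
      rw [e]
      exact smul_ne_zero hne hy0
    rw [hval q hne']
    rw [Projectivization.mk_eq_mk_iff']
    exact ⟨_, e.symm⟩
  have hφx : φ x = Projectivization.mk Qbar y hy0 := by
    refine key x v c⁻¹ (inv_ne_zero hc0) ?_ hPv fun j => ?_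
    · rw [hvdef, smul_smul, inv_mul_cancel₀ hc0, one_smul]
    · simp only [hy]
      rw [div_mul_cancel₀ _ hPv]
  obtain ⟨x', ⟨hx'W, hx'G⟩, hx'h⟩ := hC ((⟨P, hP⟩, ⟨g, hg⟩), l) y ⟨v,
    (hWmem P l v y).mpr ⟨hSv, by
      simp only [hvdef, Pi.smul_apply, smul_eq_mul, hc]
      exact inv_mul_cancel₀ hl, fun j => by
      simp only [hy]
      rw [div_mul_cancel₀ _ hPv]⟩, (hGmem P g v y).mpr ⟨hgv, hPv⟩⟩
  obtain ⟨hx'S, hx'l, hx'F⟩ := (hWmem P l x' y).mp hx'W
  obtain ⟨hx'g, hx'P⟩ := (hGmem P g x' y).mp hx'G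
  have hx'0 : x' ≠ 0 := by
    rintro rfl
    simp at hx'l
  obtain ⟨a, ha⟩ := Projectivization.exists_smul_eq_mk_rep Qbar x' hx'0
  have ha' : (Projectivization.mk Qbar x' hx'0).rep = (a : Qbar) • x' := ha.symm
  have hmem : Projectivization.mk Qbar x' hx'0 ∈
      {p : PP n | (∀ F ∈ S, eval p.rep F = 0) ∧ ∃ F ∈ T, eval p.rep F ≠ 0} := by
    refine ⟨fun s hs => ?_, g, hT0 hg, ?_⟩
    · obtain ⟨e, he⟩ := hST s (Or.inl hs)
      rw [ha', eval_smul_of_homog he, hS0' x' hx'S s hs, mul_zero]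
    · obtain ⟨e, he⟩ := hST g (Or.inr (hT0 hg))
      rw [ha', eval_smul_of_homog he]
      exact mul_ne_zero (pow_ne_zero _ a.ne_zero) hx'g
  refine ⟨⟨_, hmem⟩, ?_, ?_⟩
  · rw [hφx]
    exact key ⟨_, hmem⟩ x' a a.ne_zero ha' hx'P hx'F
  · rw [hφx, ht_mk, ht_mk]
    have h1 : absLogHeight x' ≤ absLogHeight (Fin.cons 1 x' : Fin (n + 2) → Qbar) := by
      have := absLogHeight_comp_le (Fin.succ : Fin (n + 1) → Fin (n + 2))
        (Fin.cons 1 x' : Fin (n + 2) → Qbar)
      have e : (Fin.cons 1 x' : Fin (n + 2) → Qbar) ∘ Fin.succ = x' := by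
        funext j
        simp
      rwa [e] at this
    have h2 : absLogHeight (Fin.cons 1 y : Fin (m + 2) → Qbar) ≤ absLogHeight y := by
      have := absLogHeight_comp_le (Fin.cons (i P) id : Fin (m + 2) → Fin (m + 1)) y
      have e : y ∘ (Fin.cons (i P) id : Fin (m + 2) → Fin (m + 1)) =
          (Fin.cons 1 y : Fin (m + 2) → Qbar) := by
        funext j
        refine Fin.cases ?_ (fun j => ?_) j
        · simp [hyi]
        · simp
      rwa [e] at this
    have h3 : C ((⟨P, hP⟩, ⟨g, hg⟩), l) ≤ ∑ a, C a :=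
      Finset.single_le_sum (f := C) (fun a _ => hC0 a) (Finset.mem_univ _)
    have h4 := absLogHeight_nonneg y
    have h5 := hC0 ((⟨P, hP⟩, ⟨g, hg⟩), l)
    have h6 := mul_le_mul_of_nonneg_left h2 h5
    have h7 := mul_le_mul_of_nonneg_right h3 h4
    linarith

end Run7.h578.Orb
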