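import Mathlib
import Pool.Agent.Run7.h578.ProjDefs

set_option autoImplicit false

/-! The space `Rat_d` of rational maps of degree `d` in projective space of dimension `2 d + 1`,
and conjugation by `PGL_2`. -/

namespace Run7.h578.Orb

open Pool.Agent.Helper259.AbsHt MvPolynomial

/-- the form `∑ a_i X ^ i Y ^ (d - i)` with `a_i` the first `d + 1` coordinates -/
noncomputable def num (d : ℕ) (v : Fin (2 * d + 1 + 1) → Qbar) : MvPolynomial (Fin 2) Qbar :=
  ∑ i : Fin (d + 1), C (v ⟨i, by omega⟩) * X 0 ^ (i : ℕ) * X 1 ^ (d - i)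

/-- the form `∑ b_i X ^ i Y ^ (d - i)` with `b_i` the last `d + 1` coordinates -/
noncomputable def den (d : ℕ) (v : Fin (2 * d + 1 + 1) → Qbar) : MvPolynomial (Fin 2) Qbar :=
  ∑ i : Fin (d + 1), C (v ⟨d + 1 + i, by omega⟩) * X 0 ^ (i : ℕ) * X 1 ^ (d - i)

/-- the space of rational maps of degree `d`: the two forms have no common zero -/
def Rat (d : ℕ) : Set (PP (2 * d + 1)) :=
  {p | ∀ x : Fin 2 → Qbar, x ≠ 0 → ¬ (eval x (num d p.rep) = 0 ∧ eval x (den d p.rep) = 0)}

/-- composition of a form with the linear map given by `M` -/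
noncomputable def subst (M : GL (Fin 2) Qbar) (F : MvPolynomial (Fin 2) Qbar) :
    MvPolynomial (Fin 2) Qbar :=
  bind₁ (fun i => C (M i 0) * X 0 + C (M i 1) * X 1) F

/-- first form of `M⁻¹ ∘ f ∘ M` (up to the scalar `det M`) -/
noncomputable def cNum (d : ℕ) (M : GL (Fin 2) Qbar) (v : Fin (2 * d + 1 + 1) → Qbar) :
    MvPolynomial (Fin 2) Qbar :=
  C (M 1 1) * subst M (num d v) - C (M 0 1) * subst M (den d v)

/-- second form of `M⁻¹ ∘ f ∘ M` (up to the scalar `det M`) -/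
noncomputable def cDen (d : ℕ) (M : GL (Fin 2) Qbar) (v : Fin (2 * d + 1 + 1) → Qbar) :
    MvPolynomial (Fin 2) Qbar :=
  C (M 0 0) * subst M (den d v) - C (M 1 0) * subst M (num d v)

/-- exponent of `X ^ i Y ^ (d - i)` -/
noncomputable def expo (d i : ℕ) : Fin 2 →₀ ℕ := Finsupp.single 0 i + Finsupp.single 1 (d - i)

/-- the coefficient vector of the conjugate `M⁻¹ ∘ f ∘ M` -/
noncomputable def conjVec (d : ℕ) (M : GL (Fin 2) Qbar) (v : Fin (2 * d + 1 + 1) → Qbar) :
    Fin (2 * d + 1 + 1) → Qbar := fun k =>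
  if (k : ℕ) < d + 1 then coeff (expo d k) (cNum d M v)
  else coeff (expo d (k - (d + 1))) (cDen d M v)

/-- `g` is conjugate to `f` by an element of `PGL_2` -/
def IsConj (d : ℕ) (f g : PP (2 * d + 1)) : Prop :=
  ∃ M : GL (Fin 2) Qbar, ∃ c : Qbar, c ≠ 0 ∧ g.rep = c • conjVec d M f.rep

end Run7.h578.Orb
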