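import Mathlib
import Pool.Agent.Run7.h578.ProjDefs
import Pool.Agent.Run7.h578.ProjFib
import Pool.Agent.Run7.h578.RatQ

set_option autoImplicit false

namespace Run7.h578.Orb

open Pool.Agent.Helper259.AbsHt MvPolynomial

lemma expo_inj {d i j : ℕ} (h : expo d i = expo d j) : i = j := by
  have := congrArg (fun s => s 0) h
  simpa [expo] using this

/-- a binary form is determined by its coefficients -/
lemma form_eq (d : ℕ) (F : MvPolynomial (Fin 2) Qbar) (hF : F.IsHomogeneous d) :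
    ∑ i : Fin (d + 1), C (coeff (expo d i) F) * X 0 ^ (i : ℕ) * X 1 ^ (d - i) = F := by
  have hm : ∀ i : Fin (d + 1), (C (coeff (expo d i) F) * X 0 ^ (i : ℕ) * X 1 ^ (d - (i : ℕ)) :
      MvPolynomial (Fin 2) Qbar) = monomial (expo d i) (coeff (expo d i) F) := by
    intro i
    rw [expo, monomial_eq]
    rw [Finsupp.prod_add_index' (by simp) (by intros; ring)]
    simp [mul_assoc]
  simp only [hm]
  ext s
  rw [coeff_sum]
  simp only [coeff_monomial]
  by_cases hs : s 0 + s 1 = d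
  · have e : expo d (s 0) = s := by
      ext j
      fin_cases j
      · simp [expo]
      · simp [expo]
        omega
    rw [Finset.sum_eq_single (⟨s 0, by omega⟩ : Fin (d + 1))]
    · simp [e]
    · intro b _ hb
      rw [if_neg]
      intro h
      apply hb
      apply Fin.ext
      rw [← e] at h
      exact expo_inj h
    · simp
  · have h0 : coeff s F = 0 := by
      apply hF.coeff_eq_zero
      intro h
      apply hs
      rw [← h]
      rw [Finsupp.degree_eq_sum]
      simp [Fin.sum_univ_two]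
    rw [h0]
    apply Finset.sum_eq_zero
    intro i _
    rw [if_neg]
    intro h
    apply hs
    rw [← h]
    have := i.2
    simp [expo]
    omega

lemma num_isHomogeneous (d : ℕ) (v : Fin (2 * d + 1 + 1) → Qbar) : (num d v).IsHomogeneous d := by
  refine IsHomogeneous.sum _ _ _ fun i _ => ?_
  have h1 := ((isHomogeneous_C (Fin 2) (v ⟨i, by omega⟩)).mul
    ((isHomogeneous_X Qbar (0 : Fin 2)).pow (i : ℕ))).mul
    ((isHomogeneous_X Qbar (1 : Fin 2)).pow (d - (i : ℕ)))
  have e : 0 + 1 * (i : ℕ) + 1 * (d - (i : ℕ)) = d := by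
    have := i.2
    omega
  rwa [e] at h1

lemma den_isHomogeneous (d : ℕ) (v : Fin (2 * d + 1 + 1) → Qbar) : (den d v).IsHomogeneous d := by
  refine IsHomogeneous.sum _ _ _ fun i _ => ?_
  have h1 := ((isHomogeneous_C (Fin 2) (v ⟨d + 1 + i, by omega⟩)).mul
    ((isHomogeneous_X Qbar (0 : Fin 2)).pow (i : ℕ))).mul
    ((isHomogeneous_X Qbar (1 : Fin 2)).pow (d - (i : ℕ)))
  have e : 0 + 1 * (i : ℕ) + 1 * (d - (i : ℕ)) = d := by
    have := i.2
    omega
  rwa [e] at h1

lemma subst_isHomogeneous (d : ℕ) (M : GL (Fin 2) Qbar) (F : MvPolynomial (Fin 2) Qbar)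
    (hF : F.IsHomogeneous d) : (subst M F).IsHomogeneous d := by
  have := hF.aeval (fun i => (C (M i 0) * X 0 + C (M i 1) * X 1 : MvPolynomial (Fin 2) Qbar))
    (n := 1) (fun i => by
      have h1 := (isHomogeneous_C (Fin 2) (M i 0)).mul (isHomogeneous_X Qbar (0 : Fin 2))
      have h2 := (isHomogeneous_C (Fin 2) (M i 1)).mul (isHomogeneous_X Qbar (1 : Fin 2))
      rw [zero_add] at h1 h2
      exact h1.add h2)
  rw [one_mul] at this
  exact this

lemma cNum_isHomogeneous (d : ℕ) (M : GL (Fin 2) Qbar) (v : Fin (2 * d + 1 + 1) → Qbar) :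
    (cNum d M v).IsHomogeneous d := by
  have h1 := (isHomogeneous_C (Fin 2) (M 1 1)).mul
    (subst_isHomogeneous d M _ (num_isHomogeneous d v))
  have h2 := (isHomogeneous_C (Fin 2) (M 0 1)).mul
    (subst_isHomogeneous d M _ (den_isHomogeneous d v))
  rw [zero_add] at h1 h2
  exact h1.sub h2

lemma cDen_isHomogeneous (d : ℕ) (M : GL (Fin 2) Qbar) (v : Fin (2 * d + 1 + 1) → Qbar) :
    (cDen d M v).IsHomogeneous d := by
  have h1 := (isHomogeneous_C (Fin 2) (M 0 0)).mul
    (subst_isHomogeneous d M _ (den_isHomogeneous d v))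
  have h2 := (isHomogeneous_C (Fin 2) (M 1 0)).mul
    (subst_isHomogeneous d M _ (num_isHomogeneous d v))
  rw [zero_add] at h1 h2
  exact h1.sub h2

lemma num_conjVec (d : ℕ) (M : GL (Fin 2) Qbar) (v : Fin (2 * d + 1 + 1) → Qbar) :
    num d (conjVec d M v) = cNum d M v := by
  rw [← form_eq d _ (cNum_isHomogeneous d M v), num]
  refine Finset.sum_congr rfl fun i _ => ?_
  congr 3
  simp only [conjVec]
  rw [if_pos i.2]

lemma den_conjVec (d : ℕ) (M : GL (Fin 2) Qbar) (v : Fin (2 * d + 1 + 1) → Qbar) :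
    den d (conjVec d M v) = cDen d M v := by
  rw [← form_eq d _ (cDen_isHomogeneous d M v), den]
  refine Finset.sum_congr rfl fun i _ => ?_
  congr 3
  simp only [conjVec]
  rw [if_neg (by omega)]
  congr 2
  omega

lemma num_smul (d : ℕ) (c : Qbar) (v : Fin (2 * d + 1 + 1) → Qbar) :
    num d (c • v) = C c * num d v := by
  rw [num, num, Finset.mul_sum]
  refine Finset.sum_congr rfl fun i _ => ?_
  simp only [Pi.smul_apply, smul_eq_mul, C_mul]
  ring

lemma den_smul (d : ℕ) (c : Qbar) (v : Fin (2 * d + 1 + 1) → Qbar) :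
    den d (c • v) = C c * den d v := by
  rw [den, den, Finset.mul_sum]
  refine Finset.sum_congr rfl fun i _ => ?_
  simp only [Pi.smul_apply, smul_eq_mul, C_mul]
  ring

lemma eval_subst (M : GL (Fin 2) Qbar) (F : MvPolynomial (Fin 2) Qbar) (x : Fin 2 → Qbar) :
    eval x (subst M F) = eval (fun i => M i 0 * x 0 + M i 1 * x 1) F := by
  rw [subst, ← coe_aeval_eq_eval, ← coe_aeval_eq_eval]
  simp only [RingHom.coe_coe]
  rw [aeval_bind₁]
  simp

/-- conjugation preserves the absence of common zeros -/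
lemma conj_no_zero (d : ℕ) (M : GL (Fin 2) Qbar) (v : Fin (2 * d + 1 + 1) → Qbar)
    (h : ∀ x : Fin 2 → Qbar, x ≠ 0 → ¬ (eval x (num d v) = 0 ∧ eval x (den d v) = 0)) :
    ∀ x : Fin 2 → Qbar, x ≠ 0 →
      ¬ (eval x (num d (conjVec d M v)) = 0 ∧ eval x (den d (conjVec d M v)) = 0) := by
  rintro x hx ⟨h1, h2⟩
  have hdet : M 0 0 * M 1 1 - M 0 1 * M 1 0 ≠ 0 := by
    have : (M : Matrix (Fin 2) (Fin 2) Qbar).det ≠ 0 := by
      have := M.det.ne_zero
      simpa using this
    rwa [Matrix.det_fin_two] at this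
  rw [num_conjVec, cNum, map_sub, map_mul, map_mul, eval_C, eval_C, eval_subst, eval_subst] at h1
  rw [den_conjVec, cDen, map_sub, map_mul, map_mul, eval_C, eval_C, eval_subst, eval_subst] at h2
  set s : Fin 2 → Qbar := fun i => M i 0 * x 0 + M i 1 * x 1 with hs
  set A := eval s (num d v)
  set B := eval s (den d v)
  have hA : (M 0 0 * M 1 1 - M 0 1 * M 1 0) * A = 0 := by
    linear_combination M 0 0 * h1 + M 0 1 * h2
  have hB : (M 0 0 * M 1 1 - M 0 1 * M 1 0) * B = 0 := by
    linear_combination M 1 0 * h1 + M 1 1 * h2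
  refine h s ?_ ⟨(mul_eq_zero.mp hA).resolve_left hdet, (mul_eq_zero.mp hB).resolve_left hdet⟩
  intro hs0
  have e0 : M 0 0 * x 0 + M 0 1 * x 1 = 0 := congrFun hs0 0
  have e1 : M 1 0 * x 0 + M 1 1 * x 1 = 0 := congrFun hs0 1
  have hx0 : (M 0 0 * M 1 1 - M 0 1 * M 1 0) * x 0 = 0 := by
    linear_combination M 1 1 * e0 - M 0 1 * e1
  have hx1 : (M 0 0 * M 1 1 - M 0 1 * M 1 0) * x 1 = 0 := by
    linear_combination M 0 0 * e1 - M 1 0 * e0
  apply hx
  funext i
  fin_cases i
  · exact (mul_eq_zero.mp hx0).resolve_left hdet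
  · exact (mul_eq_zero.mp hx1).resolve_left hdet

lemma conjVec_ne_zero (d : ℕ) (M : GL (Fin 2) Qbar) (f : Rat d) :
    conjVec d M f.1.rep ≠ 0 := by
  intro h0
  refine conj_no_zero d M f.1.rep f.2 1 one_ne_zero ?_
  rw [h0]
  have e1 : num d 0 = 0 := by simp [num]
  have e2 : den d 0 = 0 := by simp [den]
  rw [e1, e2]
  simp

lemma conj_mem (d : ℕ) (M : GL (Fin 2) Qbar) (f : Rat d) :
    Projectivization.mk Qbar _ (conjVec_ne_zero d M f) ∈ Rat d := by
  obtain ⟨a, ha⟩ := Projectivization.exists_smul_eq_mk_rep Qbar _ (conjVec_ne_zero d M f)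
  have ha' : (Projectivization.mk Qbar _ (conjVec_ne_zero d M f)).rep =
    (a : Qbar) • conjVec d M f.1.rep := ha.symm
  rintro x hx ⟨h1, h2⟩
  rw [ha', num_smul, map_mul, eval_C] at h1
  rw [ha', den_smul, map_mul, eval_C] at h2
  exact conj_no_zero d M f.1.rep f.2 x hx ⟨(mul_eq_zero.mp h1).resolve_left a.ne_zero,
    (mul_eq_zero.mp h2).resolve_left a.ne_zero⟩

lemma isConj_conj (d : ℕ) (M : GL (Fin 2) Qbar) (f : Rat d) :
    IsConj d f.1 (Projectivization.mk Qbar _ (conjVec_ne_zero d M f)) := by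
  obtain ⟨a, ha⟩ := Projectivization.exists_smul_eq_mk_rep Qbar _ (conjVec_ne_zero d M f)
  exact ⟨M, a, a.ne_zero, ha.symm⟩

end Run7.h578.Orb
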