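import Mathlib
import Pool.Agent.Run7.h578.ProjDefs
import Pool.Agent.Run7.h578.RatQ

set_option autoImplicit false

namespace Run7.h578.Orb

open Pool.Agent.Helper259.AbsHt

/-- resultants of padded degree over an algebraically closed field -/
lemma resultant_ne_zero_iff {K : Type*} [Field K] {f g : Polynomial K} {d : ℕ}
    (hd : d ≠ 0) (hf : f.natDegree ≤ d) (hg : g.natDegree ≤ d) :
    Polynomial.resultant f g d d ≠ 0 ↔ (f.coeff d ≠ 0 ∨ g.coeff d ≠ 0) ∧ IsCoprime f g := by
  have main : ∀ {f g : Polynomial K}, f.natDegree ≤ d → g.natDegree ≤ d → f.coeff d ≠ 0 →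
      (Polynomial.resultant f g d d ≠ 0 ↔ IsCoprime f g) := by
    intro f g hf hg hfd
    have h1 : f.natDegree = d := le_antisymm hf (Polynomial.le_natDegree_of_ne_zero hfd)
    have hf0 : f ≠ 0 := by rintro rfl; simp at hfd
    obtain ⟨k, hk⟩ := Nat.exists_eq_add_of_le hg
    have h2 : Polynomial.resultant f g d d =
        f.coeff d ^ k * Polynomial.resultant f g := by
      have := Polynomial.resultant_add_right_deg f g d g.natDegree k le_rfl
      rw [← hk] at this
      rw [this, ← h1]
    rw [h2, mul_ne_zero_iff, Ne, Ne, Polynomial.resultant_eq_zero_iff]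
    constructor
    · rintro ⟨_, h⟩
      by_contra hc
      exact h ⟨Or.inl hf0, hc⟩
    · exact fun h => ⟨pow_ne_zero _ hfd, fun h' => h'.2 h⟩
  by_cases h1 : f.coeff d ≠ 0
  · rw [main hf hg h1]
    exact ⟨fun h => ⟨Or.inl h1, h⟩, fun h => h.2⟩
  · by_cases h2 : g.coeff d ≠ 0
    · rw [Polynomial.resultant_comm]
      have := main hg hf h2
      rw [mul_ne_zero_iff, this, isCoprime_comm]
      exact ⟨fun h => ⟨Or.inr h2, h.2⟩, fun h => ⟨pow_ne_zero _ (by simp), h.2⟩⟩
    · push Not at h1 h2
      have e1 : f.natDegree < d := lt_of_le_of_ne hf fun h => by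
        rw [← h, Polynomial.coeff_natDegree, Polynomial.leadingCoeff_eq_zero] at h1
        rw [h1] at h
        simp at h
        exact hd h.symm
      have e2 : g.natDegree < d := lt_of_le_of_ne hg fun h => by
        rw [← h, Polynomial.coeff_natDegree, Polynomial.leadingCoeff_eq_zero] at h2
        rw [h2] at h
        simp at h
        exact hd h.symm
      simp [Polynomial.resultant_eq_zero_of_lt_lt f g d d e1 e2, h1, h2]

/-- the univariate polynomial with given coefficients -/
noncomputable def uni {R : Type*} [CommRing R] (d : ℕ) (a : Fin (d + 1) → R) : Polynomial R :=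
  ∑ i : Fin (d + 1), Polynomial.C (a i) * Polynomial.X ^ (i : ℕ)

lemma uni_natDegree {R : Type*} [CommRing R] (d : ℕ) (a : Fin (d + 1) → R) :
    (uni d a).natDegree ≤ d := by
  refine Polynomial.natDegree_sum_le_of_forall_le _ _ fun i _ => ?_
  refine (Polynomial.natDegree_C_mul_X_pow_le _ _).trans ?_
  omega

lemma uni_coeff {R : Type*} [CommRing R] (d : ℕ) (a : Fin (d + 1) → R) (k : ℕ) :
    (uni d a).coeff k = if h : k < d + 1 then a ⟨k, h⟩ else 0 := by
  rw [uni, Polynomial.finsetSum_coeff]
  simp only [Polynomial.coeff_C_mul, Polynomial.coeff_X_pow, mul_ite, mul_one, mul_zero]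
  split_ifs with h
  · rw [Finset.sum_eq_single (⟨k, h⟩ : Fin (d + 1))]
    · simp
    · intro b _ hb
      rw [if_neg]
      intro h'
      exact hb (Fin.ext h'.symm)
    · simp
  · apply Finset.sum_eq_zero
    intro b _
    rw [if_neg]
    have := b.2
    omega

lemma uni_map {R S : Type*} [CommRing R] [CommRing S] (φ : R →+* S) (d : ℕ)
    (a : Fin (d + 1) → R) : (uni d a).map φ = uni d (fun i => φ (a i)) := by
  simp [uni, Polynomial.map_sum]

/-- the form with given coefficients -/
noncomputable def frm (d : ℕ) (a : Fin (d + 1) → Qbar) : MvPolynomial (Fin 2) Qbar :=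
  ∑ i : Fin (d + 1), MvPolynomial.C (a i) * MvPolynomial.X 0 ^ (i : ℕ) *
    MvPolynomial.X 1 ^ (d - i)

lemma eval_frm (d : ℕ) (a : Fin (d + 1) → Qbar) (x : Fin 2 → Qbar) :
    MvPolynomial.eval x (frm d a) = ∑ i : Fin (d + 1), a i * x 0 ^ (i : ℕ) * x 1 ^ (d - i) := by
  simp [frm]

lemma eval_frm_one (d : ℕ) (a : Fin (d + 1) → Qbar) (x : Fin 2 → Qbar) (h : x 1 ≠ 0) :
    MvPolynomial.eval x (frm d a) = x 1 ^ d * (uni d a).eval (x 0 / x 1) := by
  rw [eval_frm, uni, Polynomial.eval_finsetSum, Finset.mul_sum]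
  refine Finset.sum_congr rfl fun i _ => ?_
  simp only [Polynomial.eval_mul, Polynomial.eval_C, Polynomial.eval_pow, Polynomial.eval_X,
    div_pow]
  have e : x 1 ^ d = x 1 ^ (i : ℕ) * x 1 ^ (d - i) := by
    rw [← pow_add]
    congr 1
    omega
  rw [e]
  field_simp

lemma eval_frm_zero (d : ℕ) (a : Fin (d + 1) → Qbar) (x : Fin 2 → Qbar) (h : x 1 = 0) :
    MvPolynomial.eval x (frm d a) = (uni d a).coeff d * x 0 ^ d := by
  rw [eval_frm, uni_coeff, dif_pos (Nat.lt_succ_self d),
    Finset.sum_eq_single (⟨d, Nat.lt_succ_self d⟩ : Fin (d + 1))]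
  · simp
  · intro b _ hb
    have : d - (b : ℕ) ≠ 0 := by
      have := b.2
      intro h'
      apply hb
      apply Fin.ext
      simp only
      omega
    rw [h, zero_pow this, mul_zero]
  · simp

lemma no_common_zero_iff (d : ℕ) (hd : d ≠ 0) (a b : Fin (d + 1) → Qbar) :
    (∀ x : Fin 2 → Qbar, x ≠ 0 →
      ¬ (MvPolynomial.eval x (frm d a) = 0 ∧ MvPolynomial.eval x (frm d b) = 0)) ↔
    Polynomial.resultant (uni d a) (uni d b) d d ≠ 0 := by
  rw [resultant_ne_zero_iff hd (uni_natDegree d a) (uni_natDegree d b)]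
  constructor
  · intro h
    constructor
    · by_contra hc
      push Not at hc
      refine h ![1, 0] (by intro h0; have := congrFun h0 0; simp at this) ?_
      rw [eval_frm_zero _ _ _ (by simp), eval_frm_zero _ _ _ (by simp), hc.1, hc.2]
      simp
    · rw [Polynomial.isCoprime_iff_aeval_ne_zero_of_isAlgClosed Qbar Qbar]
      intro t
      by_contra hc
      push Not at hc
      refine h ![t, 1] (by intro h0; have := congrFun h0 1; simp at this) ?_
      rw [eval_frm_one _ _ _ (by simp), eval_frm_one _ _ _ (by simp)]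
      simp only [Polynomial.coe_aeval_eq_eval] at hc
      simp [hc.1, hc.2]
  · rintro ⟨h1, h2⟩ x hx ⟨hxa, hxb⟩
    by_cases hx1 : x 1 = 0
    · have hx0 : x 0 ≠ 0 := by
        intro h0
        apply hx
        funext i
        fin_cases i
        · exact h0
        · exact hx1
      rw [eval_frm_zero _ _ _ hx1] at hxa hxb
      rcases h1 with h1 | h1
      · exact mul_ne_zero h1 (pow_ne_zero _ hx0) hxa
      · exact mul_ne_zero h1 (pow_ne_zero _ hx0) hxb
    · rw [eval_frm_one _ _ _ hx1] at hxa hxb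
      obtain ⟨u, w, huw⟩ := h2
      have := congrArg (Polynomial.eval (x 0 / x 1)) huw
      have e1 := (mul_eq_zero.mp hxa).resolve_left (pow_ne_zero _ hx1)
      have e2 := (mul_eq_zero.mp hxb).resolve_left (pow_ne_zero _ hx1)
      simp [e1, e2] at this

/-- the resultant as a polynomial in the coefficients -/
noncomputable def genRes (d : ℕ) : MvPolynomial (Fin (2 * d + 1 + 1)) Qbar :=
  Polynomial.resultant
    (uni d fun i : Fin (d + 1) => MvPolynomial.X (⟨i, by omega⟩ : Fin (2 * d + 1 + 1)))
    (uni d fun i : Fin (d + 1) => MvPolynomial.X (⟨d + 1 + i, by omega⟩ : Fin (2 * d + 1 + 1)))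
    d d

lemma eval_genRes (d : ℕ) (v : Fin (2 * d + 1 + 1) → Qbar) :
    MvPolynomial.eval v (genRes d) = Polynomial.resultant
      (uni d fun i : Fin (d + 1) => v ⟨i, by omega⟩)
      (uni d fun i : Fin (d + 1) => v ⟨d + 1 + i, by omega⟩) d d := by
  rw [genRes, ← Polynomial.resultant_map_map, uni_map, uni_map]
  have e : ∀ c : Fin (d + 1) → Fin (2 * d + 1 + 1),
      (uni d fun i => MvPolynomial.eval v (MvPolynomial.X (c i))) = uni d fun i => v (c i) := by
    intro c
    congr 1
    funext i
    exact MvPolynomial.eval_X _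
  exact congrArg₂ (fun a b => Polynomial.resultant a b d d) (e _) (e _)

lemma genRes_isHomogeneous (d : ℕ) : (genRes d).IsHomogeneous (d + d) := by
  have hX : ∀ (c : Fin (d + 1) → Fin (2 * d + 1 + 1)) (k : ℕ),
      ((uni d fun i => (MvPolynomial.X (c i) : MvPolynomial (Fin (2 * d + 1 + 1)) Qbar)).coeff
        k).IsHomogeneous 1 := by
    intro c k
    rw [uni_coeff]
    split_ifs
    · exact MvPolynomial.isHomogeneous_X _ _
    · exact MvPolynomial.isHomogeneous_zero _ _ _
  rw [genRes, Polynomial.resultant, Matrix.det_apply]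
  refine MvPolynomial.IsHomogeneous.sum _ _ _ fun σ _ => ?_
  have h1 : (∏ i, (Polynomial.sylvester
      (uni d fun i : Fin (d + 1) => (MvPolynomial.X (⟨i, by omega⟩ : Fin (2 * d + 1 + 1)) :
        MvPolynomial (Fin (2 * d + 1 + 1)) Qbar))
      (uni d fun i : Fin (d + 1) => (MvPolynomial.X (⟨d + 1 + i, by omega⟩ :
        Fin (2 * d + 1 + 1)) : MvPolynomial (Fin (2 * d + 1 + 1)) Qbar)) d d)
        (σ i) i).IsHomogeneous (∑ _i : Fin (d + d), 1) := by
    refine MvPolynomial.IsHomogeneous.prod _ _ _ fun i _ => ?_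
    simp only [Polynomial.sylvester, Matrix.of_apply]
    refine Fin.addCases (fun j => ?_) (fun j => ?_) i
    · simp only [Fin.addCases_left]
      split_ifs
      · exact hX _ _
      · exact MvPolynomial.isHomogeneous_zero _ _ _
    · simp only [Fin.addCases_right]
      split_ifs
      · exact hX _ _
      · exact MvPolynomial.isHomogeneous_zero _ _ _
  simp only [Finset.sum_const, Finset.card_univ, Fintype.card_fin, smul_eq_mul, mul_one] at h1
  rcases Int.units_eq_one_or (Equiv.Perm.sign σ) with h | h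
  · rw [h, one_smul]
    exact h1
  · rw [h, Units.neg_smul, one_smul]
    exact h1.neg

theorem rat_isQuasiProjective (d : ℕ) (hd : d ≠ 0) : IsQuasiProjective (Rat d) := by
  refine ⟨∅, {genRes d}, ?_, ?_⟩
  · rintro F (h | h)
    · exact absurd h (Set.notMem_empty _)
    · rw [Set.mem_singleton_iff.mp h]
      exact ⟨_, genRes_isHomogeneous d⟩
  · ext p
    have h1 := no_common_zero_iff d hd (fun i => p.rep ⟨i, by omega⟩)
      (fun i => p.rep ⟨d + 1 + i, by omega⟩)
    rw [← eval_genRes] at h1
    simp only [Set.mem_empty_iff_false, false_implies, implies_true, true_and,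
      Set.mem_singleton_iff, exists_eq_left, Set.mem_ofPred_eq]
    exact h1

end Run7.h578.Orb
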