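import Pool.Agent.Run7.h578.YE8b

/-!
# E8: the length of the nodal set on a closed surface, from E7, Z6, G1, G2 and the absence of small
eigenvalues
-/

set_option autoImplicit false
open MeasureTheory Filter Topology Complex Metric
open scoped ContDiff ENNReal NNReal

namespace Run7.h578.E8

open Pool.Agent.Q73.NL (lap)
open Pool.Agent.Q73.AD Run7.h341.NLen

universe u v

/-- the eigenvalues of nontrivial eigenfunctions are bounded from below -/
def Small : Prop := ∀ (M : Type u) (ι : Type v) [MetricSpace M] [CompactSpace M] [ConnectedSpace M]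
  (U : ι → Set ℂ) (φ : ι → ℂ → M) (ρ : ι → ℂ → ℝ), Atl U φ ρ → (∀ i, ∀ z ∈ U i, 0 < ρ i z) →
  ∃ lam₁ : ℝ, 0 < lam₁ ∧ ∀ (lam : ℝ) (f : M → ℝ), 0 < lam → Eig U φ ρ lam f → (∃ x, f x ≠ 0) →
    lam₁ ≤ lam

/-- E8 -/
theorem te8 (h7 : E7) (h6 : Z6) (h1 : G1.{u, v}) (h2 : G2.{u, v}) (hS : Small.{u, v}) : E8.{u, v} := by
  classical
  intro M ι _ _ _ _ _ U φ ρ hA hρ hρs
  obtain ⟨n, i, z, R, c, L, δ, hG, hcov⟩ := h2 M ι U φ ρ hA
  obtain ⟨lam₁, hlam₁, hsmall⟩ := hS M ι U φ ρ hA hρ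
  have hρ0 : ∀ a, ∀ w ∈ U (i a), 0 ≤ ρ (i a) w := fun a w hw => (hρ (i a) w hw).le
  choose r₀ hr₀ h3 using fun a => w5 h7 h6 M (φ (i a)) (ρ (i a)) (U (i a)) (z a) (R a) c L δ (hG a)
    (hρ0 a) (hρs (i a))
  choose Cg hCg hgr using fun a => h1 M ι U φ ρ hA (r₀ a) (hr₀ a)
  choose A hA0 lam₀ hlam₀ hfin using fun a => h3 a (Cg a) (hCg a)
  obtain ⟨Λ, hΛ⟩ : ∃ Λ : ℝ, Λ = 1 + ∑ a, lam₀ a := ⟨_, rfl⟩
  have hΛ0 : 0 < Λ := by
    rw [hΛ]
    have := Finset.sum_nonneg fun a (_ : a ∈ Finset.univ) => (hlam₀ a).le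
    linarith
  choose r₁ hr₁ h4 using fun a => w6 h7 M (φ (i a)) (ρ (i a)) (U (i a)) (z a) (R a) c L δ Λ (hG a)
    (hρ0 a) (hρs (i a)) hΛ0
  choose Cg' hCg' hgr' using fun a => h1 M ι U φ ρ hA (r₁ a) (hr₁ a)
  choose B hB0 hfin' using fun a => h4 a (Cg' a) (hCg' a)
  have hAs : 0 ≤ ∑ a, A a := Finset.sum_nonneg fun a _ => (hA0 a).le
  have hBs : 0 ≤ ∑ a, B a := Finset.sum_nonneg fun a _ => hB0 a
  have hsl₁ : 0 < √lam₁ := Real.sqrt_pos.2 hlam₁
  refine ⟨∑ a, A a + (∑ a, B a) / √lam₁, ?_⟩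
  intro lam f hlam hf hne
  have hb : BddAbove ((fun x => |f x|) '' Set.univ) :=
    isCompact_univ.bddAbove_image (TG4.cont hA hf).abs.continuousOn
  have hpos : ∀ (x : M) (r : ℝ), 0 < r → 0 < sn f (ball x r) := by
    intro x r hr
    obtain ⟨Cr, -, hgrr⟩ := h1 M ι U φ ρ hA r hr
    obtain ⟨x₀, hx₀⟩ := hne
    have h4 := (abs_pos.2 hx₀).trans_le ((TG4.le_sn hb x₀).trans (hgrr lam f hlam.le hf x))
    exact (mul_pos_iff_of_pos_left (Real.exp_pos _)).1 h4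
  have hsl : 0 < √lam := Real.sqrt_pos.2 hlam
  have hunion : {x : M | f x = 0} ⊆ ⋃ a, {x | f x = 0 ∧ x ∈ φ (i a) '' closedBall (z a) (R a)} := by
    intro x hx
    obtain ⟨a, ha⟩ := hcov x
    exact Set.mem_iUnion.2 ⟨a, hx, ha⟩
  have hle : μH[1] {x : M | f x = 0} ≤ ∑ a, μH[1] {x | f x = 0 ∧ x ∈ φ (i a) '' closedBall (z a) (R a)} :=
    (measure_mono hunion).trans (measure_iUnion_fintype_le _ _)
  refine hle.trans ?_
  rcases le_or_gt Λ lam with hcase | hcase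
  · -- large eigenvalues
    have hpart : ∀ a, μH[1] {x | f x = 0 ∧ x ∈ φ (i a) '' closedBall (z a) (R a)} ≤
        ENNReal.ofReal (A a * √lam) := by
      intro a
      refine hfin a lam f ?_ (hf (i a)).1 (hf (i a)).2 hb hpos (fun x => hgr a lam f hlam.le hf x)
      refine le_trans ?_ hcase
      rw [hΛ]
      exact TG4.le_sum_of lam₀ hlam₀ a
    refine (Finset.sum_le_sum fun a _ => hpart a).trans ?_
    rw [← ENNReal.ofReal_sum_of_nonneg fun a _ => by have := hA0 a; positivity]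
    refine ENNReal.ofReal_le_ofReal ?_
    rw [← Finset.sum_mul]
    have : 0 ≤ (∑ a, B a) / √lam₁ := by positivity
    gcongr
    linarith
  · -- bounded eigenvalues
    have hpart : ∀ a, μH[1] {x | f x = 0 ∧ x ∈ φ (i a) '' closedBall (z a) (R a)} ≤
        ENNReal.ofReal (B a) := by
      intro a
      exact hfin' a lam f hlam hcase.le (hf (i a)).1 (hf (i a)).2 hb hpos
        (fun x => hgr' a lam f hlam.le hf x)
    refine (Finset.sum_le_sum fun a _ => hpart a).trans ?_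
    rw [← ENNReal.ofReal_sum_of_nonneg fun a _ => hB0 a]
    refine ENNReal.ofReal_le_ofReal ?_
    have h5 : √lam₁ ≤ √lam := Real.sqrt_le_sqrt (hsmall lam f hlam hf hne)
    calc ∑ a, B a = (∑ a, B a) / √lam₁ * √lam₁ := by field_simp
      _ ≤ (∑ a, B a) / √lam₁ * √lam := by gcongr
      _ ≤ (∑ a, A a + (∑ a, B a) / √lam₁) * √lam := by
          gcongr
          linarith

end Run7.h578.E8
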