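import Pool.Agent.Run7.h578.YSm

/-!
# There are no small eigenvalues on a closed surface: the global part
-/

set_option autoImplicit false
open MeasureTheory Filter Topology Complex Metric
open scoped ContDiff ENNReal NNReal

namespace Run7.h578.E8

open Pool.Agent.Q73.NL (lap)
open Pool.Agent.Q73.AD Run7.h341.NLen

universe u v

section

variable {M : Type u} {ι : Type v} [MetricSpace M] {U : ι → Set ℂ} {φ : ι → ℂ → M} {ρ : ι → ℂ → ℝ}

/-- the local Harnack inequality on the surface -/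
lemma local_M (h5 : C5) (hA : Atl U φ ρ) (x : M) : ∃ (O : Set M) (C : ℝ), IsOpen O ∧ x ∈ O ∧ 1 ≤ C ∧
    ∀ (lam : ℝ) (f : M → ℝ), 0 < lam → Eig U φ ρ lam f → (∀ y, |f y| ≤ 1) → ∀ y ∈ O, ∀ y' ∈ O,
      1 - f y' ≤ C * (1 - f y + lam) := by
  obtain ⟨i, z, hz, rfl⟩ := hA.cover x
  obtain ⟨r₁, hr₁, hr₁U⟩ := Metric.isOpen_iff.1 (hA.dom i) z hz
  set R : ℝ := r₁ / 2 with hR
  have hR0 : 0 < R := by rw [hR]; linarith
  have hcb : closedBall z R ⊆ U i := (closedBall_subset_ball (by rw [hR]; linarith)).trans hr₁U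
  have hbU : ball z R ⊆ U i := ball_subset_closedBall.trans hcb
  obtain ⟨L, hL1, hLρ⟩ : ∃ L : ℝ, 1 ≤ L ∧ (∀ y ∈ closedBall z R, |ρ i y| ≤ L) := by
    have hc1 : ContinuousOn (ρ i) (closedBall z R) := (hA.dens i).continuousOn.mono hcb
    obtain ⟨B1, hB1⟩ := (isCompact_closedBall z R).exists_bound_of_continuousOn hc1
    exact ⟨max 1 B1, le_max_left _ _, fun y hy => (hB1 y hy).trans (le_max_right _ _)⟩
  have hC0 : 1 ≤ 1 + 4 * Real.exp 4 := by
    have := Real.exp_pos 4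
    linarith
  refine ⟨φ i '' ball z (R / 8), (1 + 4 * Real.exp 4) * (1 + L * R ^ 2 / 4),
    hA.opn i _ isOpen_ball ((ball_subset_ball (by linarith)).trans hbU),
    ⟨z, mem_ball_self (by positivity), rfl⟩, ?_, ?_⟩
  · have h1 : 0 ≤ L * R ^ 2 / 4 := by positivity
    nlinarith
  rintro lam f hlam hf hf1 _ ⟨y, hy, rfl⟩ _ ⟨y', hy', rfl⟩
  have hcdf : ∀ x ∈ ball z R, ContDiffAt ℝ 2 (fun x => f (φ i x)) x := fun x hx =>
    ((((hf i).1 x (hbU hx)).contDiffAt ((hA.dom i).mem_nhds (hbU hx)))).of_le (by norm_cast)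
  have hH := harnack h5 (v := fun x => 1 - f (φ i x)) (z := z) (R := R) (κ := lam * L) hR0 (by positivity)
    (by
      intro x hx
      have h1 := hcdf x hx
      refine ⟨contDiffAt_const.sub h1, ?_, ?_, ?_⟩
      · rw [Pool.Agent.Q73.NL.lap_sub contDiffAt_const h1, lap_const]
        have h2 := (hf i).2 x (hbU hx)
        have h3 : lap (fun z => f (φ i z)) x = -(lam * ρ i x * f (φ i x)) := by linarith
        rw [h3, zero_sub, neg_neg, abs_mul, abs_mul, abs_of_pos hlam]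
        have h4 := hLρ x (ball_subset_closedBall hx)
        have h5 := hf1 (φ i x)
        have h6 : |ρ i x| * |f (φ i x)| ≤ L * 1 := by gcongr
        calc lam * |ρ i x| * |f (φ i x)| = lam * (|ρ i x| * |f (φ i x)|) := by ring
          _ ≤ lam * (L * 1) := by gcongr
          _ = lam * L := by ring
      · have := (abs_le.1 (hf1 (φ i x))).2
        linarith
      · have := (abs_le.1 (hf1 (φ i x))).1
        linarith) hy hy'
  refine hH.trans ?_
  have hfy : 0 ≤ 1 - f (φ i y) := by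
    have := (abs_le.1 (hf1 (φ i y))).2
    linarith
  have hLR : 0 ≤ L * R ^ 2 / 4 := by positivity
  have key : 1 - f (φ i y) + lam * L * R ^ 2 / 4 ≤ (1 + L * R ^ 2 / 4) * (1 - f (φ i y) + lam) := by
    have e : lam * L * R ^ 2 / 4 = L * R ^ 2 / 4 * lam := by ring
    rw [e]
    nlinarith [mul_nonneg hLR hfy]
  calc (1 + 4 * Real.exp 4) * (1 - f (φ i y) + lam * L * R ^ 2 / 4)
      ≤ (1 + 4 * Real.exp 4) * ((1 + L * R ^ 2 / 4) * (1 - f (φ i y) + lam)) :=
        mul_le_mul_of_nonneg_left key (zero_le_one.trans hC0)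
    _ = (1 + 4 * Real.exp 4) * (1 + L * R ^ 2 / 4) * (1 - f (φ i y) + lam) := by ring

/-- the Harnack inequality from a point to a point -/
lemma chain_pt [ConnectedSpace M] (h5 : C5) (hA : Atl U φ ρ) (x y : M) : ∃ C : ℝ, 1 ≤ C ∧
    ∀ (lam : ℝ) (f : M → ℝ), 0 < lam → Eig U φ ρ lam f → (∀ y, |f y| ≤ 1) →
      1 - f y ≤ C * (1 - f x + lam) := by
  set S : Set M := {y | ∃ C : ℝ, 1 ≤ C ∧ ∀ (lam : ℝ) (f : M → ℝ), 0 < lam → Eig U φ ρ lam f →
    (∀ y, |f y| ≤ 1) → 1 - f y ≤ C * (1 - f x + lam)} with hS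
  have hstep : ∀ y : M, ∃ O : Set M, IsOpen O ∧ y ∈ O ∧ ((O ∩ S).Nonempty → O ⊆ S) := by
    intro y
    obtain ⟨O, C, hO, hyO, hC, H⟩ := local_M h5 hA y
    refine ⟨O, hO, hyO, ?_⟩
    rintro ⟨w, hwO, C', hC', hw⟩ w' hw'
    refine ⟨C * (C' + 1), by nlinarith, ?_⟩
    intro lam f hlam hf hf1
    have h1 := H lam f hlam hf hf1 w hwO w' hw'
    have h2 := hw lam f hlam hf hf1
    have h3 : 0 ≤ 1 - f x := by
      have := (abs_le.1 (hf1 x)).2
      linarith
    calc 1 - f w' ≤ C * (1 - f w + lam) := h1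
      _ ≤ C * (C' * (1 - f x + lam) + (1 - f x + lam)) := by
          gcongr
          linarith
      _ = C * (C' + 1) * (1 - f x + lam) := by ring
  have hopen : IsOpen S := by
    rw [isOpen_iff_mem_nhds]
    intro y hy
    obtain ⟨O, hO, hyO, h⟩ := hstep y
    exact mem_of_superset (hO.mem_nhds hyO) (h ⟨y, hyO, hy⟩)
  have hclosed : IsClosed S := by
    rw [← isOpen_compl_iff, isOpen_iff_mem_nhds]
    intro y hy
    obtain ⟨O, hO, hyO, h⟩ := hstep y
    refine mem_of_superset (hO.mem_nhds hyO) fun w hw hwS => hy (h ⟨w, hw, hwS⟩ hyO)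
  have hx : x ∈ S := by
    refine ⟨1, le_rfl, fun lam f hlam _ _ => ?_⟩
    linarith
  have huniv : S = Set.univ := IsClopen.eq_univ ⟨hclosed, hopen⟩ ⟨x, hx⟩
  have : y ∈ S := by rw [huniv]; trivial
  exact this

/-- the Harnack inequality on the surface -/
lemma chain_all [CompactSpace M] [ConnectedSpace M] (h5 : C5) (hA : Atl U φ ρ) : ∃ C : ℝ, 1 ≤ C ∧
    ∀ (lam : ℝ) (f : M → ℝ), 0 < lam → Eig U φ ρ lam f → (∀ y, |f y| ≤ 1) → ∀ x y : M,
      1 - f y ≤ C * (1 - f x + lam) := by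
  obtain ⟨x₀⟩ : Nonempty M := inferInstance
  -- from `x₀` to all points
  have h1 : ∃ C : ℝ, 1 ≤ C ∧ ∀ y ∈ (Set.univ : Set M), ∀ (lam : ℝ) (f : M → ℝ), 0 < lam →
      Eig U φ ρ lam f → (∀ y, |f y| ≤ 1) → 1 - f y ≤ C * (1 - f x₀ + lam) := by
    refine isCompact_univ.induction_on (p := fun S => ∃ C : ℝ, 1 ≤ C ∧ ∀ y ∈ S, ∀ (lam : ℝ) (f : M → ℝ),
      0 < lam → Eig U φ ρ lam f → (∀ y, |f y| ≤ 1) → 1 - f y ≤ C * (1 - f x₀ + lam)) ?_ ?_ ?_ ?_
    · exact ⟨1, le_rfl, fun y hy => hy.elim⟩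
    · rintro s t hst ⟨C, hC, h⟩
      exact ⟨C, hC, fun y hy => h y (hst hy)⟩
    · rintro s t ⟨C, hC, h⟩ ⟨C', hC', h'⟩
      refine ⟨max C C', le_max_of_le_left hC, ?_⟩
      intro y hy lam f hlam hf hf1
      have h3 : 0 ≤ 1 - f x₀ := by
        have := (abs_le.1 (hf1 x₀)).2
        linarith
      rcases hy with hy | hy
      · exact (h y hy lam f hlam hf hf1).trans (mul_le_mul_of_nonneg_right (le_max_left _ _) (by linarith))
      · exact (h' y hy lam f hlam hf hf1).trans (mul_le_mul_of_nonneg_right (le_max_right _ _) (by linarith))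
    · intro y _
      obtain ⟨O, C, hO, hyO, hC, H⟩ := local_M h5 hA y
      obtain ⟨C', hC', H'⟩ := chain_pt h5 hA x₀ y
      refine ⟨O, mem_nhdsWithin_of_mem_nhds (hO.mem_nhds hyO), C * (C' + 1), by nlinarith, ?_⟩
      intro w hw lam f hlam hf hf1
      have h1 := H lam f hlam hf hf1 y hyO w hw
      have h2 := H' lam f hlam hf hf1
      have h3 : 0 ≤ 1 - f x₀ := by
        have := (abs_le.1 (hf1 x₀)).2
        linarith
      calc 1 - f w ≤ C * (1 - f y + lam) := h1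
        _ ≤ C * (C' * (1 - f x₀ + lam) + (1 - f x₀ + lam)) := by
            gcongr
            linarith
        _ = C * (C' + 1) * (1 - f x₀ + lam) := by ring
  -- from all points to `x₀`
  have h2 : ∃ C : ℝ, 1 ≤ C ∧ ∀ y ∈ (Set.univ : Set M), ∀ (lam : ℝ) (f : M → ℝ), 0 < lam →
      Eig U φ ρ lam f → (∀ y, |f y| ≤ 1) → 1 - f x₀ ≤ C * (1 - f y + lam) := by
    refine isCompact_univ.induction_on (p := fun S => ∃ C : ℝ, 1 ≤ C ∧ ∀ y ∈ S, ∀ (lam : ℝ) (f : M → ℝ),
      0 < lam → Eig U φ ρ lam f → (∀ y, |f y| ≤ 1) → 1 - f x₀ ≤ C * (1 - f y + lam)) ?_ ?_ ?_ ?_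
    · exact ⟨1, le_rfl, fun y hy => hy.elim⟩
    · rintro s t hst ⟨C, hC, h⟩
      exact ⟨C, hC, fun y hy => h y (hst hy)⟩
    · rintro s t ⟨C, hC, h⟩ ⟨C', hC', h'⟩
      refine ⟨max C C', le_max_of_le_left hC, ?_⟩
      intro y hy lam f hlam hf hf1
      have h3 : 0 ≤ 1 - f y := by
        have := (abs_le.1 (hf1 y)).2
        linarith
      rcases hy with hy | hy
      · exact (h y hy lam f hlam hf hf1).trans (mul_le_mul_of_nonneg_right (le_max_left _ _) (by linarith))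
      · exact (h' y hy lam f hlam hf hf1).trans (mul_le_mul_of_nonneg_right (le_max_right _ _) (by linarith))
    · intro y _
      obtain ⟨O, C, hO, hyO, hC, H⟩ := local_M h5 hA y
      obtain ⟨C', hC', H'⟩ := chain_pt h5 hA y x₀
      refine ⟨O, mem_nhdsWithin_of_mem_nhds (hO.mem_nhds hyO), C' * (C + 1), by nlinarith, ?_⟩
      intro w hw lam f hlam hf hf1
      have h1 := H lam f hlam hf hf1 w hw y hyO
      have h2 := H' lam f hlam hf hf1
      have h3 : 0 ≤ 1 - f w := by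
        have := (abs_le.1 (hf1 w)).2
        linarith
      calc 1 - f x₀ ≤ C' * (1 - f y + lam) := h2
        _ ≤ C' * (C * (1 - f w + lam) + (1 - f w + lam)) := by
            gcongr
            linarith
        _ = C' * (C + 1) * (1 - f w + lam) := by ring
  obtain ⟨C, hC, H⟩ := h1
  obtain ⟨C', hC', H'⟩ := h2
  refine ⟨C * (C' + 1), by nlinarith, ?_⟩
  intro lam f hlam hf hf1 x y
  have h1 := H y trivial lam f hlam hf hf1
  have h2 := H' x trivial lam f hlam hf hf1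
  have h3 : 0 ≤ 1 - f x := by
    have := (abs_le.1 (hf1 x)).2
    linarith
  calc 1 - f y ≤ C * (1 - f x₀ + lam) := h1
    _ ≤ C * (C' * (1 - f x + lam) + (1 - f x + lam)) := by
        gcongr
        linarith
    _ = C * (C' + 1) * (1 - f x + lam) := by ring

end

/-- there are no small eigenvalues -/
theorem small (h5 : C5) : Small.{u, v} := by
  intro M ι _ _ _ U φ ρ hA hρ
  obtain ⟨C, hC, H⟩ := chain_all h5 hA
  refine ⟨1 / (2 * C), by positivity, ?_⟩
  intro lam f hlam hf hne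
  by_contra hcon
  rw [not_le] at hcon
  have hcont : Continuous f := TG4.cont hA hf
  have hneM : (Set.univ : Set M).Nonempty := Set.univ_nonempty
  obtain ⟨x₀, -, hx₀⟩ := isCompact_univ.exists_isMaxOn hneM hcont.abs.continuousOn
  have hmax : ∀ y, |f y| ≤ |f x₀| := fun y => hx₀ (Set.mem_univ y)
  have hx₀0 : 0 < |f x₀| := by
    obtain ⟨w, hw⟩ := hne
    exact (abs_pos.2 hw).trans_le (hmax w)
  have hfx : f x₀ ≠ 0 := abs_pos.1 hx₀0
  set g : M → ℝ := fun y => (f x₀)⁻¹ * f y with hg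
  have hgE : Eig U φ ρ lam g := by
    intro i
    refine ⟨contDiffOn_const.mul (hf i).1, ?_⟩
    intro z hz
    have h1 := (hf i).2 z hz
    have h2 : lap (fun z => g (φ i z)) z = (f x₀)⁻¹ * lap (fun z => f (φ i z)) z := by
      rw [hg]
      exact lap_const_mul' _ _ _
    rw [h2, hg]
    have e : (f x₀)⁻¹ * lap (fun z => f (φ i z)) z + lam * ρ i z * ((f x₀)⁻¹ * f (φ i z)) =
      (f x₀)⁻¹ * (lap (fun z => f (φ i z)) z + lam * ρ i z * f (φ i z)) := by ring
    simp only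
    rw [e, h1, mul_zero]
  have hg1 : ∀ y, |g y| ≤ 1 := by
    intro y
    rw [hg]
    simp only
    rw [abs_mul, abs_inv, inv_mul_le_iff₀ hx₀0, mul_one]
    exact hmax y
  have hgx : g x₀ = 1 := by
    rw [hg]
    exact inv_mul_cancel₀ hfx
  have hpos : ∀ y, 0 < g y := by
    intro y
    have h1 := H lam g hlam hgE hg1 x₀ y
    rw [hgx, sub_self, zero_add] at h1
    have h2 : C * lam < 1 / 2 := by
      rw [lt_div_iff₀ (by positivity)] at hcon
      linarith
    linarith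
  have hgc : Continuous g := TG4.cont hA hgE
  obtain ⟨x₁, -, hx₁⟩ := isCompact_univ.exists_isMinOn hneM hgc.continuousOn
  obtain ⟨i, z, hz, rfl⟩ := hA.cover x₁
  have hcd : ContDiffAt ℝ 2 (fun z => g (φ i z)) z :=
    (((hgE i).1 z hz).contDiffAt ((hA.dom i).mem_nhds hz)).of_le (by norm_cast)
  have hmin : IsLocalMin (fun z => g (φ i z)) z := Eventually.of_forall fun w => hx₁ (Set.mem_univ _)
  have h1 := lap_nonneg_of_localMin hcd hmin
  have h2 := (hgE i).2 z hz
  have h3 : 0 < lam * ρ i z * g (φ i z) := by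
    have := hρ i z hz
    have := hpos (φ i z)
    positivity
  linarith

end Run7.h578.E8
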