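import Pool.Agent.Run7.h578.YE10
import Pool.Agent.Run7.h578.YSm2
import Pool.Agent.Q73.AD.Fin
import Pool.Agent.Q73.NL.T10
import Pool.Agent.Q73.NL.U

/-!
# E10 and E8 with all inputs
-/

set_option autoImplicit false

namespace Run7.h578.E10

open Pool.Agent.Q73.NL Pool.Agent.Q73.AD Run7.h341.NLen Run7.h578.E8

universe v w

/-- the lower bound -/
theorem te10 : E10.{v, w} := te10' t10 t6f u3 fin_g1.{v, w} tg2.{v, w}

/-- the upper bound, from E7 -/
theorem te8f (h7 : E7) : E8.{v, w} :=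
  te8 h7 fin_z6 fin_g1.{v, w} tg2.{v, w} (small.{v, w} fin_c5)

end Run7.h578.E10
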