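import Mathlib

/-!
The circle `ℝ / 2ℤ` as a smooth manifold modelled on the half line, and a criterion for the
regularity of its self-maps in terms of lifts to the real line.
-/

set_option autoImplicit false

open Set Filter Topology
open scoped Manifold ContDiff

noncomputable section

namespace Run7.h578.Det

instance fact2 : Fact ((0 : ℝ) < 2) := ⟨by norm_num⟩

/-- The circle of length two. -/
abbrev C : Type := AddCircle (2 : ℝ)

/-- The interval `(a, ∞)` as an open piece of the half line. -/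
def emb (a : ℝ) : OpenPartialHomeomorph ℝ (EuclideanHalfSpace 1) where
  toFun t := ⟨WithLp.toLp 2 (fun _ => max (t - a) 0), le_max_right _ _⟩
  invFun z := z.1 0 + a
  source := Ioi a
  target := {z | 0 < z.1 0}
  map_source' t ht := by
    simp only [mem_Ioi] at ht
    simp [ht]
  map_target' z hz := by
    simp only [mem_ofPred_eq] at hz
    simp only [mem_Ioi]
    linarith
  left_inv' t ht := by
    simp only [mem_Ioi] at ht
    simp [max_eq_left (sub_nonneg.2 ht.le)]
  right_inv' z hz := by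
    simp only [mem_ofPred_eq] at hz
    apply Subtype.ext
    ext i
    rw [Subsingleton.elim i 0]
    simp [hz.le]
  open_source := isOpen_Ioi
  open_target := by
    have h1 : IsOpen {z : EuclideanSpace ℝ (Fin 1) | 0 < z 0} :=
      isOpen_Ioi.preimage (PiLp.continuous_apply 2 (fun _ : Fin 1 => ℝ) 0)
    exact h1.preimage continuous_subtype_val
  continuousOn_toFun := by fun_prop
  continuousOn_invFun := by fun_prop

/-- The chart of the circle that omits the class of `a`. -/
def chart (a : ℝ) : OpenPartialHomeomorph C (EuclideanHalfSpace 1) :=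
  (AddCircle.openPartialHomeomorphCoe (2 : ℝ) a).symm.trans (emb a)

lemma chart_apply (a : ℝ) (x : C) :
    (chart a x).1 =
      WithLp.toLp 2 (fun _ => max ((AddCircle.equivIco (2 : ℝ) a x : ℝ) - a) 0) := rfl

lemma chart_symm_apply (a : ℝ) (z : EuclideanHalfSpace 1) :
    (chart a).symm z = ((z.1 0 + a : ℝ) : C) := rfl

lemma mem_chart_source {a : ℝ} {x : C} : x ∈ (chart a).source ↔ x ≠ (a : C) := by
  constructor
  · intro h
    have := h.1
    simpa using this
  · intro h
    refine ⟨by simpa using h, ?_⟩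
    have h2 : (AddCircle.openPartialHomeomorphCoe (2 : ℝ) a).symm x ∈ Ioo a (a + 2) :=
      (AddCircle.openPartialHomeomorphCoe (2 : ℝ) a).symm.map_source (by simpa using h)
    exact h2.1

lemma mem_chart_target {a : ℝ} {z : EuclideanHalfSpace 1} (hz : z ∈ (chart a).target) :
    0 < z.1 0 ∧ z.1 0 < 2 := by
  have h1 : 0 < z.1 0 := hz.1
  have h2 : (emb a).symm z ∈ Ioo a (a + 2) := hz.2
  have h3 : (emb a).symm z = z.1 0 + a := rfl
  rw [h3] at h2
  exact ⟨h1, by linarith [h2.2]⟩

instance chartedC : ChartedSpace (EuclideanHalfSpace 1) C where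
  atlas := range chart
  chartAt x := chart (Quotient.out x - 1)
  mem_chart_source x := by
    rw [mem_chart_source]
    intro h
    have hx : ((Quotient.out x : ℝ) : C) = x := Quotient.out_eq' x
    have h3 : (((Quotient.out x : ℝ) - 1 : ℝ) : C) = ((Quotient.out x : ℝ) : C) := by
      rw [hx]; exact h.symm
    have h4 : ((1 : ℝ) : C) = 0 := by
      rw [AddCircle.coe_sub] at h3
      simpa using h3
    rw [AddCircle.coe_eq_zero_iff] at h4
    obtain ⟨n, hn⟩ := h4
    have h5 : ((2 * n : ℤ) : ℝ) = ((1 : ℤ) : ℝ) := by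
      push_cast
      simpa [mul_comm] using hn
    have h6 : 2 * n = 1 := by exact_mod_cast h5
    omega
  chart_mem_atlas x := mem_range_self _

/-- Local lifts differ by a constant. -/
lemma lift_eventually {F : ℝ → ℝ} {t₀ b : ℝ} (hF : ContinuousAt F t₀)
    (hb : ((F t₀ : ℝ) : C) ≠ (b : C)) :
    ∃ c : ℝ, b < F t₀ + c ∧ ∀ᶠ t in 𝓝 t₀, (AddCircle.equivIco (2 : ℝ) b ((F t : ℝ) : C) : ℝ) = F t + c
      ∧ b < F t + c := by
  set c : ℝ := (AddCircle.equivIco (2 : ℝ) b ((F t₀ : ℝ) : C) : ℝ) - F t₀ with hc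
  have hcz : ((c : ℝ) : C) = 0 := by
    have : (((AddCircle.equivIco (2 : ℝ) b ((F t₀ : ℝ) : C) : ℝ)) : C) = ((F t₀ : ℝ) : C) :=
      (AddCircle.equivIco (2 : ℝ) b).symm_apply_apply _
    rw [hc, AddCircle.coe_sub, this, sub_self]
  have hmem : F t₀ + c ∈ Ioo b (b + 2) := by
    have h1 := (AddCircle.equivIco (2 : ℝ) b ((F t₀ : ℝ) : C)).2
    have h2 : F t₀ + c = (AddCircle.equivIco (2 : ℝ) b ((F t₀ : ℝ) : C) : ℝ) := by
      rw [hc]; ring
    rw [h2]
    refine ⟨lt_of_le_of_ne h1.1 ?_, h1.2⟩
    intro h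
    apply hb
    have : (((AddCircle.equivIco (2 : ℝ) b ((F t₀ : ℝ) : C) : ℝ)) : C) = ((F t₀ : ℝ) : C) :=
      (AddCircle.equivIco (2 : ℝ) b).symm_apply_apply _
    rw [← this, ← h]
  refine ⟨c, hmem.1, ?_⟩
  have hcont : ContinuousAt (fun t => F t + c) t₀ := hF.add continuousAt_const
  filter_upwards [hcont.eventually (isOpen_Ioo.mem_nhds hmem)] with t ht
  refine ⟨?_, ht.1⟩
  have h1 : ((F t : ℝ) : C) = ((F t + c : ℝ) : C) := by
    rw [AddCircle.coe_add, hcz, add_zero]
  rw [h1]
  have h2 := (AddCircle.equivIco (2 : ℝ) b).apply_symm_apply ⟨F t + c, Ioo_subset_Ico_self ht⟩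
  exact congrArg Subtype.val h2

/-- The regularity of a self-map of the circle in charts, from a lift. -/
lemma contDiffAt_chart {n : WithTop ℕ∞} {F : ℝ → ℝ} {f : C → C}
    (hfF : ∀ t : ℝ, f (t : C) = ((F t : ℝ) : C)) {a b : ℝ} {z : EuclideanSpace ℝ (Fin 1)}
    (hz : 0 < z 0) (hF : ContDiffAt ℝ n F (z 0 + a)) (hb : ((F (z 0 + a) : ℝ) : C) ≠ (b : C)) :
    ContDiffAt ℝ n (fun w => ((chart b) (f ((chart a).symm
      ((modelWithCornersEuclideanHalfSpace 1).symm w)))).1) z := by
  obtain ⟨c, -, hc⟩ := lift_eventually hF.continuousAt hb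
  have hcoord : ContinuousAt (fun w : EuclideanSpace ℝ (Fin 1) => w 0 + a) z := by fun_prop
  have hev := hcoord.eventually hc
  have hpos : ∀ᶠ w : EuclideanSpace ℝ (Fin 1) in 𝓝 z, 0 < w 0 := by
    have : ContinuousAt (fun w : EuclideanSpace ℝ (Fin 1) => w 0) z := by fun_prop
    exact this.eventually (isOpen_Ioi.mem_nhds hz)
  have hsm : ContDiffAt ℝ n (fun w : EuclideanSpace ℝ (Fin 1) =>
      (WithLp.toLp 2 (fun _ : Fin 1 => F (w 0 + a) + c - b) : EuclideanSpace ℝ (Fin 1))) z := by
    rw [contDiffAt_euclidean]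
    intro i
    have h1 : ContDiffAt ℝ n (fun w : EuclideanSpace ℝ (Fin 1) => w 0 + a) z := by fun_prop
    have h2 : ContDiffAt ℝ n (fun w : EuclideanSpace ℝ (Fin 1) => F (w 0 + a)) z :=
      ContDiffAt.comp z hF h1
    exact (h2.add contDiffAt_const).sub contDiffAt_const
  refine hsm.congr_of_eventuallyEq ?_
  filter_upwards [hev, hpos] with w hw hw0
  rw [chart_symm_apply]
  have h1 : (((modelWithCornersEuclideanHalfSpace 1).symm w).1 0) = w 0 := by
    rw [modelWithCornersEuclideanHalfSpace_symm_apply]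
    simp [hw0.le]
  rw [h1, hfF, chart_apply, hw.1]
  congr 1
  funext _
  rw [max_eq_left]
  linarith [hw.2]

instance manifoldC (n : WithTop ℕ∞) : IsManifold (modelWithCornersEuclideanHalfSpace 1) n C := by
  apply isManifold_of_contDiffOn
  rintro e e' ⟨a, rfl⟩ ⟨b, rfl⟩
  rintro z ⟨hz1, hz2⟩
  have hz0 : 0 ≤ z 0 := by
    rw [range_modelWithCornersEuclideanHalfSpace] at hz2
    exact hz2
  have h1 : (((modelWithCornersEuclideanHalfSpace 1).symm z).1 0) = z 0 := by
    rw [modelWithCornersEuclideanHalfSpace_symm_apply]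
    simp [hz0]
  have h2 : ((modelWithCornersEuclideanHalfSpace 1).symm z) ∈ (chart a).target := hz1.1
  have h3 := (mem_chart_target h2).1
  rw [h1] at h3
  have h4 : (chart a).symm ((modelWithCornersEuclideanHalfSpace 1).symm z) ∈ (chart b).source :=
    hz1.2
  rw [mem_chart_source, chart_symm_apply, h1] at h4
  exact (contDiffAt_chart (F := id) (f := id) (fun t => rfl) h3 contDiffAt_id h4).contDiffWithinAt

lemma mem_chart_source_self (x : C) : x ∈ (chart (Quotient.out x - 1)).source :=
  ChartedSpace.mem_chart_source (H := EuclideanHalfSpace 1) x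

/-- A self-map of the circle with a `C^n` lift is `C^n`. -/
lemma contMDiff_of_lift {n : WithTop ℕ∞} {F : ℝ → ℝ} {f : C → C}
    (hfF : ∀ t : ℝ, f (t : C) = ((F t : ℝ) : C)) (hF : ContDiff ℝ n F) :
    ContMDiff (modelWithCornersEuclideanHalfSpace 1) (modelWithCornersEuclideanHalfSpace 1) n f := by
  have hcont : Continuous f := by
    have : Continuous (fun t : ℝ => f (t : C)) := by
      simp_rw [hfF]
      exact (AddCircle.continuous_mk' 2).comp hF.continuous
    exact (QuotientAddGroup.isQuotientMap_mk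
      (N := AddSubgroup.zmultiples (2 : ℝ))).continuous_iff.2 this
  intro x
  rw [contMDiffAt_iff]
  refine ⟨hcont.continuousAt, ?_⟩
  set a : ℝ := Quotient.out x - 1 with ha
  set b : ℝ := Quotient.out (f x) - 1 with hb
  have hx : x ∈ (chart a).source := mem_chart_source_self x
  have hy : f x ∈ (chart b).source := mem_chart_source_self (f x)
  have hza : (chart a).symm (chart a x) = x := (chart a).left_inv hx
  have h3 := (mem_chart_target ((chart a).map_source hx)).1
  rw [chart_symm_apply] at hza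
  have h4 : ((F ((chart a x).1 0 + a) : ℝ) : C) ≠ (b : C) := by
    rw [← hfF, hza]
    exact mem_chart_source.1 hy
  exact (contDiffAt_chart hfF h3 hF.contDiffAt h4).contDiffWithinAt

end Run7.h578.Det
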