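import Pool.Agent.Run7.h578.CircleHalf

/-!
Doubling the interval: every group of `C^1` diffeomorphisms of `[0,1]` acts faithfully by `C^1`
diffeomorphisms on the circle, while the circle is not homeomorphic to the interval.
-/

set_option autoImplicit false

open Set Filter Topology
open scoped Manifold ContDiff

noncomputable section

namespace Run7.h578.Det

/-- The unit interval. -/
abbrev J : Type := Icc (0 : ℝ) 1

lemma norm_coe {t : ℝ} (ht : t ∈ Icc (0 : ℝ) 1) : ‖(t : C)‖ = t := by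
  have h := (AddCircle.norm_coe_eq_abs_iff (p := (2 : ℝ)) (x := t) two_ne_zero).2 (by
    rw [abs_of_nonneg ht.1, abs_of_pos (by norm_num : (0 : ℝ) < 2)]
    linarith [ht.2])
  rw [h, abs_of_nonneg ht.1]

/-- The folding map. -/
def nrm (x : C) : J := ⟨‖x‖, norm_nonneg _, by
  have h := AddCircle.norm_le_half_period (p := (2 : ℝ)) (x := x) two_ne_zero
  rw [abs_of_pos (by norm_num : (0 : ℝ) < 2)] at h
  linarith⟩

lemma nrm_coe (t : J) : nrm ((t : ℝ) : C) = t := Subtype.ext (norm_coe t.2)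

lemma nrm_neg_coe (t : J) : nrm (-((t : ℝ) : C)) = t :=
  Subtype.ext (by
    change ‖-((t : ℝ) : C)‖ = _
    rw [norm_neg, norm_coe t.2])

lemma exists_rep (x : C) : ∃ t : J, x = ((t : ℝ) : C) ∨ x = -((t : ℝ) : C) := by
  have h1 := (AddCircle.equivIco (2 : ℝ) (-1) x).2
  have h2 : (((AddCircle.equivIco (2 : ℝ) (-1) x : ℝ)) : C) = x :=
    (AddCircle.equivIco (2 : ℝ) (-1)).symm_apply_apply _
  set s : ℝ := (AddCircle.equivIco (2 : ℝ) (-1) x : ℝ) with hs
  rcases le_or_gt 0 s with h0 | h0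
  · exact ⟨⟨s, h0, by linarith [h1.2]⟩, Or.inl h2.symm⟩
  · refine ⟨⟨-s, by linarith, by linarith [h1.1]⟩, Or.inr ?_⟩
    rw [← h2, AddCircle.coe_neg, neg_neg]

open Classical in
/-- The double of a self-map of the interval. -/
def dbl (f : J → J) (x : C) : C :=
  if x = ((nrm x : ℝ) : C) then ((f (nrm x) : ℝ) : C) else -((f (nrm x) : ℝ) : C)

/-- A self-map of the interval preserving the set of end points. -/
def EndPres (f : J → J) : Prop :=
  ∀ t : J, ((t : ℝ) = 0 ∨ (t : ℝ) = 1) → ((f t : ℝ) = 0 ∨ (f t : ℝ) = 1)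

lemma neg_end {t : ℝ} (h : t = 0 ∨ t = 1) : -((t : ℝ) : C) = ((t : ℝ) : C) := by
  rw [neg_eq_iff_add_eq_zero, ← AddCircle.coe_add, AddCircle.coe_eq_zero_iff]
  rcases h with h | h
  · exact ⟨0, by simp [h]⟩
  · exact ⟨1, by simp [h]; norm_num⟩

lemma end_of_neg {t : J} (h : -((t : ℝ) : C) = ((t : ℝ) : C)) : (t : ℝ) = 0 ∨ (t : ℝ) = 1 := by
  rw [neg_eq_iff_add_eq_zero, ← AddCircle.coe_add, AddCircle.coe_eq_zero_iff] at h
  obtain ⟨n, hn⟩ := h
  have h1 : (t : ℝ) = (n : ℝ) := by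
    have : (n : ℝ) * 2 = (t : ℝ) + t := by simpa using hn
    linarith
  have h2 := t.2.1
  have h3 := t.2.2
  rw [h1] at h2 h3
  have h4 : 0 ≤ n := by exact_mod_cast h2
  have h5 : n ≤ 1 := by exact_mod_cast h3
  interval_cases n
  · left; simpa using h1
  · right; simpa using h1

lemma dbl_coe (f : J → J) (t : J) : dbl f ((t : ℝ) : C) = ((f t : ℝ) : C) := by
  unfold dbl
  rw [nrm_coe, if_pos rfl]

lemma dbl_neg_coe {f : J → J} (hf : EndPres f) (t : J) :
    dbl f (-((t : ℝ) : C)) = -((f t : ℝ) : C) := by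
  unfold dbl
  rw [nrm_neg_coe]
  split_ifs with h
  · rw [neg_end (hf t (end_of_neg h))]
  · rfl

lemma dbl_comp {f g : J → J} (hf : EndPres f) (hg : EndPres g) (x : C) :
    dbl (fun t => f (g t)) x = dbl f (dbl g x) := by
  have hfg : EndPres (fun t => f (g t)) := fun t ht => hf _ (hg _ ht)
  obtain ⟨t, rfl | rfl⟩ := exists_rep x
  · rw [dbl_coe, dbl_coe, dbl_coe]
  · rw [dbl_neg_coe hfg, dbl_neg_coe hg, dbl_neg_coe hf]

lemma dbl_id (x : C) : dbl (fun t => t) x = x := by
  have hf : EndPres (fun t : J => t) := fun t ht => ht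
  obtain ⟨t, rfl | rfl⟩ := exists_rep x
  · rw [dbl_coe]
  · rw [dbl_neg_coe hf]

/-- Continuous bijections of the interval preserve the end points. -/
lemma endPres_of_continuous {f : J → J} (hc : Continuous f) (hb : Function.Bijective f) :
    EndPres f := by
  have key : ∀ (e : J) (S : Set ℝ), IsPreconnected S → S ⊆ Icc 0 1 →
      (∀ t : J, t ≠ e → (t : ℝ) ∈ S) → (e : ℝ) ∉ S →
      ((f e : ℝ) = 0 ∨ (f e : ℝ) = 1) := by
    intro e S hS hS1 hSe heS
    by_contra hcon
    push Not at hcon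
    set F : ℝ → ℝ := fun t => (f (projIcc 0 1 zero_le_one t) : ℝ) with hF
    have hFc : Continuous F := continuous_subtype_val.comp (hc.comp continuous_projIcc)
    have hFv : ∀ t : J, F t = f t := by
      intro t
      simp only [hF]
      rw [projIcc_val]
    have himg := hS.image F hFc.continuousOn
    obtain ⟨a, ha⟩ := hb.2 ⟨0, by simp⟩
    obtain ⟨b, hb'⟩ := hb.2 ⟨1, by simp⟩
    have ha2 : a ≠ e := by
      rintro rfl
      apply hcon.1
      rw [ha]
    have hb2 : b ≠ e := by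
      rintro rfl
      apply hcon.2
      rw [hb']
    have h0 : (0 : ℝ) ∈ F '' S := ⟨a, hSe a ha2, by rw [hFv, ha]⟩
    have h1 : (1 : ℝ) ∈ F '' S := ⟨b, hSe b hb2, by rw [hFv, hb']⟩
    have hsub := himg.Icc_subset h0 h1
    obtain ⟨c, hcS, hce⟩ := hsub (f e).2
    have h3 : F c = f ⟨c, hS1 hcS⟩ := hFv ⟨c, hS1 hcS⟩
    rw [h3] at hce
    have h4 : (⟨c, hS1 hcS⟩ : J) = e := hb.1 (Subtype.ext hce)
    apply heS
    rw [← h4]
    exact hcS
  intro t ht
  rcases ht with ht | ht
  · apply key t (Ioc 0 1) isPreconnected_Ioc Ioc_subset_Icc_self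
    · intro s hs
      refine ⟨lt_of_le_of_ne s.2.1 ?_, s.2.2⟩
      intro h
      apply hs
      exact Subtype.ext (by rw [← h, ht])
    · rw [ht]
      simp
  · apply key t (Ico 0 1) isPreconnected_Ico Ico_subset_Icc_self
    · intro s hs
      refine ⟨s.2.1, lt_of_le_of_ne s.2.2 ?_⟩
      intro h
      apply hs
      exact Subtype.ext (by rw [h, ht])
    · rw [ht]
      simp

/-- The double of a `C^1` end point preserving map has a `C^1` lift. -/
lemma exists_lift {f : J → J} (hf : EndPres f)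
    (hd : ContMDiff (modelWithCornersEuclideanHalfSpace 1)
      (modelWithCornersEuclideanHalfSpace 1) 1 f) :
    ∃ F : ℝ → ℝ, ContDiff ℝ 1 F ∧ ∀ t : ℝ, dbl f (t : C) = ((F t : ℝ) : C) := by
  set φ : ℝ → ℝ := fun t => (f (projIcc 0 1 zero_le_one t) : ℝ) with hφ
  have hφv : ∀ t : J, φ t = f t := by
    intro t
    simp only [hφ]
    rw [projIcc_val]
  have hφd : ContDiffOn ℝ 1 φ (Icc 0 1) := by
    rw [← contMDiffOn_iff_contDiffOn]
    have h1 : ContMDiffOn 𝓘(ℝ, ℝ) (modelWithCornersEuclideanHalfSpace 1) 1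
        (f ∘ projIcc (0 : ℝ) 1 zero_le_one) (Icc 0 1) :=
      contMDiffOn_comp_projIcc_iff.2 hd
    exact (contMDiff_subtypeVal_Icc (x := (0 : ℝ)) (y := 1)).comp_contMDiffOn h1
  set u : ℝ → ℝ := derivWithin φ (Icc 0 1) with hu
  have huc : ContinuousOn u (Icc 0 1) :=
    hφd.continuousOn_derivWithin (uniqueDiffOn_Icc zero_lt_one) le_rfl
  have hmem : ∀ t : ℝ, ‖(t : C)‖ ∈ Icc (0 : ℝ) 1 := fun t => (nrm (t : C)).2
  set U : ℝ → ℝ := fun t => u ‖(t : C)‖ with hU
  have hUc : Continuous U := by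
    apply huc.comp_continuous _ hmem
    exact continuous_norm.comp (AddCircle.continuous_mk' 2)
  have hUneg : ∀ t, U (-t) = U t := by
    intro t
    simp only [hU]
    rw [AddCircle.coe_neg, norm_neg]
  have hUper : Function.Periodic U 2 := by
    intro t
    simp only [hU]
    rw [AddCircle.coe_add_period]
  set F : ℝ → ℝ := fun t => φ 0 + ∫ s in (0 : ℝ)..t, U s with hF
  have hFd : ∀ t, HasDerivAt F (U t) t := by
    intro t
    exact ((hUc.integral_hasStrictDerivAt 0 t).hasDerivAt).const_add _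
  have hFC : ContDiff ℝ 1 F := by
    rw [contDiff_one_iff_deriv]
    refine ⟨fun t => (hFd t).differentiableAt, ?_⟩
    have : deriv F = U := funext fun t => (hFd t).deriv
    rw [this]
    exact hUc
  have hFφ : ∀ t : J, F t = φ t := by
    intro t
    have hsub : Icc (0 : ℝ) t ⊆ Icc 0 1 := Icc_subset_Icc_right t.2.2
    have hint : ∫ s in (0 : ℝ)..t, U s = φ t - φ 0 := by
      have h1 : ∫ s in (0 : ℝ)..t, U s = ∫ s in (0 : ℝ)..t, u s := by
        apply intervalIntegral.integral_congr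
        intro s hs
        rw [uIcc_of_le t.2.1] at hs
        simp only [hU]
        rw [norm_coe (hsub hs)]
      rw [h1]
      apply intervalIntegral.integral_eq_sub_of_hasDerivAt_of_le t.2.1
      · exact hφd.continuousOn.mono hsub
      · intro s hs
        have hs1 : s ∈ Ioo (0 : ℝ) 1 := ⟨hs.1, lt_of_lt_of_le hs.2 t.2.2⟩
        have h2 : DifferentiableWithinAt ℝ φ (Icc 0 1) s :=
          (hφd.differentiableOn one_ne_zero) s (Ioo_subset_Icc_self hs1)
        exact h2.hasDerivWithinAt.hasDerivAt (Icc_mem_nhds hs1.1 hs1.2)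
      · apply ContinuousOn.intervalIntegrable
        rw [uIcc_of_le t.2.1]
        exact huc.mono hsub
    simp only [hF]
    rw [hint]
    ring
  have he0 : φ 0 = 0 ∨ φ 0 = 1 := by
    have := hf ⟨0, by simp⟩ (Or.inl rfl)
    rw [← hφv] at this
    exact this
  have he1 : φ 1 = 0 ∨ φ 1 = 1 := by
    have := hf ⟨1, by simp⟩ (Or.inr rfl)
    rw [← hφv] at this
    exact this
  have hFneg : ∀ t, F (-t) = 2 * φ 0 - F t := by
    intro t
    have h1 : ∫ s in (0 : ℝ)..(-t), U s = - ∫ s in (0 : ℝ)..t, U s := by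
      have h2 := intervalIntegral.integral_comp_neg (a := (0 : ℝ)) (b := t) U
      simp only [hUneg, neg_zero] at h2
      rw [h2, intervalIntegral.integral_symm]
    simp only [hF]
    rw [h1]
    ring
  have hFper : ∀ t, F (t + 2) = F t + 2 * (φ 1 - φ 0) := by
    intro t
    have h1 : ∫ s in (0 : ℝ)..(t + 2), U s =
        (∫ s in (0 : ℝ)..t, U s) + ∫ s in t..(t + 2), U s :=
      (intervalIntegral.integral_add_adjacent_intervals (hUc.intervalIntegrable _ _)
        (hUc.intervalIntegrable _ _)).symm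
    have h2 : ∫ s in t..(t + 2), U s = ∫ s in (-1 : ℝ)..(-1 + 2), U s :=
      hUper.intervalIntegral_add_eq t (-1)
    have h3 : ∫ s in (-1 : ℝ)..(-1 + 2), U s = F 1 - F (-1) := by
      have h4 := intervalIntegral.integral_interval_sub_left
        (hUc.intervalIntegrable (μ := MeasureTheory.volume) 0 1)
        (hUc.intervalIntegrable (μ := MeasureTheory.volume) 0 (-1))
      have h5 : (-1 : ℝ) + 2 = 1 := by norm_num
      rw [h5, ← h4]
      simp only [hF]
      ring
    have h6 : F 1 = φ 1 := hFφ ⟨1, by simp⟩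
    have h7 := hFneg 1
    simp only [hF] at h6 h7 ⊢
    rw [h1, h2, h3]
    simp only [hF]
    linarith
  refine ⟨F, hFC, ?_⟩
  have hzero : ∀ k : ℤ, (((2 * k : ℤ) : ℝ) : C) = 0 := by
    intro k
    rw [AddCircle.coe_eq_zero_iff]
    exact ⟨k, by push_cast; simp [mul_comm]⟩
  have hint0 : ∃ m : ℤ, φ 0 = m := by
    rcases he0 with h | h
    · exact ⟨0, by simp [h]⟩
    · exact ⟨1, by simp [h]⟩
  have hint1 : ∃ m : ℤ, φ 1 = m := by
    rcases he1 with h | h
    · exact ⟨0, by simp [h]⟩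
    · exact ⟨1, by simp [h]⟩
  obtain ⟨m0, hm0⟩ := hint0
  obtain ⟨m1, hm1⟩ := hint1
  have hper : Function.Periodic (fun t => ((F t : ℝ) : C)) 2 := by
    intro t
    simp only
    rw [hFper, AddCircle.coe_add, hm0, hm1]
    have : (2 * ((m1 : ℝ) - (m0 : ℝ))) = ((2 * (m1 - m0) : ℤ) : ℝ) := by push_cast; ring
    rw [this, hzero, add_zero]
  have hpos : ∀ t : J, dbl f ((t : ℝ) : C) = ((F t : ℝ) : C) := by
    intro t
    rw [dbl_coe, hFφ, hφv]
  have hneg : ∀ t : J, dbl f ((-(t : ℝ) : ℝ) : C) = ((F (-(t : ℝ)) : ℝ) : C) := by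
    intro t
    rw [AddCircle.coe_neg, dbl_neg_coe hf, hFneg, AddCircle.coe_sub, hm0]
    have : (2 * (m0 : ℝ)) = ((2 * m0 : ℤ) : ℝ) := by push_cast; ring
    rw [this, hzero, zero_sub, hFφ, hφv]
  have hall : ∀ s : ℝ, s ∈ Icc (-1 : ℝ) 1 → dbl f (s : C) = ((F s : ℝ) : C) := by
    intro s hs
    rcases le_or_gt 0 s with h0 | h0
    · exact hpos ⟨s, h0, hs.2⟩
    · have := hneg ⟨-s, by linarith, by linarith [hs.1]⟩
      simpa using this
  intro t
  obtain ⟨s, hs, hst⟩ : ∃ s ∈ Ico (-1 : ℝ) (-1 + 2), ∃ k : ℤ, s = t + k • (2 : ℝ) := by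
    obtain ⟨k, hk, -⟩ := existsUnique_add_zsmul_mem_Ico (by norm_num : (0 : ℝ) < 2) t (-1)
    exact ⟨_, hk, k, rfl⟩
  obtain ⟨k, hk⟩ := hst
  have h1 := hall s ⟨hs.1, by linarith [hs.2]⟩
  have h2 : (s : C) = (t : C) := by
    rw [hk, AddCircle.coe_add]
    have : ((k • (2 : ℝ) : ℝ) : C) = 0 := by
      rw [AddCircle.coe_eq_zero_iff]
      exact ⟨k, rfl⟩
    rw [this, add_zero]
  have h3 : ((F s : ℝ) : C) = ((F t : ℝ) : C) := by
    have := hper.zsmul k t
    rw [hk]
    exact this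
  rw [← h2, h1, h3]

/-- The doubled action. -/
def dblHom {G : Type*} [Group G] (ρ : G →* Equiv.Perm J) (hρ : ∀ g, EndPres (ρ g)) :
    G →* Equiv.Perm C where
  toFun g :=
    { toFun := dbl (ρ g)
      invFun := dbl (ρ g⁻¹)
      left_inv := fun x => by
        rw [← dbl_comp (hρ _) (hρ _)]
        have : (fun t => (ρ g⁻¹) ((ρ g) t)) = fun t => t := by
          funext t
          rw [← Equiv.Perm.mul_apply, ← map_mul, inv_mul_cancel, map_one, Equiv.Perm.one_apply]
        rw [this, dbl_id]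
      right_inv := fun x => by
        rw [← dbl_comp (hρ _) (hρ _)]
        have : (fun t => (ρ g) ((ρ g⁻¹) t)) = fun t => t := by
          funext t
          rw [← Equiv.Perm.mul_apply, ← map_mul, mul_inv_cancel, map_one, Equiv.Perm.one_apply]
        rw [this, dbl_id] }
  map_one' := by
    ext1 x
    change dbl (ρ 1) x = x
    rw [map_one]
    exact dbl_id x
  map_mul' g h := by
    ext1 x
    change dbl (ρ (g * h)) x = dbl (ρ g) (dbl (ρ h) x)
    rw [map_mul]
    exact dbl_comp (hρ _) (hρ _) x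

lemma dblHom_apply {G : Type*} [Group G] (ρ : G →* Equiv.Perm J) (hρ : ∀ g, EndPres (ρ g))
    (g : G) (x : C) : dblHom ρ hρ g x = dbl (ρ g) x := rfl

lemma dblHom_injective {G : Type*} [Group G] {ρ : G →* Equiv.Perm J} (hρ : ∀ g, EndPres (ρ g))
    (hi : Function.Injective ρ) : Function.Injective (dblHom ρ hρ) := by
  intro g h hgh
  apply hi
  ext1 t
  have h1 : dblHom ρ hρ g ((t : ℝ) : C) = dblHom ρ hρ h ((t : ℝ) : C) := by rw [hgh]
  rw [dblHom_apply, dblHom_apply, dbl_coe, dbl_coe] at h1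
  have h2 := congrArg nrm h1
  rw [nrm_coe, nrm_coe] at h2
  exact h2

/-- Every faithful `C^1` action on the interval doubles to one on the circle. -/
theorem double_action {G : Type*} [Group G] (ρ : G →* Equiv.Perm J) (hi : Function.Injective ρ)
    (hd : ∀ g : G, ContMDiff (modelWithCornersEuclideanHalfSpace 1)
      (modelWithCornersEuclideanHalfSpace 1) 1 (ρ g)) :
    ∃ ρ' : G →* Equiv.Perm C, Function.Injective ρ' ∧
      ∀ g : G, ContMDiff (modelWithCornersEuclideanHalfSpace 1)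
        (modelWithCornersEuclideanHalfSpace 1) 1 (ρ' g) := by
  have hρ : ∀ g, EndPres (ρ g) := fun g =>
    endPres_of_continuous (hd g).continuous (ρ g).bijective
  refine ⟨dblHom ρ hρ, dblHom_injective hρ hi, ?_⟩
  intro g
  obtain ⟨F, hF, hlift⟩ := exists_lift (hρ g) (hd g)
  exact contMDiff_of_lift (f := dblHom ρ hρ g) hlift hF

/-- The interval is not homeomorphic to the circle. -/
theorem not_homeo (h : J ≃ₜ C) : False := by
  set k : J → J := fun t => h.symm (h t + ((1 : ℝ) : C)) with hk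
  have hkc : Continuous k := h.symm.continuous.comp (h.continuous.add continuous_const)
  set F : ℝ → ℝ := fun t => (k (projIcc 0 1 zero_le_one t) : ℝ) with hF
  have hFc : Continuous F := continuous_subtype_val.comp (hkc.comp continuous_projIcc)
  obtain ⟨c, hc, hfix⟩ := exists_mem_Icc_isFixedPt_of_mapsTo hFc.continuousOn zero_le_one
    (fun t _ => (k (projIcc 0 1 zero_le_one t)).2 : MapsTo F (Icc 0 1) (Icc 0 1))
  have h1 : k ⟨c, hc⟩ = ⟨c, hc⟩ := by
    apply Subtype.ext
    have : F c = c := hfix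
    simp only [hF] at this
    rwa [projIcc_of_mem zero_le_one hc] at this
  have h2 : h ⟨c, hc⟩ + ((1 : ℝ) : C) = h ⟨c, hc⟩ := by
    have := congrArg h h1
    simpa [hk] using this
  have h3 : ((1 : ℝ) : C) = 0 := by simpa using h2
  rw [AddCircle.coe_eq_zero_iff] at h3
  obtain ⟨n, hn⟩ := h3
  have h5 : ((2 * n : ℤ) : ℝ) = ((1 : ℤ) : ℝ) := by
    push_cast
    simpa [mul_comm] using hn
  have h6 : 2 * n = 1 := by exact_mod_cast h5
  omega

end Run7.h578.Det
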