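import Pool.Agent.N831.LI.Basic
import Pool.Agent.H24R2.JP.B1
import Pool.Agent.H353R2.Z1

/-!
# Li coefficients of zeta with a base point: the zeros as abstract data (multiplicities)
-/

set_option autoImplicit false

open Complex Filter Topology
open scoped ComplexConjugate

namespace Run7.h578.LZ

open Pool.Agent.H24R2.JP (XX)
open H353 (FF mu mu_cast FF_anal FF_order_ne_top zeros_finite)

/-- `FF s = (s - 1) ζ(s)` off `1` -/
lemma FF_eq {s : ℂ} (hs : s ≠ 1) : FF s = (s - 1) * riemannZeta s := ZU.J_g2b.FF_ne hs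

lemma GR_ne {s : ℂ} (hs : 0 < s.re) : (Gammaℝ s)⁻¹ ≠ 0 := inv_ne_zero (Gammaℝ_ne_zero_of_re_pos hs)

/-- the connection between the two entire functions -/
lemma XX_FF {z : ℂ} (hz : -(1 / 2) < z.re) :
    XX z * (Gammaℝ (1 / 2 + z))⁻¹ = 4 * (1 / 2 + z) * FF (1 / 2 + z) := by
  have hre : 0 < (1 / 2 + z).re := by
    have : (1 / 2 + z).re = 1 / 2 + z.re := by simp
    rw [this]; linarith
  have hs0 : (1 / 2 + z) ≠ 0 := fun h => by rw [h] at hre; simp at hre
  have hG := Gammaℝ_ne_zero_of_re_pos hre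
  by_cases hs1 : (1 / 2 + z) = 1
  · have hz1 : z = 1 / 2 := by linear_combination hs1
    rw [hs1, hz1]
    have h1 : FF 1 = 1 := ZU.J_g2b.FF_one
    rw [h1, Gammaℝ_one]
    unfold Pool.Agent.H24R2.JP.XX
    norm_num
  · rw [FF_eq hs1, riemannZeta_def_of_ne_zero hs0]
    unfold Pool.Agent.H24R2.JP.XX
    rw [completedRiemannZeta_eq (1 / 2 + z)]
    obtain ⟨s, hs⟩ : ∃ s : ℂ, s = 1 / 2 + z := ⟨_, rfl⟩
    have hz' : z = s - 1 / 2 := by rw [hs]; ring
    rw [← hs] at hs0 hs1 hG ⊢
    rw [hz']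
    have h1 : (1 - s) ≠ 0 := sub_ne_zero.2 (Ne.symm hs1)
    field_simp
    ring

/-- the zeros of `XX` are in the open strip -/
lemma XX_strip {z : ℂ} (h : XX z = 0) : |z.re| < 1 / 2 := by
  have key : ∀ w : ℂ, XX w = 0 → w.re < 1 / 2 := by
    intro w hw
    by_contra hcon
    push Not at hcon
    have h1 := XX_FF (z := w) (by linarith)
    rw [hw, zero_mul] at h1
    have hre : 1 ≤ (1 / 2 + w).re := by
      have : (1 / 2 + w).re = 1 / 2 + w.re := by simp
      rw [this]; linarith
    have hs0 : (1 / 2 + w) ≠ 0 := fun h => by rw [h] at hre; simp at hre; linarith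
    have h2 : FF (1 / 2 + w) = 0 := by
      have := h1.symm
      rcases mul_eq_zero.1 this with h3 | h3
      · exfalso
        rcases mul_eq_zero.1 h3 with h4 | h4
        · norm_num at h4
        · exact hs0 h4
      · exact h3
    have h3 := ZU.J_g2b.FF_zero_re h2
    linarith
  rw [abs_lt]
  refine ⟨?_, key z h⟩
  have h1 := key (-z) (by rw [Pool.Agent.H24R2.JP.B1h.XX_neg]; exact h)
  simp at h1
  linarith

lemma GRinv_diff : Differentiable ℂ fun s : ℂ => (Gammaℝ s)⁻¹ := differentiable_Gammaℝ_inv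

lemma XX_an (z : ℂ) : AnalyticAt ℂ XX z := Pool.Agent.H24R2.JP.B1h.XX_diff.analyticAt z

/-- the orders of `XX` and `FF` -/
lemma ord_FF {z : ℂ} (hz : -(1 / 2) < z.re) : analyticOrderAt XX z = analyticOrderAt FF (1 / 2 + z) := by
  have hsh : Differentiable ℂ (fun w : ℂ => 1 / 2 + w) := by fun_prop
  have hre : 0 < (1 / 2 + z).re := by
    have : (1 / 2 + z).re = 1 / 2 + z.re := by simp
    rw [this]; linarith
  have hs0 : (1 / 2 + z) ≠ 0 := fun h => by rw [h] at hre; simp at hre
  -- the two auxiliary functions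
  have hA : AnalyticAt ℂ (fun w : ℂ => (Gammaℝ (1 / 2 + w))⁻¹) z := (GRinv_diff.comp hsh).analyticAt z
  have hB : AnalyticAt ℂ (fun w : ℂ => 4 * (1 / 2 + w)) z := by fun_prop
  have hC : AnalyticAt ℂ (fun w : ℂ => FF (1 / 2 + w)) z := (ZU.J_g2b.FF_diff.comp hsh).analyticAt z
  have hA0 : analyticOrderAt (fun w : ℂ => (Gammaℝ (1 / 2 + w))⁻¹) z = 0 :=
    hA.analyticOrderAt_eq_zero.2 (GR_ne hre)
  have hB0 : analyticOrderAt (fun w : ℂ => 4 * (1 / 2 + w)) z = 0 := by
    rw [hB.analyticOrderAt_eq_zero]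
    exact mul_ne_zero (by norm_num) hs0
  have hev : (XX * fun w : ℂ => (Gammaℝ (1 / 2 + w))⁻¹) =ᶠ[𝓝 z]
      ((fun w : ℂ => 4 * (1 / 2 + w)) * fun w : ℂ => FF (1 / 2 + w)) := by
    have ho : IsOpen {w : ℂ | -(1 / 2) < w.re} := isOpen_lt continuous_const Complex.continuous_re
    filter_upwards [ho.mem_nhds hz] with w hw
    exact XX_FF hw
  have h1 := analyticOrderAt_congr hev
  rw [analyticOrderAt_mul (XX_an z) hA, analyticOrderAt_mul hB hC, hA0, hB0, add_zero, zero_add] at h1
  rw [h1]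
  have h2 : analyticOrderAt (FF ∘ (fun w : ℂ => 1 / 2 + w)) z = analyticOrderAt FF ((fun w : ℂ => 1 / 2 + w) z) := by
    rw [analyticOrderAt_comp_of_deriv_ne_zero]
    · exact hsh.analyticAt z
    · have : deriv (fun w : ℂ => 1 / 2 + w) z = 1 := by
        rw [deriv_const_add]
        exact deriv_id z
      rw [this]
      exact one_ne_zero
  exact h2

/-- the orders of `FF` and zeta -/
lemma ord_zeta {s : ℂ} (hs : s ≠ 1) : analyticOrderAt FF s = analyticOrderAt riemannZeta s := by
  have hz : AnalyticAt ℂ riemannZeta s := by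
    rw [Complex.analyticAt_iff_eventually_differentiableAt]
    filter_upwards [isOpen_ne.mem_nhds hs] with w hw
    exact differentiableAt_riemannZeta hw
  have hB : AnalyticAt ℂ (fun w : ℂ => w - 1) s := by fun_prop
  have hB0 : analyticOrderAt (fun w : ℂ => w - 1) s = 0 := by
    rw [hB.analyticOrderAt_eq_zero]
    exact sub_ne_zero.2 hs
  have hev : FF =ᶠ[𝓝 s] ((fun w : ℂ => w - 1) * riemannZeta) := by
    filter_upwards [isOpen_ne.mem_nhds hs] with w hw
    exact FF_eq hw
  rw [analyticOrderAt_congr hev, analyticOrderAt_mul hB hz, hB0, zero_add]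

/-- the multiplicity -/
noncomputable def M (z : ℂ) : ℝ := (analyticOrderNatAt XX z : ℝ)

lemma M_nn (z : ℂ) : 0 ≤ M z := Nat.cast_nonneg _

lemma M_FF {z : ℂ} (hz : -(1 / 2) < z.re) : M z = (mu (1 / 2 + z) : ℝ) := by
  unfold M mu analyticOrderNatAt
  rw [ord_FF hz]

lemma ord_top (z : ℂ) : analyticOrderAt XX z ≠ ⊤ := by
  intro h
  have hFan : AnalyticOnNhd ℂ XX Set.univ := fun z _ => XX_an z
  have := hFan.eqOn_zero_of_preconnected_of_eventuallyEq_zero isPreconnected_univ (Set.mem_univ z)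
    (analyticOrderAt_eq_top.1 h)
  have h1 : XX (1 / 2) = 0 := this (Set.mem_univ _)
  have h2 := XX_strip h1
  norm_num at h2

lemma M_zero {z : ℂ} (h : M z ≠ 0) : XX z = 0 := by
  by_contra h1
  apply h
  unfold M analyticOrderNatAt
  rw [(XX_an z).analyticOrderAt_eq_zero.2 h1]
  simp

lemma M_one {z : ℂ} (h : XX z = 0) : 1 ≤ M z := by
  unfold M
  have : analyticOrderNatAt XX z ≠ 0 := by
    intro h1
    unfold analyticOrderNatAt at h1
    rw [ENat.toNat_eq_zero] at h1
    rcases h1 with h1 | h1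
    · exact ((XX_an z).analyticOrderAt_eq_zero.1 h1) h
    · exact ord_top z h1
  exact_mod_cast Nat.one_le_iff_ne_zero.2 this

lemma M_neg (z : ℂ) : M (-z) = M z := by
  unfold M analyticOrderNatAt
  have h2 : analyticOrderAt (XX ∘ (fun w : ℂ => -w)) z = analyticOrderAt XX ((fun w : ℂ => -w) z) := by
    rw [analyticOrderAt_comp_of_deriv_ne_zero]
    · fun_prop
    · have : deriv (fun w : ℂ => -w) z = -1 := by
        simp
      rw [this]
      norm_num
  have h3 : XX ∘ (fun w : ℂ => -w) = XX := by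
    funext w
    exact Pool.Agent.H24R2.JP.B1h.XX_neg w
  rw [h3] at h2
  rw [h2]

lemma M_conj (z : ℂ) : M (conj z) = M z := by
  have key : ∀ z : ℂ, M z ≤ M (conj z) := by
    intro z
    unfold M
    have ht := ord_top z
    obtain ⟨n, hn⟩ := ENat.ne_top_iff_exists.1 ht
    have hn' := hn
    obtain ⟨g, hg, hg0, hgF⟩ := ((XX_an z).analyticOrderAt_eq_natCast).1 hn.symm
    have h1 : analyticOrderAt XX (conj z) = n := by
      rw [(XX_an _).analyticOrderAt_eq_natCast]
      refine ⟨fun s => conj (g (conj s)), ?_, ?_, ?_⟩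
      · rw [Complex.analyticAt_iff_eventually_differentiableAt] at hg ⊢
        have hc : Tendsto (fun w : ℂ => conj w) (𝓝 (conj z)) (𝓝 z) := by
          have := Complex.continuous_conj.tendsto (conj z)
          rwa [Complex.conj_conj] at this
        filter_upwards [hc.eventually hg] with w hw
        have h1 := hw.conj_conj
        rw [Complex.conj_conj] at h1
        exact h1
      · simpa using hg0
      · have hc : Tendsto (fun w : ℂ => conj w) (𝓝 (conj z)) (𝓝 z) := by
          have := Complex.continuous_conj.tendsto (conj z)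
          rwa [Complex.conj_conj] at this
        filter_upwards [hc.eventually hgF] with w hw
        have h2 : XX w = conj (XX (conj w)) := by
          rw [Pool.Agent.H24R2.JP.B1h.XX_conj, Complex.conj_conj]
        rw [h2, hw, smul_eq_mul, smul_eq_mul, map_mul, map_pow, map_sub, Complex.conj_conj]
    unfold analyticOrderNatAt
    rw [h1, ← hn]
  refine le_antisymm ?_ (key z)
  have := key (conj z)
  rwa [Complex.conj_conj] at this

end Run7.h578.LZ
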