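import Pool.Agent.Run7.h578.LZ1
import Pool.Agent.H370R2.Count
import Pool.Agent.H370R2.DirGood
import Pool.Agent.W190.C3

/-!
# Li coefficients of zeta with a base point: counting zeros
-/

set_option autoImplicit false

open Complex Filter Topology Finset
open scoped ComplexConjugate

namespace Run7.h578.LZ

open Pool.Agent.H24R2.JP (XX)
open Pool.Agent.N831.LI (Zs Dn)
open H353 (FF mu)

/-- only the zeros matter -/
lemma restrict (S : Finset ℂ) (g : ℂ → ℝ) : ∑ s ∈ S, M s * g s = ∑ s ∈ S.filter (fun s => XX s = 0), M s * g s := by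
  classical
  refine (Finset.sum_filter_of_ne fun s _ h0 => ?_).symm
  exact M_zero fun h => h0 (by rw [h, zero_mul])

/-- passage to the right half -/
lemma fold {B : ℝ} (P : ℂ → Prop) (hP : ∀ z, P z → P (-z))
    (h : ∀ S : Finset ℂ, (∀ z ∈ S, XX z = 0 ∧ P z ∧ 0 ≤ z.re) → ∑ z ∈ S, M z ≤ B) (S : Finset ℂ)
    (hS : ∀ z ∈ S, P z) : ∑ z ∈ S, M z ≤ B + B := by
  classical
  have h0 := restrict S (fun _ => 1)
  simp only [mul_one] at h0
  rw [h0, ← Finset.sum_filter_add_sum_filter_not (S.filter (fun s => XX s = 0)) (fun s => 0 ≤ s.re)]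
  refine add_le_add (h _ fun z hz => ?_) ?_
  · rw [Finset.mem_filter, Finset.mem_filter] at hz
    exact ⟨hz.1.2, hS z hz.1.1, hz.2⟩
  · have h1 := h (((S.filter (fun s => XX s = 0)).filter (fun s => ¬ 0 ≤ s.re)).image (fun z => -z)) (fun z hz => by
      rw [Finset.mem_image] at hz
      obtain ⟨w, hw, rfl⟩ := hz
      rw [Finset.mem_filter, Finset.mem_filter] at hw
      refine ⟨?_, hP w (hS w hw.1.1), ?_⟩
      · rw [Pool.Agent.H24R2.JP.B1h.XX_neg]; exact hw.1.2
      · rw [Complex.neg_re]; linarith [not_le.1 hw.2])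
    rw [Finset.sum_image (fun a _ b _ hab => neg_injective hab)] at h1
    refine le_trans (le_of_eq (Finset.sum_congr rfl fun z _ => ?_)) h1
    rw [M_neg]

/-- zeros in a window -/
lemma window : ∃ C : ℝ, 0 < C ∧ ∀ (k : ℕ) (S : Finset ℂ), (∀ z ∈ S, (k : ℝ) ≤ |z.im| ∧ |z.im| ≤ k + 1) →
    ∑ z ∈ S, M z ≤ C * (1 + Real.log (k + 1)) := by
  classical
  refine ⟨2400, by norm_num, fun k S hS => ?_⟩
  have hk0 : (0 : ℝ) ≤ k := Nat.cast_nonneg k
  -- one sign
  have one : ∀ (t : ℝ), |t| ≤ k + 1 → ∀ S : Finset ℂ, (∀ z ∈ S, XX z = 0 ∧ 0 ≤ z.re ∧ |z.im - t| ≤ 1) →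
      ∑ z ∈ S, M z ≤ 600 * (1 + Real.log (k + 1)) := by
    intro t ht S hS
    have h1 := H353.local_count t (S.image fun z => 1 / 2 + z) (fun ρ hρ => by
      rw [Finset.mem_image] at hρ
      obtain ⟨z, hz, rfl⟩ := hρ
      obtain ⟨a1, a2, a3⟩ := hS z hz
      have e1 : (1 / 2 + z).re = 1 / 2 + z.re := by simp
      have e2 : (1 / 2 + z).im = z.im := by simp
      rw [e1, e2]
      refine ⟨?_, by linarith, a3⟩
      have h1 := XX_FF (z := z) (by linarith)
      rw [a1, zero_mul] at h1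
      rcases mul_eq_zero.1 h1.symm with h3 | h3
      · exfalso
        rcases mul_eq_zero.1 h3 with h4 | h4
        · norm_num at h4
        · have := congrArg Complex.re h4
          simp at this
          linarith
      · exact h3)
    rw [Finset.sum_image (fun a _ b _ hab => by simpa using hab)] at h1
    push_cast at h1
    have h2 : ∑ z ∈ S, M z = ∑ z ∈ S, (mu (1 / 2 + z) : ℝ) :=
      Finset.sum_congr rfl fun z hz => M_FF (by linarith [(hS z hz).2.1])
    rw [h2]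
    refine h1.trans ?_
    have h3 : 22 * (5 + |t|) ^ 2 ≤ (Real.exp 4.9) ^ 1 * 1 * (6 * (k + 1)) ^ 2 := by
      have e : (22 : ℝ) ≤ Real.exp 4.9 := by
        have := Real.add_one_le_exp (4.9 / 4 : ℝ)
        have e2 : Real.exp 4.9 = (Real.exp (4.9 / 4)) ^ 4 := by
          rw [← Real.exp_nat_mul]; norm_num
        rw [e2]
        calc (22 : ℝ) ≤ (4.9 / 4 + 1) ^ 4 := by norm_num
          _ ≤ _ := by gcongr
      have e3 : 5 + |t| ≤ 6 * (k + 1) := by linarith
      have e4 : 0 ≤ 5 + |t| := by positivity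
      rw [pow_one, mul_one]
      gcongr
    have h5 : Real.log (22 * (5 + |t|) ^ 2) ≤ 10 * (1 + Real.log (k + 1)) := by
      have e0 : 0 < 22 * (5 + |t|) ^ 2 := by positivity
      refine (Real.log_le_log e0 h3).trans ?_
      rw [pow_one, mul_one, Real.log_mul (Real.exp_pos _).ne' (by positivity), Real.log_exp, Real.log_pow,
        Real.log_mul (by norm_num) (by positivity)]
      have h6 : Real.log 6 ≤ 2 := by
        rw [Real.log_le_iff_le_exp (by norm_num)]
        have := Real.add_one_le_exp (1 : ℝ)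
        have e2 : Real.exp 2 = (Real.exp 1) ^ 2 := by
          rw [← Real.exp_nat_mul]; norm_num
        have e3 := Real.exp_one_gt_d9
        rw [e2]
        nlinarith
      have h7 : 0 ≤ Real.log ((k : ℝ) + 1) := Real.log_nonneg (by linarith)
      push_cast
      linarith
    linarith
  have h := fold (B := 1200 * (1 + Real.log (k + 1))) (fun z : ℂ => (k : ℝ) ≤ |z.im| ∧ |z.im| ≤ k + 1)
    (fun z hz => by rw [Complex.neg_im, abs_neg]; exact hz) (fun S hS => by
      rw [← Finset.sum_filter_add_sum_filter_not S (fun s => 0 ≤ s.im)]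
      have a1 := one (k + 1) (by rw [abs_of_nonneg (by linarith)]) (S.filter (fun s => 0 ≤ s.im)) (fun z hz => by
        rw [Finset.mem_filter] at hz
        obtain ⟨b1, ⟨b2, b3⟩, b4⟩ := hS z hz.1
        rw [abs_of_nonneg hz.2] at b2 b3
        exact ⟨b1, b4, by rw [abs_le]; constructor <;> linarith⟩)
      have a2 := one (-(k + 1)) (by rw [abs_neg, abs_of_nonneg (by linarith)]) (S.filter (fun s => ¬ 0 ≤ s.im))
        (fun z hz => by
        rw [Finset.mem_filter] at hz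
        obtain ⟨b1, ⟨b2, b3⟩, b4⟩ := hS z hz.1
        rw [abs_of_neg (not_le.1 hz.2)] at b2 b3
        exact ⟨b1, b4, by rw [abs_le]; constructor <;> linarith⟩)
      linarith) S hS
  linarith

/-- summability -/
lemma cnt (s : ℝ) (hs : 1 < s) : ∃ C : ℝ, 0 ≤ C ∧ ∀ S : Finset ℂ, ∑ z ∈ S, M z / (1 + |z.im|) ^ s ≤ C := by
  classical
  obtain ⟨C, hC, h⟩ := window
  have hsum : Summable (fun k : ℕ => C * (1 + Real.log (k + 1)) * (1 / ((k : ℝ) + 1) ^ s)) := by
    obtain ⟨e, he⟩ : ∃ e : ℝ, e = (s - 1) / 2 := ⟨_, rfl⟩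
    have he0 : 0 < e := by rw [he]; linarith
    have h1 : Summable (fun k : ℕ => C * (1 + 1 / e) * (1 / (((k + 1 : ℕ) : ℝ)) ^ (1 + e))) := by
      apply Summable.mul_left
      have h2 : Summable (fun k : ℕ => 1 / ((k : ℝ)) ^ (1 + e)) := Real.summable_one_div_nat_rpow.2 (by linarith)
      exact (summable_nat_add_iff 1).2 h2
    refine Summable.of_nonneg_of_le (fun k => ?_) (fun k => ?_) h1
    · have h7 : 0 ≤ Real.log ((k : ℝ) + 1) := Real.log_nonneg (by linarith [Nat.cast_nonneg (α := ℝ) k])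
      positivity
    · have hk : (1 : ℝ) ≤ (k : ℝ) + 1 := by linarith [Nat.cast_nonneg (α := ℝ) k]
      have h3 := Real.log_le_rpow_div (x := (k : ℝ) + 1) (by linarith) he0
      have h4 : 1 ≤ ((k : ℝ) + 1) ^ e := Real.one_le_rpow hk he0.le
      have h5 : 1 + Real.log ((k : ℝ) + 1) ≤ (1 + 1 / e) * ((k : ℝ) + 1) ^ e := by
        have : ((k : ℝ) + 1) ^ e / e = 1 / e * ((k : ℝ) + 1) ^ e := by ring
        rw [this] at h3
        nlinarith
      have h6 : ((k : ℝ) + 1) ^ s = ((k : ℝ) + 1) ^ (1 + e) * ((k : ℝ) + 1) ^ e := by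
        rw [← Real.rpow_add (by linarith)]
        congr 1
        rw [he]; ring
      push_cast
      rw [h6]
      have h7 : 0 < ((k : ℝ) + 1) ^ (1 + e) := by positivity
      have h8 : 0 < ((k : ℝ) + 1) ^ e := by positivity
      calc C * (1 + Real.log ((k : ℝ) + 1)) * (1 / (((k : ℝ) + 1) ^ (1 + e) * ((k : ℝ) + 1) ^ e))
          ≤ C * ((1 + 1 / e) * ((k : ℝ) + 1) ^ e) * (1 / (((k : ℝ) + 1) ^ (1 + e) * ((k : ℝ) + 1) ^ e)) := by gcongr
        _ = _ := by field_simp
  refine ⟨∑' k : ℕ, C * (1 + Real.log (k + 1)) * (1 / ((k : ℝ) + 1) ^ s), tsum_nonneg fun k => by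
    have h7 : 0 ≤ Real.log ((k : ℝ) + 1) := Real.log_nonneg (by linarith [Nat.cast_nonneg (α := ℝ) k])
    positivity, fun S => ?_⟩
  rw [← Finset.sum_fiberwise_of_maps_to (s := S) (t := S.image fun z => ⌊|z.im|⌋₊)
    (g := fun z => ⌊|z.im|⌋₊) (fun z hz => Finset.mem_image_of_mem _ hz)]
  refine le_trans (Finset.sum_le_sum fun k _ => ?_) (hsum.sum_le_tsum _ fun k _ => by
    have h7 : 0 ≤ Real.log ((k : ℝ) + 1) := Real.log_nonneg (by linarith [Nat.cast_nonneg (α := ℝ) k])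
    positivity)
  have hb : ∀ z ∈ S.filter (fun z => ⌊|z.im|⌋₊ = k), (k : ℝ) ≤ |z.im| ∧ |z.im| ≤ k + 1 := by
    intro z hz
    rw [Finset.mem_filter] at hz
    rw [← hz.2]
    exact ⟨Nat.floor_le (abs_nonneg _), (Nat.lt_floor_add_one _).le⟩
  have h2 := h k _ hb
  calc ∑ z ∈ S.filter (fun z => ⌊|z.im|⌋₊ = k), M z / (1 + |z.im|) ^ s
      ≤ ∑ z ∈ S.filter (fun z => ⌊|z.im|⌋₊ = k), M z * (1 / ((k : ℝ) + 1) ^ s) := by
        refine Finset.sum_le_sum fun z hz => ?_
        rw [div_eq_mul_one_div]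
        apply mul_le_mul_of_nonneg_left _ (M_nn z)
        apply one_div_le_one_div_of_le (by positivity)
        apply Real.rpow_le_rpow (by positivity) _ (by linarith)
        linarith [(hb z hz).1]
    _ = (∑ z ∈ S.filter (fun z => ⌊|z.im|⌋₊ = k), M z) * (1 / ((k : ℝ) + 1) ^ s) := by rw [Finset.sum_mul]
    _ ≤ _ := by gcongr

/-- the number of zeros up to height `T` -/
lemma cnt0 {ε : ℝ} (hε : 0 < ε) : ∃ C : ℝ, 0 ≤ C ∧ ∀ T : ℝ, 1 ≤ T → ∀ S : Finset ℂ,
    (∀ z ∈ S, |z.im| ≤ T) → ∑ z ∈ S, M z ≤ C * T ^ (1 + ε) := by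
  obtain ⟨C, hC, h⟩ := cnt (1 + ε) (by linarith)
  refine ⟨C * 2 ^ (1 + ε), by positivity, fun T hT S hS => ?_⟩
  have h1 : ∑ z ∈ S, M z ≤ (∑ z ∈ S, M z / (1 + |z.im|) ^ (1 + ε)) * (2 * T) ^ (1 + ε) := by
    rw [Finset.sum_mul]
    refine Finset.sum_le_sum fun z hz => ?_
    have h2 : (1 + |z.im|) ^ (1 + ε) ≤ (2 * T) ^ (1 + ε) := by
      apply Real.rpow_le_rpow (by positivity) _ (by linarith)
      linarith [hS z hz]
    have h3 : 0 < (1 + |z.im|) ^ (1 + ε) := by positivity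
    rw [div_mul_eq_mul_div, le_div_iff₀ h3]
    exact mul_le_mul_of_nonneg_left h2 (M_nn z)
  refine h1.trans ?_
  rw [Real.mul_rpow (by norm_num) (by linarith)]
  calc (∑ z ∈ S, M z / (1 + |z.im|) ^ (1 + ε)) * (2 ^ (1 + ε) * T ^ (1 + ε)) ≤
      C * (2 ^ (1 + ε) * T ^ (1 + ε)) := mul_le_mul_of_nonneg_right (h S) (by positivity)
    _ = _ := by ring

/-- the density theorem of Carlson -/
lemma cntD {δ ε : ℝ} (hδ : 0 ≤ δ) (hδ2 : δ ≤ 1 / 2) (hε : 0 < ε) : ∃ C : ℝ, 0 ≤ C ∧ ∀ T : ℝ, 1 ≤ T →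
    ∀ S : Finset ℂ, (∀ z ∈ S, δ ≤ |z.re| ∧ |z.im| ≤ T) → ∑ z ∈ S, M z ≤ C * T ^ (1 - 4 * δ ^ 2 + ε) := by
  classical
  rcases hδ.eq_or_lt with h0 | h0
  · obtain ⟨C, hC, h⟩ := cnt0 hε
    refine ⟨C, hC, fun T hT S hS => ?_⟩
    have := h T hT S fun z hz => (hS z hz).2
    rw [← h0]
    have e : 1 - 4 * (0 : ℝ) ^ 2 + ε = 1 + ε := by ring
    rw [e]
    exact this
  rcases hδ2.eq_or_lt with h1 | h1
  · -- no zeros
    refine ⟨0, le_rfl, fun T hT S hS => ?_⟩
    rw [zero_mul]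
    refine (Finset.sum_eq_zero fun z hz => ?_).le
    by_contra h2
    have h3 := XX_strip (M_zero h2)
    have h4 := (hS z hz).1
    linarith
  · obtain ⟨C, hC, h⟩ := Pool.Agent.W190.carlson (1 / 2 + δ) ε (by linarith) (by linarith) hε
    have e : 4 * (1 / 2 + δ) * (1 - (1 / 2 + δ)) + ε = 1 - 4 * δ ^ 2 + ε := by ring
    rw [e] at h
    refine ⟨C + C, by positivity, fun T hT S hS => ?_⟩
    rw [add_mul]
    refine fold (fun z : ℂ => δ ≤ |z.re| ∧ |z.im| ≤ T)
      (fun z hz => by rw [Complex.neg_re, Complex.neg_im, abs_neg, abs_neg]; exact hz) (fun S hS => ?_) S hS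
    have h1 := h T hT (S.image fun z => 1 / 2 + z) (fun ρ hρ => by
      rw [Finset.mem_image] at hρ
      obtain ⟨z, hz, rfl⟩ := hρ
      obtain ⟨a1, ⟨a2, a4⟩, a3⟩ := hS z hz
      have e1 : (1 / 2 + z).re = 1 / 2 + z.re := by simp
      have e2 : (1 / 2 + z).im = z.im := by simp
      rw [e1, e2]
      rw [abs_of_nonneg a3] at a2
      refine ⟨?_, by linarith, a4⟩
      have h1 := XX_FF (z := z) (by linarith)
      rw [a1, zero_mul] at h1
      rcases mul_eq_zero.1 h1.symm with h3 | h3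
      · exfalso
        rcases mul_eq_zero.1 h3 with h4 | h4
        · norm_num at h4
        · have := congrArg Complex.re h4
          simp at this
          linarith
      · exact h3)
    rw [Finset.sum_image (fun a _ b _ hab => by simpa using hab)] at h1
    refine le_trans (le_of_eq (Finset.sum_congr rfl fun z hz => ?_)) h1
    exact M_FF (by linarith [(hS z hz).2.2])

/-- many zeros in dyadic intervals -/
lemma low : ∃ c : ℝ, 0 < c ∧ ∃ Y0 : ℝ, 1 ≤ Y0 ∧ ∀ Y : ℝ, Y0 ≤ Y → ∃ S : Finset ℂ,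
    (∀ z ∈ S, Y < z.im ∧ z.im ≤ 2 * Y) ∧ c * Y * Real.log Y ≤ ∑ z ∈ S, M z := by
  classical
  have hG := H370.good_zeta
  obtain ⟨C, T0, hC, hT0, h⟩ := H370.nn_asymp hG
  have hpi := Real.pi_pos
  refine ⟨1 / (4 * Real.pi), by positivity, max T0 (Real.exp (4 * Real.pi * C)), ?_, fun Y hY => ?_⟩
  · exact le_trans (by linarith) (le_max_left _ _)
  have hY0 : T0 ≤ Y := (le_max_left _ _).trans hY
  have hYe : Real.exp (4 * Real.pi * C) ≤ Y := (le_max_right _ _).trans hY
  have hYp : 0 < Y := by linarith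
  have h1 := h Y hY0 Y (2 * Y) le_rfl (by linarith) (by linarith) le_rfl
  have h2 := (abs_le.1 h1).1
  rw [H370.NN_eq_sum hG Y (2 * Y) (by linarith)] at h2
  refine ⟨(H370.zset_finite hG Y (2 * Y) (by linarith)).toFinset.image (fun s => s - 1 / 2), ?_, ?_⟩
  · intro z hz
    rw [Finset.mem_image] at hz
    obtain ⟨s, hs, rfl⟩ := hz
    rw [Set.Finite.mem_toFinset] at hs
    obtain ⟨a1, a2, a3, a4, -⟩ := hs
    have e2 : (s - 1 / 2).im = s.im := by simp
    rw [e2]
    exact ⟨a3, a4⟩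
  · rw [Finset.sum_image (fun a _ b _ hab => sub_left_injective hab)]
    have h3 : ∑ s ∈ (H370.zset_finite hG Y (2 * Y) (by linarith)).toFinset, M (s - 1 / 2) =
        ((∑ s ∈ (H370.zset_finite hG Y (2 * Y) (by linarith)).toFinset, H370.mult riemannZeta s : ℕ) : ℝ) := by
      push_cast
      refine Finset.sum_congr rfl fun s hs => ?_
      rw [Set.Finite.mem_toFinset] at hs
      obtain ⟨a1, a2, a3, a4, -⟩ := hs
      have e1 : (s - 1 / 2).re = s.re - 1 / 2 := by simp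
      rw [M_FF (by rw [e1]; linarith)]
      have e3 : (1 / 2 + (s - 1 / 2) : ℂ) = s := by ring
      rw [e3]
      unfold mu H370.mult analyticOrderNatAt
      rw [ord_zeta]
      intro h5
      rw [h5] at a2
      norm_num at a2
    rw [h3]
    have h4 : 4 * Real.pi * C ≤ Real.log Y := by
      rw [Real.le_log_iff_exp_le hYp]; exact hYe
    have h5 : C * Y ≤ Y * Real.log Y / (4 * Real.pi) := by
      rw [le_div_iff₀ (by positivity)]
      nlinarith
    have h6 : Y * Real.log Y / (2 * Real.pi) = 2 * (Y * Real.log Y / (4 * Real.pi)) := by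
      field_simp; ring
    have h7 : 1 / (4 * Real.pi) * Y * Real.log Y = Y * Real.log Y / (4 * Real.pi) := by ring
    rw [h7]
    linarith

/-- the zeros of zeta as abstract data -/
theorem zs : Zs M :=
  ⟨M_nn, fun _ hz => M_one (M_zero hz), fun _ hz => XX_strip (M_zero hz), M_conj, M_neg, cnt, low⟩

end Run7.h578.LZ
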