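import Pool.Agent.Run7.h578.LZ2
import Pool.Agent.N831.LI.Conv
import Pool.Agent.N831.LI.Neg
import Pool.Agent.N831.LI.Sum
import Pool.Agent.W190.A17

/-!
# Li coefficients of zeta with a base point: the density hypothesis and the theorem
-/

set_option autoImplicit false

open Complex Filter Topology Finset
open scoped ComplexConjugate

namespace Run7.h578.LZ

open Pool.Agent.H24R2.JP (XX)
open Pool.Agent.N831.LI (Zs Dn li W)

/-- from counting functions to the density hypothesis -/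
theorem dn {κ : ℝ} (hκ : 0 < κ) {δ0 : ℝ} (h0 : 0 ≤ δ0) (h02 : δ0 ≤ 1 / 2) (hz : ∀ z, XX z = 0 → |z.re| ≤ δ0)
    (hc : ∀ δ : ℝ, 0 ≤ δ → δ ≤ δ0 → 1 - 4 * δ ^ 2 + 2 * κ * δ < 2) : Dn M κ := by
  classical
  -- the minimum
  obtain ⟨x, hx, hmin⟩ := isCompact_Icc.exists_isMinOn (s := Set.Icc 0 δ0)
    (f := fun δ : ℝ => 2 - (1 - 4 * δ ^ 2 + 2 * κ * δ)) ⟨0, le_rfl, h0⟩ (by fun_prop)
  obtain ⟨m0, hm0⟩ : ∃ m0 : ℝ, m0 = 2 - (1 - 4 * x ^ 2 + 2 * κ * x) := ⟨_, rfl⟩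
  have hm0p : 0 < m0 := by
    have := hc x hx.1 hx.2
    rw [hm0]; linarith
  have hmin' : ∀ δ, 0 ≤ δ → δ ≤ δ0 → m0 ≤ 2 - (1 - 4 * δ ^ 2 + 2 * κ * δ) := fun δ h1 h2 => by
    rw [hm0]
    exact hmin (⟨h1, h2⟩ : δ ∈ Set.Icc 0 δ0)
  obtain ⟨η, hη⟩ : ∃ η : ℝ, η = m0 / 4 := ⟨_, rfl⟩
  have hη0 : 0 < η := by rw [hη]; linarith
  obtain ⟨J, hJ⟩ := exists_nat_gt (max 1 (κ / η))
  have hJ1 : (1 : ℝ) < J := (le_max_left _ _).trans_lt hJ
  have hJκ : κ / η < J := (le_max_right _ _).trans_lt hJ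
  obtain ⟨μ, hμ⟩ : ∃ μ : ℝ, μ = 1 / (2 * J) := ⟨_, rfl⟩
  have hμ0 : 0 < μ := by rw [hμ]; positivity
  have hκμ : 2 * κ * μ ≤ η := by
    rw [div_lt_iff₀ hη0] at hJκ
    rw [hμ]
    have : 2 * κ * (1 / (2 * J)) = κ / J := by field_simp
    rw [this, div_le_iff₀ (by linarith)]
    linarith
  have hJμ : J * μ = 1 / 2 := by rw [hμ]; field_simp
  -- each layer
  have hlayer : ∀ j : ℕ, ∃ C : ℝ, 0 ≤ C ∧ ∀ T : ℝ, 1 ≤ T → ∀ S : Finset ℂ,
      (∀ z ∈ S, XX z = 0 ∧ |z.im| ≤ T ∧ j * μ ≤ |z.re| ∧ |z.re| < (j + 1) * μ) →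
      ∑ z ∈ S, M z * T ^ (2 * κ * |z.re|) ≤ C * T ^ (2 - η) := by
    intro j
    by_cases hj : (j : ℝ) * μ ≤ δ0
    swap
    · refine ⟨0, le_rfl, fun T hT S hS => ?_⟩
      rw [zero_mul]
      refine (Finset.sum_eq_zero fun z hz1 => ?_).le
      exfalso
      obtain ⟨a1, a2, a3, a4⟩ := hS z hz1
      exact hj (a3.trans (hz z a1))
    have hjμ0 : (0:ℝ) ≤ j * μ := by positivity
    have hf := hmin' (j * μ) hjμ0 hj
    obtain ⟨C, hC, hcn⟩ := cntD hjμ0 (hj.trans h02) hη0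
    refine ⟨C, hC, fun T hT S hS => ?_⟩
    have hT0 : 0 < T := by linarith
    calc ∑ z ∈ S, M z * T ^ (2 * κ * |z.re|)
        ≤ ∑ z ∈ S, M z * T ^ (2 * κ * (j * μ) + η) := by
          refine Finset.sum_le_sum fun z hz1 => ?_
          have h3 := (hS z hz1).2.2.2
          apply mul_le_mul_of_nonneg_left _ (M_nn z)
          apply Real.rpow_le_rpow_of_exponent_le hT
          nlinarith
      _ = (∑ z ∈ S, M z) * T ^ (2 * κ * (j * μ) + η) := by rw [Finset.sum_mul]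
      _ ≤ (C * T ^ (1 - 4 * (j * μ) ^ 2 + η)) * T ^ (2 * κ * (j * μ) + η) := by
          gcongr
          exact hcn T hT S fun z hz1 => ⟨(hS z hz1).2.2.1, (hS z hz1).2.1⟩
      _ = C * T ^ ((1 - 4 * (j * μ) ^ 2 + η) + (2 * κ * (j * μ) + η)) := by
          rw [mul_assoc, ← Real.rpow_add hT0]
      _ ≤ C * T ^ (2 - η) := by
          gcongr
          linarith
  choose Cj hCj0 hCj using hlayer
  refine ⟨η, hη0, ∑ j ∈ range (J + 1), Cj j, Finset.sum_nonneg fun j _ => hCj0 j, fun T hT S hS => ?_⟩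
  have hT0 : 0 < T := by linarith
  rw [restrict S (fun z => T ^ (2 * κ * |z.re|))]
  rw [← Finset.sum_fiberwise_of_maps_to (s := S.filter (fun z => XX z = 0)) (t := range (J + 1))
    (g := fun z => ⌊|z.re| / μ⌋₊) (fun z hz1 => by
      rw [Finset.mem_filter] at hz1
      rw [Finset.mem_range, Nat.floor_lt (by positivity), div_lt_iff₀ hμ0]
      have h3 := (hz z hz1.2).trans h02
      push_cast
      rw [add_mul, hJμ, one_mul]
      linarith)]
  rw [Finset.sum_mul]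
  refine Finset.sum_le_sum fun j _ => ?_
  refine hCj j T hT _ fun z hz1 => ?_
  rw [Finset.mem_filter, Finset.mem_filter] at hz1
  have h3 : (j : ℝ) ≤ |z.re| / μ := by
    rw [← hz1.2]
    exact Nat.floor_le (by positivity)
  have h4 : |z.re| / μ < j + 1 := by
    rw [← hz1.2]
    exact Nat.lt_floor_add_one _
  rw [le_div_iff₀ hμ0] at h3
  rw [div_lt_iff₀ hμ0] at h4
  exact ⟨hz1.1.2, hS z hz1.1.1, h3, h4⟩

/-! ### the coefficients of zeta -/

/-- the nontrivial zeros -/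
def NT : Set ℂ := {ρ : ℂ | riemannZeta ρ = 0 ∧ 0 < ρ.re ∧ ρ.re < 1}

/-- The term of the zero `ρ`. -/
noncomputable def term (a : ℝ) (n : ℕ) (ρ : ℂ) : ℝ :=
  (analyticOrderNatAt riemannZeta ρ : ℝ) * (1 - ((ρ - a) / (ρ + a - 1)) ^ n).re

/-- The Li coefficient with base point `a`. -/
noncomputable def liz (a : ℝ) (n : ℕ) : ℝ := ∑' ρ : NT, term a n ρ

lemma mem_NT {z : ℂ} : 1 / 2 + z ∈ NT ↔ XX z = 0 := by
  have e1 : (1 / 2 + z).re = 1 / 2 + z.re := by simp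
  constructor
  · rintro ⟨h1, h2, h3⟩
    rw [e1] at h2 h3
    have h4 := XX_FF (z := z) (by linarith)
    have h5 : (1 / 2 + z) ≠ 1 := fun h => by rw [← e1, h] at h3; norm_num at h3
    rw [FF_eq h5, h1, mul_zero, mul_zero] at h4
    rcases mul_eq_zero.1 h4 with h6 | h6
    · exact h6
    · exfalso
      exact GR_ne (s := 1 / 2 + z) (by rw [e1]; linarith) h6
  · intro h
    have h1 := abs_lt.1 (XX_strip h)
    have h4 := XX_FF (z := z) (by linarith [h1.1])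
    have h5 : (1 / 2 + z) ≠ 1 := fun h => by
      have := h1.2
      have h6 : (1 / 2 + z).re = 1 := by rw [h]; simp
      rw [e1] at h6
      linarith
    rw [FF_eq h5, h, zero_mul] at h4
    refine ⟨?_, by rw [e1]; linarith [h1.1], by rw [e1]; linarith [h1.2]⟩
    rcases mul_eq_zero.1 h4.symm with h6 | h6
    · exfalso
      rcases mul_eq_zero.1 h6 with h7 | h7
      · norm_num at h7
      · have := congrArg Complex.re h7
        rw [e1] at this
        simp at this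
        linarith [h1.1]
    · rcases mul_eq_zero.1 h6 with h7 | h7
      · exact absurd h7 (sub_ne_zero.2 h5)
      · exact h7

lemma term_eq {z : ℂ} (hz : XX z = 0) (a : ℝ) (n : ℕ) :
    term a n (1 / 2 + z) = M z * (1 - (W (a - 1 / 2) z ^ n).re) := by
  have h1 := abs_lt.1 (XX_strip hz)
  have e1 : (1 / 2 + z).re = 1 / 2 + z.re := by simp
  have h5 : (1 / 2 + z) ≠ 1 := fun h => by
    have := h1.2
    have h6 : (1 / 2 + z).re = 1 := by rw [h]; simp
    rw [e1] at h6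
    linarith
  unfold term
  have h2 : (analyticOrderNatAt riemannZeta (1 / 2 + z) : ℝ) = M z := by
    unfold M analyticOrderNatAt
    rw [ord_FF (by linarith [h1.1]), ord_zeta h5]
  rw [h2, Complex.sub_re, Complex.one_re]
  unfold W
  have e3 : (1 / 2 + z) - (a : ℂ) = z - ((a - 1 / 2 : ℝ) : ℂ) := by push_cast; ring
  have e4 : (1 / 2 + z) + (a : ℂ) - 1 = z + ((a - 1 / 2 : ℝ) : ℂ) := by push_cast; ring
  rw [e3, e4]

lemma ind_eq (a : ℝ) (n : ℕ) (z : ℂ) :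
    NT.indicator (term a n) ((Equiv.addLeft (1 / 2 : ℂ)) z) = M z * (1 - (W (a - 1 / 2) z ^ n).re) := by
  have e : (Equiv.addLeft (1 / 2 : ℂ)) z = 1 / 2 + z := rfl
  rw [e]
  by_cases h : XX z = 0
  · rw [Set.indicator_of_mem (mem_NT.2 h), term_eq h]
  · rw [Set.indicator_of_notMem (fun h1 => h (mem_NT.1 h1))]
    have : M z = 0 := by
      by_contra h1
      exact h (M_zero h1)
    rw [this, zero_mul]

lemma liz_eq (a : ℝ) (n : ℕ) : liz a n = li M (a - 1 / 2) n := by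
  unfold liz li
  rw [tsum_subtype NT (term a n), ← (Equiv.addLeft (1 / 2 : ℂ)).tsum_eq]
  exact tsum_congr fun z => ind_eq a n z

lemma summable_term {a : ℝ} (ha : 3 / 2 ≤ a) (n : ℕ) : Summable fun ρ : NT => term a n ρ := by
  have h1 := Pool.Agent.N831.LI.summ zs (b := a - 1 / 2) (by linarith) n
  have h2 : Summable (NT.indicator (term a n)) := by
    rw [← (Equiv.addLeft (1 / 2 : ℂ)).summable_iff]
    exact h1.congr fun z => (ind_eq a n z).symm
  exact (summable_subtype_iff_indicator (f := term a n) (s := NT)).2 h2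

/-! ### statements -/

/-- The coefficients with `n ≤ κ a log a` are at least `c n a log a`, for all large `a`. -/
def Large (κ : ℝ) : Prop := ∃ c : ℝ, 0 < c ∧ ∀ᶠ a : ℝ in atTop, ∀ n : ℕ, 1 ≤ n →
  (n : ℝ) ≤ κ * a * Real.log a → c * n * a * Real.log a ≤ liz a n

/-- The coefficients with `n ≤ κ a log a` are nonnegative, for arbitrarily large `a`. -/
def Some (κ : ℝ) : Prop := ∃ᶠ a : ℝ in atTop, ∀ n : ℕ, 1 ≤ n →
  (n : ℝ) ≤ κ * a * Real.log a → 0 ≤ liz a n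

lemma asy_le {κ κ' : ℝ} (hκ : 0 < κ) (h : κ < κ') : ∀ᶠ a : ℝ in atTop,
    κ * a * Real.log a ≤ κ' * (a - 1 / 2) * Real.log (a - 1 / 2) := by
  obtain ⟨d, hd0, hd1, hd⟩ : ∃ d : ℝ, 0 < d ∧ d < 1 ∧ κ ≤ κ' * (1 - d) ^ 2 := by
    have hκ' : 0 < κ' := by linarith
    have hk : 0 < (κ' - κ) / (2 * κ') := by apply div_pos <;> linarith
    have hk1 : (κ' - κ) / (2 * κ') < 1 := by rw [div_lt_one (by linarith)]; linarith
    refine ⟨(κ' - κ) / (2 * κ'), hk, hk1, ?_⟩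
    obtain ⟨e, he⟩ : ∃ e : ℝ, e = (κ' - κ) / (2 * κ') := ⟨_, rfl⟩
    rw [← he]
    have h2 : 2 * κ' * e = κ' - κ := by rw [he]; field_simp
    nlinarith [sq_nonneg e]
  have e1 : ∀ᶠ a : ℝ in atTop, 1 / d ≤ a := eventually_ge_atTop _
  have e2 := Real.tendsto_log_atTop.eventually_ge_atTop (Real.log 2 / d)
  filter_upwards [e1, e2, eventually_ge_atTop (1 : ℝ)] with a h1 h2 ha1
  rw [div_le_iff₀ hd0] at h1 h2
  have hL : 0 ≤ Real.log a := Real.log_nonneg ha1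
  have h4 : (1 - d) * a ≤ a - 1 / 2 := by linarith
  have h5 : (1 - d) * Real.log a ≤ Real.log (a - 1 / 2) := by
    have h6 : Real.log (a / 2) ≤ Real.log (a - 1 / 2) := Real.log_le_log (by positivity) (by linarith)
    rw [Real.log_div (by positivity) (by norm_num)] at h6
    linarith
  have h7 : 0 ≤ (1 - d) * a := by
    have : 0 ≤ 1 - d := by linarith
    positivity
  have h8 : 0 ≤ (1 - d) * Real.log a := mul_nonneg (by linarith) hL
  have h9 : ((1 - d) * a) * ((1 - d) * Real.log a) ≤ (a - 1 / 2) * Real.log (a - 1 / 2) :=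
    mul_le_mul h4 h5 h8 (h7.trans h4)
  have h10 : κ * (a * Real.log a) ≤ κ' * (1 - d) ^ 2 * (a * Real.log a) :=
    mul_le_mul_of_nonneg_right hd (by positivity)
  have hκ' : 0 < κ' := by linarith
  calc κ * a * Real.log a = κ * (a * Real.log a) := by ring
    _ ≤ κ' * (1 - d) ^ 2 * (a * Real.log a) := h10
    _ = κ' * (((1 - d) * a) * ((1 - d) * Real.log a)) := by ring
    _ ≤ κ' * ((a - 1 / 2) * Real.log (a - 1 / 2)) := by gcongr
    _ = _ := by ring

lemma asy_ge {κ : ℝ} (hκ : 0 < κ) : ∀ᶠ a : ℝ in atTop,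
    κ * (a - 1 / 2) * Real.log (a - 1 / 2) ≤ κ * a * Real.log a := by
  filter_upwards [eventually_ge_atTop (2 : ℝ)] with a ha
  have h1 : Real.log (a - 1 / 2) ≤ Real.log a := Real.log_le_log (by linarith) (by linarith)
  have h2 : 0 ≤ Real.log a := Real.log_nonneg (by linarith)
  have h3 : 0 ≤ a - 1 / 2 := by linarith
  have h4 : a - 1 / 2 ≤ a := by linarith
  calc κ * (a - 1 / 2) * Real.log (a - 1 / 2) ≤ κ * (a - 1 / 2) * Real.log a := by gcongr
    _ ≤ κ * a * Real.log a := by gcongr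

lemma shift_tendsto : Tendsto (fun a : ℝ => a - 1 / 2) atTop atTop := by
  have := tendsto_atTop_add_const_right atTop (-(1 / 2 : ℝ)) tendsto_id
  simpa [sub_eq_add_neg] using this

/-- positivity -/
theorem pos {κ κ' : ℝ} (hκ : 0 < κ) (hκκ : κ < κ') {δ0 : ℝ} (h0 : 0 ≤ δ0)
    (h02 : δ0 ≤ 1 / 2) (hz : ∀ z, XX z = 0 → |z.re| ≤ δ0)
    (hc : ∀ δ : ℝ, 0 ≤ δ → δ ≤ δ0 → 1 - 4 * δ ^ 2 + 2 * κ' * δ < 2) : Large κ := by
  have hκ' : 0 < κ' := by linarith
  obtain ⟨c, hcp, h1⟩ := Pool.Agent.N831.LI.direct zs hκ' (dn hκ' h0 h02 hz hc)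
  refine ⟨c / 2, by positivity, ?_⟩
  filter_upwards [shift_tendsto.eventually h1, asy_le hκ hκκ, asy_le (κ := 1 / 2) (κ' := 1) (by norm_num)
    (by norm_num), eventually_ge_atTop (1 : ℝ)] with a k1 k2 k3 k4
  intro n hn hnk
  have h2 := k1 n hn (hnk.trans k2)
  rw [liz_eq]
  have hn0 : (0 : ℝ) ≤ n := Nat.cast_nonneg n
  have h3 : c * n * (1 / 2 * a * Real.log a) ≤ c * n * (1 * (a - 1 / 2) * Real.log (a - 1 / 2)) :=
    mul_le_mul_of_nonneg_left k3 (by positivity)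
  linarith

/-- negativity -/
theorem neg {κ : ℝ} (hκ : 0 < κ) {s : ℂ} (hs : riemannZeta s = 0) (hre : 1 / 2 + 1 / κ < s.re) :
    ∀ᶠ a : ℝ in atTop, ∃ n : ℕ, 1 ≤ n ∧ (n : ℝ) ≤ κ * a * Real.log a ∧ liz a n < 0 := by
  have hk : 0 < 1 / κ := by positivity
  have h1 : s.re < 1 := by
    by_contra h
    exact riemannZeta_ne_zero_of_one_le_re (not_lt.1 h) hs
  have h2 : s ∈ NT := ⟨hs, by linarith, h1⟩
  have e : s = 1 / 2 + (s - 1 / 2) := by ring
  rw [e] at h2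
  have h3 := mem_NT.1 h2
  have h4 : M (s - 1 / 2) ≠ 0 := by
    have := M_one h3
    intro h
    rw [h] at this
    norm_num at this
  have e1 : (s - 1 / 2).re = s.re - 1 / 2 := by simp
  have h5 := Pool.Agent.N831.LI.converse zs hκ h4 (by
    rw [e1, abs_of_pos (by linarith)]
    have : 1 / κ < s.re - 1 / 2 := by linarith
    rw [div_lt_iff₀ hκ] at this
    linarith)
  filter_upwards [shift_tendsto.eventually h5, asy_ge hκ] with a ⟨n, hn, hnk, hneg⟩ k2
  refine ⟨n, hn, hnk.trans k2, ?_⟩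
  rw [liz_eq]
  exact hneg

/-- `ζ` has no zeros with `Re s > θ`. -/
def ZeroFree (θ : ℝ) : Prop := ∀ s : ℂ, θ < s.re → riemannZeta s ≠ 0

lemma strip_of {θ : ℝ} (h : ZeroFree (1 / 2 + θ)) (z : ℂ) (hz : XX z = 0) : |z.re| ≤ θ := by
  have key : ∀ w : ℂ, XX w = 0 → w.re ≤ θ := by
    intro w hw
    by_contra h1
    push Not at h1
    refine h (1 / 2 + w) ?_ (mem_NT.2 hw).1
    have e1 : (1 / 2 + w).re = 1 / 2 + w.re := by simp
    rw [e1]
    linarith
  rw [abs_le]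
  refine ⟨?_, key z hz⟩
  have := key (-z) (by rw [Pool.Agent.H24R2.JP.B1h.XX_neg]; exact hz)
  rw [Complex.neg_re] at this
  linarith

lemma large_mono {κ κ' : ℝ} (h : κ ≤ κ') (h1 : Large κ') : Large κ := by
  obtain ⟨c, hc, h1⟩ := h1
  refine ⟨c, hc, ?_⟩
  filter_upwards [h1, eventually_ge_atTop (1 : ℝ)] with a ha ha1 n hn hnk
  refine ha n hn (hnk.trans ?_)
  have h2 := Real.log_nonneg ha1
  gcongr

/-- zero-free half-planes -/
theorem quasi {d : ℝ} (hd : 0 < d) (hd2 : d ≤ 1 / 2) (hz : ∀ z, XX z = 0 → |z.re| ≤ d) {κ : ℝ}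
    (hκ : κ < 1 / (2 * d) + 2 * d) : Large κ := by
  have h4 : max κ 0 < 1 / (2 * d) + 2 * d := max_lt hκ (by positivity)
  obtain ⟨κ', h5, h6⟩ := exists_between h4
  obtain ⟨κ1, h7, h8⟩ := exists_between h5
  have h9 : 0 < κ1 := (le_max_right _ _).trans_lt h7
  have h10 : κ ≤ κ1 := (le_max_left _ _).trans h7.le
  refine large_mono h10 (pos h9 h8 hd.le hd2 hz fun δ h1 h2 => ?_)
  have h3 : 2 * d * κ' < 1 + 4 * d ^ 2 := by
    have : 2 * d * κ' < 2 * d * (1 / (2 * d) + 2 * d) := by gcongr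
    refine this.trans_le (le_of_eq ?_)
    field_simp
    ring
  have h11 : 0 < κ' := h9.trans h8
  -- the function `2 κ' δ - 4 δ²` at `δ ≤ d`
  rcases h1.eq_or_lt with h1' | h1'
  · rw [← h1']
    norm_num
  · -- multiply by `d`
    have h12 : d * (2 * κ' * δ - 4 * δ ^ 2) < d := by
      have h13 : 2 * d * κ' * δ < (1 + 4 * d ^ 2) * δ := by gcongr
      have h14 : (d - δ) * (1 - 4 * d * δ) ≥ 0 := by
        apply mul_nonneg (by linarith)
        nlinarith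
      nlinarith
    have h15 : 2 * κ' * δ - 4 * δ ^ 2 < 1 := by
      by_contra hcon
      push Not at hcon
      nlinarith
    linarith

theorem large_some {κ : ℝ} (h : Large κ) : Some κ := by
  obtain ⟨c, hc, h1⟩ := h
  refine Eventually.frequently ?_
  filter_upwards [h1, eventually_ge_atTop (1 : ℝ)] with a ha ha1 n hn hnk
  have h2 := Real.log_nonneg ha1
  have : 0 ≤ c * n * a * Real.log a := by positivity
  exact this.trans (ha n hn hnk)

theorem zeroFree_of {κ : ℝ} (hκ : 0 < κ) (hn : Some κ) : ZeroFree (1 / 2 + 1 / κ) := by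
  intro s hs h0
  obtain ⟨a, ha1, ha2⟩ := (hn.and_eventually (neg hκ h0 hs)).exists
  obtain ⟨n, hn, hnk, hneg⟩ := ha2
  have := ha1 n hn hnk
  linarith

theorem main1 {κ : ℝ} (hκ : κ < 2) : Large κ := by
  refine quasi (d := 1 / 2) (by norm_num) le_rfl (fun z hz => (XX_strip hz).le) ?_
  norm_num
  exact hκ

theorem main_half : (∃ θ : ℝ, θ < 1 ∧ ZeroFree θ) → ∃ κ : ℝ, 2 < κ ∧ Large κ := by
  rintro ⟨θ, hθ, hz⟩
  obtain ⟨d, hd⟩ : ∃ d : ℝ, d = max (θ - 1 / 2) (1 / 4) := ⟨_, rfl⟩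
  have h1 : d < 1 / 2 := by rw [hd]; exact max_lt (by linarith) (by norm_num)
  have h2 : 0 < d := by rw [hd]; exact lt_of_lt_of_le (by norm_num) (le_max_right _ _)
  have hz' : ZeroFree (1 / 2 + d) := fun s hs => hz s (by
    have := le_max_left (θ - 1 / 2) (1 / 4)
    rw [← hd] at this
    linarith)
  have h3 : 2 < 1 / (2 * d) + 2 * d := by
    rw [← sub_pos]
    have : 1 / (2 * d) + 2 * d - 2 = (1 - 2 * d) ^ 2 / (2 * d) := by
      field_simp
      ring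
    rw [this]
    have : 0 < 1 - 2 * d := by linarith
    positivity
  obtain ⟨κ, h4, h5⟩ := exists_between h3
  exact ⟨κ, h4, quasi h2 h1.le (strip_of hz') h5⟩

theorem main_half' : (∃ κ : ℝ, 2 < κ ∧ Some κ) → ∃ θ : ℝ, θ < 1 ∧ ZeroFree θ := by
  rintro ⟨κ, h1, h2⟩
  refine ⟨1 / 2 + 1 / κ, ?_, zeroFree_of (by linarith) h2⟩
  have := one_div_lt_one_div_of_lt (by norm_num) h1
  linarith

theorem rh1 (h : RiemannHypothesis) (κ : ℝ) : Large κ := by
  rw [Pool.Agent.W190.rh_free] at h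
  obtain ⟨d, hd⟩ : ∃ d : ℝ, d = 1 / (2 * (|κ| + 2)) := ⟨_, rfl⟩
  have hκ0' := abs_nonneg κ
  have hd0 : 0 < d := by rw [hd]; positivity
  have hd1 : d ≤ 1 / 2 := by rw [hd]; exact one_div_le_one_div_of_le (by norm_num) (by linarith)
  refine quasi hd0 hd1 (strip_of fun s hs => h s (by linarith)) ?_
  have h1 : 1 / (2 * d) = |κ| + 2 := by rw [hd]; field_simp
  rw [h1]
  have := le_abs_self κ
  linarith

theorem rh2 (h : ∀ κ : ℝ, 0 < κ → Some κ) : RiemannHypothesis := by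
  rw [Pool.Agent.W190.rh_free]
  intro s hs h0
  have h3 : 0 < s.re - 1 / 2 := by linarith
  have h4 := zeroFree_of (κ := 2 / (s.re - 1 / 2)) (by positivity) (h _ (by positivity))
  refine h4 s ?_ h0
  rw [one_div_div]
  linarith

end Run7.h578.LZ
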