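import Pool.Agent.Run7.h578.YSm
import Pool.Agent.Q73.NL.StmU

/-!
# E10: the lower bound for the length of the nodal set on a closed surface
-/

set_option autoImplicit false
open MeasureTheory Filter Topology Complex Metric
open scoped ContDiff ENNReal NNReal

namespace Run7.h578.E10

open Pool.Agent.Q73.NL (lap dx dy S6 S10 U3 NoFlat Sol nod circ2)
open Pool.Agent.Q73.AD Run7.h341.NLen Run7.h578.E8

universe v w

/-- E10: the lower bound for the length of the nodal set on a closed surface -/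
def E10 : Prop := ∀ (M : Type v) (ι : Type w) [MetricSpace M] [CompactSpace M] [ConnectedSpace M]
  [MeasurableSpace M] [BorelSpace M] (U : ι → Set ℂ) (φ : ι → ℂ → M) (ρ : ι → ℂ → ℝ), Atl U φ ρ →
  (∀ i, ∀ z ∈ U i, 0 < ρ i z) → (∀ i, ContDiffOn ℝ ∞ (ρ i) (U i)) →
  ∃ c : ℝ, 0 < c ∧ ∀ (lam : ℝ) (f : M → ℝ), 0 < lam → Eig U φ ρ lam f → (∃ x, f x ≠ 0) →
    ENNReal.ofReal (c * √lam) ≤ μH[1] {x : M | f x = 0}

/-- images under expanding maps -/
lemma le_image {M : Type v} [MetricSpace M] [MeasurableSpace M] [BorelSpace M] {φ : ℂ → M} {c : ℝ}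
    (hc : 0 < c) {E : Set ℂ} (h : ∀ w ∈ E, ∀ w' ∈ E, c * ‖w - w'‖ ≤ dist (φ w) (φ w')) :
    ENNReal.ofReal c * μH[1] E ≤ μH[1] (φ '' E) := by
  classical
  rcases E.eq_empty_or_nonempty with he | ⟨w₀, hw₀⟩
  · rw [he]
    simp
  have hinj : Set.InjOn φ E := by
    intro x hx y hy hxy
    have h1 := h x hx y hy
    rw [hxy, dist_self] at h1
    have h2 : ‖x - y‖ ≤ 0 := by
      by_contra hcon
      rw [not_le] at hcon
      have := mul_pos hc hcon
      linarith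
    exact sub_eq_zero.1 (norm_le_zero_iff.1 h2)
  set g : M → ℂ := Function.invFunOn φ E with hg
  have hgφ : ∀ w ∈ E, g (φ w) = w := fun w hw => hinj.leftInvOn_invFunOn hw
  have hlip : LipschitzOnWith (Real.toNNReal (1 / c)) g (φ '' E) := by
    refine LipschitzOnWith.of_dist_le_mul ?_
    rintro _ ⟨x, hx, rfl⟩ _ ⟨y, hy, rfl⟩
    rw [hgφ x hx, hgφ y hy, Real.coe_toNNReal _ (by positivity), dist_eq_norm x y, one_div,
      inv_mul_eq_div, le_div_iff₀ hc]
    have := h x hx y hy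
    linarith
  have h1 := hlip.hausdorffMeasure_image_le (d := 1) zero_le_one
  have h2 : g '' (φ '' E) = E := by
    rw [Set.image_image]
    ext w
    constructor
    · rintro ⟨y, hy, rfl⟩
      simp only
      rw [hgφ y hy]
      exact hy
    · intro hw
      exact ⟨w, hw, hgφ w hw⟩
  rw [h2] at h1
  have h3 : ((Real.toNNReal (1 / c) : ℝ≥0∞)) ^ (1 : ℝ) = ENNReal.ofReal (1 / c) := by
    rw [ENNReal.rpow_one]
    rfl
  rw [h3] at h1
  calc ENNReal.ofReal c * μH[1] E ≤ ENNReal.ofReal c * (ENNReal.ofReal (1 / c) * μH[1] (φ '' E)) := by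
        gcongr
    _ = μH[1] (φ '' E) := by
        rw [← mul_assoc, ← ENNReal.ofReal_mul hc.le, mul_one_div_cancel hc.ne', ENNReal.ofReal_one, one_mul]

lemma vol_ball (z : ℂ) {s : ℝ} (hs : 0 ≤ s) : volume.real (ball z s) = Real.pi * s ^ 2 := by
  rw [Measure.real, Complex.volume_ball, ENNReal.toReal_mul, ENNReal.toReal_pow, ENNReal.toReal_ofReal hs]
  simp
  ring

/-- the boundary strip of a disc -/
lemma strip {z₀ : ℂ} {R t : ℝ} (ht : 0 ≤ t) (htR : t ≤ R) :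
    volume.real {z | z ∈ ball z₀ R ∧ infDist z (ball z₀ R)ᶜ ≤ t} ≤ 2 * Real.pi * R * t := by
  have hR : 0 ≤ R := ht.trans htR
  have hsub : {z | z ∈ ball z₀ R ∧ infDist z (ball z₀ R)ᶜ ≤ t} ⊆ ball z₀ R \ ball z₀ (R - t) := by
    rintro z ⟨hz, hz2⟩
    refine ⟨hz, fun hz3 => ?_⟩
    rw [mem_ball] at hz3
    have hne : ((ball z₀ R)ᶜ : Set ℂ).Nonempty := by
      refine ⟨z₀ + (R : ℂ), ?_⟩
      rw [Set.mem_compl_iff, mem_ball, dist_eq_norm, add_sub_cancel_left, Complex.norm_real,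
        Real.norm_eq_abs, abs_of_nonneg hR]
      exact lt_irrefl R
    have h1 : R - dist z z₀ ≤ infDist z (ball z₀ R)ᶜ := by
      rw [le_infDist hne]
      intro y hy
      rw [Set.mem_compl_iff, mem_ball, not_lt] at hy
      have h2 := dist_triangle y z z₀
      rw [dist_comm y z] at h2
      linarith
    linarith
  have hfin : volume (ball z₀ R \ ball z₀ (R - t)) ≠ ⊤ :=
    ((measure_mono Set.diff_subset).trans_lt measure_ball_lt_top).ne
  have h1 : volume.real {z | z ∈ ball z₀ R ∧ infDist z (ball z₀ R)ᶜ ≤ t} ≤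
      volume.real (ball z₀ R \ ball z₀ (R - t)) := measureReal_mono hsub hfin
  have h2 : volume.real (ball z₀ R \ ball z₀ (R - t)) =
      volume.real (ball z₀ R) - volume.real (ball z₀ (R - t)) := by
    refine measureReal_diff (ball_subset_ball (by linarith)) measurableSet_ball ?_
    exact measure_ball_lt_top.ne
  rw [h2, vol_ball z₀ hR, vol_ball z₀ (by linarith)] at h1
  refine h1.trans ?_
  have : 0 ≤ Real.pi * t ^ 2 := by positivity
  nlinarith

/-- large eigenvalues: one small disc -/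
lemma disc_lower (h10 : S10) {z₀ : ℂ} {R a b : ℝ} (hR : 0 < R) (ha : 0 < a) (hab : b < 2 * a) {lam : ℝ}
    (hlam : 0 < lam) (hlarge : 2 * Real.pi ^ 2 / R ≤ √(lam * a)) {ρ u : ℂ → ℝ}
    (hu : ContDiffOn ℝ ∞ u (ball z₀ R)) (hρ : ∀ z ∈ ball z₀ R, a ≤ ρ z ∧ ρ z ≤ b)
    (hρc : ContinuousOn ρ (ball z₀ R)) (heq : ∀ z ∈ ball z₀ R, lap u z + lam * ρ z * u z = 0)
    (hnf : NoFlat (ball z₀ R) u) :
    ENNReal.ofReal (√(lam * a) * R ^ 2 / 2) ≤ μH[1] {z : ℂ | z ∈ ball z₀ R ∧ u z = 0} := by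
  have hla : 0 < lam * a := by positivity
  set κ : ℝ := √(lam * a) with hκ
  have hκ0 : 0 < κ := Real.sqrt_pos.2 hla
  have hκ2 : κ ^ 2 = lam * a := Real.sq_sqrt hla.le
  have hpi := Real.pi_pos
  have hpi3 := Real.pi_gt_three
  have hκR : 2 * Real.pi ^ 2 ≤ κ * R := by
    rw [div_le_iff₀ hR] at hlarge
    exact hlarge
  have h := h10 (ball z₀ R) (fun z => lam * ρ z) u κ (lam * b) isOpen_ball isBounded_ball ⟨hu, heq⟩ hnf hκ0
    (fun z hz => by
      obtain ⟨h1, h2⟩ := hρ z hz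
      rw [hκ2]
      exact ⟨mul_le_mul_of_nonneg_left h1 hlam.le, mul_le_mul_of_nonneg_left h2 hlam.le⟩)
    (continuousOn_const.mul hρc) (by rw [hκ2]; nlinarith)
  refine le_trans (ENNReal.ofReal_le_ofReal ?_) h
  have hint : ‖∫ s in (0 : ℝ)..(Real.pi / 2), 2 * Real.sin (2 * s) *
      volume.real {z | z ∈ ball z₀ R ∧ infDist z (ball z₀ R)ᶜ ≤ s / κ}‖ ≤
      (2 * (Real.pi ^ 2 * R / κ)) * |Real.pi / 2 - 0| := by
    refine intervalIntegral.norm_integral_le_of_norm_le_const ?_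
    intro s hs
    rw [Set.uIoc_of_le (by positivity)] at hs
    obtain ⟨hs0, hs1⟩ := hs
    have hsκ : s / κ ≤ R := by
      rw [div_le_iff₀ hκ0]
      nlinarith
    have h1 := strip (z₀ := z₀) (R := R) (t := s / κ) (by positivity) hsκ
    have h2 : 2 * Real.pi * R * (s / κ) ≤ Real.pi ^ 2 * R / κ := by
      rw [mul_div_assoc', div_le_div_iff_of_pos_right hκ0]
      nlinarith [mul_pos hpi hR]
    rw [norm_mul, norm_mul, Real.norm_eq_abs, Real.norm_eq_abs, Real.norm_eq_abs,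
      abs_of_nonneg (measureReal_nonneg), abs_of_pos (by norm_num : (0 : ℝ) < 2)]
    have h3 : |Real.sin (2 * s)| ≤ 1 := Real.abs_sin_le_one _
    have h4 := h1.trans h2
    have h5 : 0 ≤ volume.real {z | z ∈ ball z₀ R ∧ infDist z (ball z₀ R)ᶜ ≤ s / κ} := measureReal_nonneg
    calc 2 * |Real.sin (2 * s)| * volume.real {z | z ∈ ball z₀ R ∧ infDist z (ball z₀ R)ᶜ ≤ s / κ}
        ≤ 2 * 1 * (Real.pi ^ 2 * R / κ) := by gcongr
      _ = 2 * (Real.pi ^ 2 * R / κ) := by ring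
  have hint2 := (le_abs_self _).trans hint
  rw [sub_zero, abs_of_pos (by positivity : (0 : ℝ) < Real.pi / 2)] at hint2
  rw [vol_ball z₀ hR.le]
  have h6 : 2 * (Real.pi ^ 2 * R / κ) * (Real.pi / 2) ≤ Real.pi * R ^ 2 / 2 := by
    have e : 2 * (Real.pi ^ 2 * R / κ) * (Real.pi / 2) = Real.pi ^ 3 * R / κ := by
      field_simp
    rw [e, div_le_iff₀ hκ0]
    have h7 : Real.pi * R / 2 * (2 * Real.pi ^ 2) ≤ Real.pi * R / 2 * (κ * R) := by gcongr
    nlinarith
  have h8 : Real.pi * R ^ 2 / 2 ≤ Real.pi * R ^ 2 - ∫ s in (0 : ℝ)..(Real.pi / 2), 2 * Real.sin (2 * s) *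
      volume.real {z | z ∈ ball z₀ R ∧ infDist z (ball z₀ R)ᶜ ≤ s / κ} := by linarith
  calc κ * R ^ 2 / 2 = κ / Real.pi * (Real.pi * R ^ 2 / 2) := by field_simp
    _ ≤ _ := mul_le_mul_of_nonneg_left h8 (by positivity)

lemma noFlat_of_ne (hU : U3) {Ω : Set ℂ} (hΩ : IsOpen Ω) {u : ℂ → ℝ} {C : ℝ} (hu : ContDiffOn ℝ ∞ u Ω)
    (hb : ∀ z ∈ Ω, |lap u z| ≤ C * |u z|) (hne : ∀ z ∈ Ω, ∀ r : ℝ, 0 < r → ∃ y ∈ ball z r, u y ≠ 0) :
    NoFlat Ω u := by
  intro z hz
  by_contra hcon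
  push Not at hcon
  obtain ⟨r, hr, h⟩ := Metric.eventually_nhds_iff_ball.1 (hU Ω C u hΩ hu hb z hz hcon)
  obtain ⟨y, hy, hy0⟩ := hne z hz r hr
  exact hy0 (h y hy)

/-- a zero forces a long nodal set -/
lemma zero_lower (h6 : S6) {Ω : Set ℂ} (hΩ : IsOpen Ω) {V u : ℂ → ℝ} (hsol : Sol Ω V u) {B r : ℝ}
    (hV : ∀ z ∈ Ω, 0 ≤ V z ∧ V z ≤ B) {p : ℂ} (hr : 0 < r) (hBr : B * r ^ 2 < Real.pi ^ 2 / 2)
    (hsub : closedBall p r ⊆ Ω) (hp : u p = 0) :
    ENNReal.ofReal r ≤ μH[1] {z : ℂ | z ∈ closedBall p r ∧ u z = 0} := by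
  have hB0 : 0 ≤ B := by
    have h1 := hV p (hsub (mem_closedBall_self hr.le))
    linarith [h1.1, h1.2]
  have himg : Set.Ioo 0 r ⊆ (fun y : ℂ => dist y p) '' {z : ℂ | z ∈ closedBall p r ∧ u z = 0} := by
    rintro t ⟨ht0, htr⟩
    have hBt : B * t ^ 2 < Real.pi ^ 2 / 2 := by
      refine lt_of_le_of_lt ?_ hBr
      gcongr
    obtain ⟨y, ⟨hyΩ, hy0⟩, -, -, -, hyt, -⟩ := h6 Ω V u p t B hΩ hsol ht0 hV hBt
      ((closedBall_subset_closedBall htr.le).trans hsub) ⟨p, mem_ball_self ht0, hp⟩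
    refine ⟨y, ⟨?_, hy0⟩, ?_⟩
    · rw [mem_closedBall, dist_comm, dist_eq_norm, hyt]
      exact htr.le
    · simp only
      rw [dist_comm, dist_eq_norm, hyt]
  have hlip : LipschitzOnWith 1 (fun y : ℂ => dist y p) {z : ℂ | z ∈ closedBall p r ∧ u z = 0} :=
    (LipschitzWith.dist_left p).lipschitzOnWith
  have h1 := hlip.hausdorffMeasure_image_le (d := 1) zero_le_one
  simp only [ENNReal.coe_one, ENNReal.one_rpow, one_mul] at h1
  have h2 : μH[1] (Set.Ioo (0 : ℝ) r) = ENNReal.ofReal r := by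
    rw [hausdorffMeasure_real, Real.volume_Ioo, sub_zero]
  rw [← h2]
  exact (measure_mono himg).trans h1

section

variable {M : Type v} {ι : Type w} [MetricSpace M] {U : ι → Set ℂ} {φ : ι → ℂ → M} {ρ : ι → ℂ → ℝ}

lemma pos_false [CompactSpace M] [Nonempty M] (hA : Atl U φ ρ) (hρ : ∀ i, ∀ z ∈ U i, 0 < ρ i z) {lam : ℝ}
    (hlam : 0 < lam) {g : M → ℝ} (hgE : Eig U φ ρ lam g) (hpos : ∀ y, 0 < g y) : False := by
  have hgc : Continuous g := TG4.cont hA hgE
  obtain ⟨x₁, -, hx₁⟩ := isCompact_univ.exists_isMinOn (Set.univ_nonempty (α := M)) hgc.continuousOn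
  obtain ⟨i, z, hz, rfl⟩ := hA.cover x₁
  have hcd : ContDiffAt ℝ 2 (fun z => g (φ i z)) z :=
    (((hgE i).1 z hz).contDiffAt ((hA.dom i).mem_nhds hz)).of_le (by norm_cast)
  have hmin : IsLocalMin (fun z => g (φ i z)) z := Eventually.of_forall fun w => hx₁ (Set.mem_univ _)
  have h1 := lap_nonneg_of_localMin hcd hmin
  have h2 := (hgE i).2 z hz
  have h3 : 0 < lam * ρ i z * g (φ i z) := by
    have := hρ i z hz
    have := hpos (φ i z)
    positivity
  linarith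

lemma eig_neg {lam : ℝ} {f : M → ℝ} (hf : Eig U φ ρ lam f) : Eig U φ ρ lam (fun x => -f x) := by
  intro i
  refine ⟨(hf i).1.neg, ?_⟩
  intro z hz
  have h1 := (hf i).2 z hz
  have h2 : lap (fun z => -f (φ i z)) z = -lap (fun z => f (φ i z)) z := by
    have := lap_const_mul' (-1) (fun z => f (φ i z)) z
    simpa using this
  rw [h2]
  linarith

lemma exists_zero [CompactSpace M] [ConnectedSpace M] (hA : Atl U φ ρ)
    (hρ : ∀ i, ∀ z ∈ U i, 0 < ρ i z) {lam : ℝ} (hlam : 0 < lam) {f : M → ℝ} (hf : Eig U φ ρ lam f) :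
    ∃ p, f p = 0 := by
  have hcont : Continuous f := TG4.cont hA hf
  by_contra hcon
  push Not at hcon
  by_cases h1 : ∃ a, f a ≤ 0
  · by_cases h2 : ∃ b, 0 ≤ f b
    · obtain ⟨p, hp⟩ := mem_range_of_exists_le_of_exists_ge hcont h1 h2
      exact hcon p hp
    · push Not at h2
      exact pos_false hA hρ hlam (eig_neg hf) fun y => by linarith [h2 y]
  · push Not at h1
    exact pos_false hA hρ hlam hf h1

end

/-- E10 -/
theorem te10' (h10 : S10) (h6 : S6) (hU : U3) (h1 : G1.{v, w}) (h2 : G2.{v, w}) : E10.{v, w} := by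
  classical
  intro M ι _ _ _ _ _ U φ ρ hA hρ hρs
  -- a small disc
  obtain ⟨x₀⟩ : Nonempty M := inferInstance
  obtain ⟨i₀, z₀, hz₀, -⟩ := hA.cover x₀
  obtain ⟨r₁, c₁, hr₁, hc₁, hr₁U, hlip⟩ := hA.lip i₀ z₀ hz₀
  have hρ₀ := hρ i₀ z₀ hz₀
  have hρcont : ContinuousAt (ρ i₀) z₀ :=
    ((hρs i₀).continuousOn.continuousAt ((hA.dom i₀).mem_nhds hz₀))
  obtain ⟨r₂, hr₂, hr₂'⟩ := Metric.continuousAt_iff.1 hρcont (ρ i₀ z₀ / 4) (by positivity)
  set R₀ : ℝ := min r₁ r₂ with hR₀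
  have hR₀0 : 0 < R₀ := lt_min hr₁ hr₂
  have hsub₁ : ball z₀ R₀ ⊆ ball z₀ r₁ := ball_subset_ball (min_le_left _ _)
  have hsubU : ball z₀ R₀ ⊆ U i₀ := hsub₁.trans hr₁U
  set a : ℝ := 3 / 4 * ρ i₀ z₀ with ha
  set b : ℝ := 5 / 4 * ρ i₀ z₀ with hb
  have ha0 : 0 < a := by rw [ha]; positivity
  have hb0 : 0 < b := by rw [hb]; positivity
  have hab : b < 2 * a := by rw [ha, hb]; linarith
  have hρab : ∀ z ∈ ball z₀ R₀, a ≤ ρ i₀ z ∧ ρ i₀ z ≤ b := by
    intro z hz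
    have h3 := hr₂' (lt_of_lt_of_le hz (min_le_right _ _))
    rw [Real.dist_eq, abs_lt] at h3
    rw [ha, hb]
    constructor <;> linarith [h3.1, h3.2]
  set lam₀ : ℝ := (2 * Real.pi ^ 2 / R₀) ^ 2 / a with hlam₀
  have hlam₀0 : 0 < lam₀ := by
    have := Real.pi_pos
    positivity
  -- the good pieces
  obtain ⟨n, i, z, R, c, L, δ, hG, hcov⟩ := h2 M ι U φ ρ hA
  obtain ⟨a₀, -⟩ := hcov x₀
  have hc := (hG a₀).c_pos
  have hL := (hG a₀).L_ge
  have hRpos : ∀ a, 0 < R a := fun a => (hG a).R_pos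
  obtain ⟨r₃, hr₃, hr₃R⟩ : ∃ r : ℝ, 0 < r ∧ ∀ a, r ≤ R a / 2 := by
    have hs : ∀ a, (R a)⁻¹ ≤ 1 + ∑ a, (R a)⁻¹ := by
      intro a
      have := Finset.single_le_sum (f := fun a => (R a)⁻¹)
        (fun a _ => (inv_pos.2 (hRpos a)).le) (Finset.mem_univ a)
      linarith
    have hs0 : 0 < 1 + ∑ a, (R a)⁻¹ := by
      have := Finset.sum_nonneg fun a (_ : a ∈ Finset.univ) => (inv_pos.2 (hRpos a)).le
      linarith
    refine ⟨(1 + ∑ a, (R a)⁻¹)⁻¹ / 2, by positivity, fun a => ?_⟩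
    have := inv_anti₀ (inv_pos.2 (hRpos a)) (hs a)
    rw [inv_inv] at this
    linarith
  set B : ℝ := lam₀ * L with hB
  have hB0 : 0 < B := by rw [hB]; positivity
  set r : ℝ := min r₃ (1 / (1 + B)) with hr
  have hr0 : 0 < r := lt_min hr₃ (by positivity)
  have hBr : B * r ^ 2 < Real.pi ^ 2 / 2 := by
    have h3 : r ≤ 1 / (1 + B) := min_le_right _ _
    have h4 : r * (1 + B) ≤ 1 := by
      rw [le_div_iff₀ (by positivity)] at h3
      exact h3
    have h5 : r ≤ 1 := by nlinarith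
    have h6 : B * r ≤ 1 := by nlinarith
    have h7 : B * r ^ 2 ≤ 1 := by
      calc B * r ^ 2 = (B * r) * r := by ring
        _ ≤ 1 * 1 := by gcongr
        _ = 1 := one_mul 1
    have := Real.pi_gt_three
    nlinarith
  have hsa : 0 < √a := Real.sqrt_pos.2 ha0
  have hsl₀ : 0 < √lam₀ := Real.sqrt_pos.2 hlam₀0
  refine ⟨min (c₁ * (√a * R₀ ^ 2 / 2)) (c * r / √lam₀), lt_min (by positivity) (by positivity), ?_⟩
  intro lam f hlam hf hne
  have hbd : BddAbove ((fun x => |f x|) '' Set.univ) :=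
    isCompact_univ.bddAbove_image (TG4.cont hA hf).abs.continuousOn
  have hpos : ∀ (x : M) (r : ℝ), 0 < r → 0 < sn f (ball x r) := by
    intro x r hr
    obtain ⟨Cr, -, hgrr⟩ := h1 M ι U φ ρ hA r hr
    obtain ⟨y₀, hy₀⟩ := hne
    have h4 := (abs_pos.2 hy₀).trans_le ((TG4.le_sn hbd y₀).trans (hgrr lam f hlam.le hf x))
    exact (mul_pos_iff_of_pos_left (Real.exp_pos _)).1 h4
  have hsl : 0 ≤ √lam := Real.sqrt_nonneg _
  rcases le_or_gt lam₀ lam with hcase | hcase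
  · -- large eigenvalues
    have hkey : 2 * Real.pi ^ 2 / R₀ ≤ √(lam * a) := by
      refine Real.le_sqrt_of_sq_le ?_
      rw [hlam₀, div_le_iff₀ ha0] at hcase
      exact hcase
    have hnf : NoFlat (ball z₀ R₀) (fun z => f (φ i₀ z)) := by
      refine noFlat_of_ne hU isOpen_ball (C := lam * b) ((hf i₀).1.mono hsubU) ?_ ?_
      · intro z hz
        have h3 := (hf i₀).2 z (hsubU hz)
        have h4 : lap (fun z => f (φ i₀ z)) z = -(lam * ρ i₀ z * f (φ i₀ z)) := by linarith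
        have h5 := hρab z hz
        have h6 : 0 ≤ ρ i₀ z := ha0.le.trans h5.1
        rw [h4, abs_neg, abs_mul, abs_of_nonneg (by positivity)]
        have h7 : lam * ρ i₀ z ≤ lam * b := mul_le_mul_of_nonneg_left h5.2 hlam.le
        exact mul_le_mul_of_nonneg_right h7 (abs_nonneg _)
      · intro z hz s hs
        by_contra hcon
        push Not at hcon
        obtain ⟨s', hs', hs'sub⟩ := Metric.isOpen_iff.1 (isOpen_ball (x := z₀) (ε := R₀)) z hz
        have hop := hA.opn i₀ (ball z (min s s')) isOpen_ball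
          ((ball_subset_ball (min_le_right _ _)).trans (hs'sub.trans hsubU))
        obtain ⟨t, ht, hball⟩ := Metric.isOpen_iff.1 hop (φ i₀ z) ⟨z, mem_ball_self (lt_min hs hs'), rfl⟩
        have h3 := hpos (φ i₀ z) t ht
        have h4 : sn f (ball (φ i₀ z) t) ≤ 0 := by
          refine sn_le2 le_rfl ?_
          intro x hx
          obtain ⟨y, hy, rfl⟩ := hball hx
          rw [hcon y (ball_subset_ball (min_le_left _ _) hy), abs_zero]
        linarith
    have h3 := disc_lower h10 hR₀0 ha0 hab hlam hkey ((hf i₀).1.mono hsubU) hρab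
      ((hρs i₀).continuousOn.mono hsubU) (fun z hz => (hf i₀).2 z (hsubU hz)) hnf
    set E : Set ℂ := {z : ℂ | z ∈ ball z₀ R₀ ∧ f (φ i₀ z) = 0} with hE
    have h4 : ENNReal.ofReal c₁ * μH[1] E ≤ μH[1] (φ i₀ '' E) := by
      refine le_image hc₁ ?_
      rintro x ⟨hx, -⟩ y ⟨hy, -⟩
      exact (hlip x (hsub₁ hx) y (hsub₁ hy)).1
    have h5 : φ i₀ '' E ⊆ {x : M | f x = 0} := by
      rintro _ ⟨x, ⟨-, hx⟩, rfl⟩
      exact hx
    have h6 : √(lam * a) = √a * √lam := by rw [mul_comm, Real.sqrt_mul ha0.le]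
    calc ENNReal.ofReal (min (c₁ * (√a * R₀ ^ 2 / 2)) (c * r / √lam₀) * √lam)
        ≤ ENNReal.ofReal (c₁ * (√(lam * a) * R₀ ^ 2 / 2)) := by
          refine ENNReal.ofReal_le_ofReal ?_
          rw [h6]
          calc min (c₁ * (√a * R₀ ^ 2 / 2)) (c * r / √lam₀) * √lam
              ≤ (c₁ * (√a * R₀ ^ 2 / 2)) * √lam := mul_le_mul_of_nonneg_right (min_le_left _ _) hsl
            _ = c₁ * (√a * √lam * R₀ ^ 2 / 2) := by ring
      _ = ENNReal.ofReal c₁ * ENNReal.ofReal (√(lam * a) * R₀ ^ 2 / 2) := ENNReal.ofReal_mul hc₁.le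
      _ ≤ ENNReal.ofReal c₁ * μH[1] E := by gcongr
      _ ≤ μH[1] (φ i₀ '' E) := h4
      _ ≤ μH[1] {x : M | f x = 0} := measure_mono h5
  · -- bounded eigenvalues
    obtain ⟨p, hp⟩ := exists_zero hA hρ hlam hf
    obtain ⟨j, w₀, hw₀, rfl⟩ := hcov p
    have hGj := hG j
    have hrR : r ≤ R j / 2 := (min_le_left _ _).trans (hr₃R j)
    have hR0 := hRpos j
    have hbsub : ball (z j) (2 * R j) ⊆ U (i j) := ball_subset_closedBall.trans hGj.sub
    have hcsub : closedBall w₀ r ⊆ ball (z j) (2 * R j) := by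
      intro x hx
      rw [mem_closedBall] at hx hw₀
      rw [mem_ball]
      have := dist_triangle x w₀ (z j)
      linarith
    have h3 := zero_lower h6 (Ω := ball (z j) (2 * R j)) isOpen_ball
      (V := fun y => lam * ρ (i j) y) (u := fun y => f (φ (i j) y)) (B := B)
      ⟨(hf (i j)).1.mono hbsub, fun y hy => (hf (i j)).2 y (hbsub hy)⟩
      (fun y hy => by
        have h4 := (hρ (i j) y (hbsub hy)).le
        have h5 := (le_abs_self _).trans (hGj.bd y (ball_subset_closedBall hy)).1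
        refine ⟨by positivity, ?_⟩
        rw [hB]
        exact mul_le_mul hcase.le h5 h4 hlam₀0.le)
      hr0 hBr hcsub hp
    set E : Set ℂ := {y : ℂ | y ∈ closedBall w₀ r ∧ f (φ (i j) y) = 0} with hE
    have h4 : ENNReal.ofReal c * μH[1] E ≤ μH[1] (φ (i j) '' E) := by
      refine le_image hc ?_
      rintro x ⟨hx, -⟩ y ⟨hy, -⟩
      exact (hGj.lip x (ball_subset_closedBall (hcsub hx)) y (ball_subset_closedBall (hcsub hy))).1
    have h5 : φ (i j) '' E ⊆ {x : M | f x = 0} := by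
      rintro _ ⟨x, ⟨-, hx⟩, rfl⟩
      exact hx
    calc ENNReal.ofReal (min (c₁ * (√a * R₀ ^ 2 / 2)) (c * r / √lam₀) * √lam)
        ≤ ENNReal.ofReal (c * r) := by
          refine ENNReal.ofReal_le_ofReal ?_
          have h7 : √lam ≤ √lam₀ := Real.sqrt_le_sqrt hcase.le
          calc min (c₁ * (√a * R₀ ^ 2 / 2)) (c * r / √lam₀) * √lam
              ≤ (c * r / √lam₀) * √lam := mul_le_mul_of_nonneg_right (min_le_right _ _) hsl
            _ ≤ (c * r / √lam₀) * √lam₀ := mul_le_mul_of_nonneg_left h7 (by positivity)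
            _ = c * r := by field_simp
      _ = ENNReal.ofReal c * ENNReal.ofReal r := ENNReal.ofReal_mul hc.le
      _ ≤ ENNReal.ofReal c * μH[1] E := by gcongr
      _ ≤ μH[1] (φ (i j) '' E) := h4
      _ ≤ μH[1] {x : M | f x = 0} := measure_mono h5

end Run7.h578.E10
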