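import Pool.Agent.Q73.AD.YZ4
import Pool.Agent.Q73.AD.TG4
import Pool.Agent.Run7.h341.NLen.Iface

/-!
# The length of the nodal set in squares (towards E8)
-/

set_option autoImplicit false
open MeasureTheory Filter Topology Complex Metric
open scoped ContDiff ENNReal

namespace Run7.h578.E8

open Pool.Agent.Q73.NL (lap)
open Pool.Agent.Q73.AD Run7.h341.NLen

universe u v

/-- the square with centre `p` and half side `s` -/
def Sq (p : ℂ) (s : ℝ) : Set ℂ := {z | |(z - p).re| ≤ s ∧ |(z - p).im| ≤ s}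

lemma cover_sq {n : ℕ} (hn : 0 < n) {s : ℝ} (hs : 0 < s) {p w : ℂ} (hw : w ∈ Sq p s) :
    ∃ a : Fin n × Fin n, ‖w - (p + s * cen n a)‖ ≤ 2 * (s / n) := by
  obtain ⟨h1, h2⟩ := hw
  have hn0 : (0 : ℝ) < n := by exact_mod_cast hn
  have hsc : ∀ t : ℝ, |t| ≤ s → |t / s| ≤ 1 := fun t ht => by
    rw [abs_div, abs_of_pos hs, div_le_one hs]; exact ht
  obtain ⟨k1, hk1⟩ := sub1 hn (hsc _ h1)
  obtain ⟨k2, hk2⟩ := sub1 hn (hsc _ h2)
  refine ⟨(k1, k2), ?_⟩
  refine (Complex.norm_le_abs_re_add_abs_im _).trans ?_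
  have e1 : (w - (p + s * cen n (k1, k2))).re =
      s * ((w - p).re / s - (-1 + (2 * ((k1 : ℕ) : ℝ) + 1) / n)) := by
    simp only [cen, Complex.sub_re, Complex.add_re, Complex.mul_re, Complex.ofReal_re, Complex.ofReal_im]
    field_simp
    ring
  have e2 : (w - (p + s * cen n (k1, k2))).im =
      s * ((w - p).im / s - (-1 + (2 * ((k2 : ℕ) : ℝ) + 1) / n)) := by
    simp only [cen, Complex.sub_im, Complex.add_im, Complex.mul_im, Complex.ofReal_re, Complex.ofReal_im]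
    field_simp
    ring
  rw [e1, e2, abs_mul, abs_mul, abs_of_pos hs]
  have h3 := mul_le_mul_of_nonneg_left hk1 hs.le
  have h4 := mul_le_mul_of_nonneg_left hk2 hs.le
  have e3 : s * (1 / (n : ℝ)) = s / n := by ring
  rw [e3] at h3 h4
  linarith

lemma cen_abs {n : ℕ} (a : Fin n × Fin n) : |(cen n a).re| ≤ 1 ∧ |(cen n a).im| ≤ 1 := by
  have hn : 0 < n := by
    have := a.1.2
    omega
  have hn0 : (0 : ℝ) < n := by exact_mod_cast hn
  have key : ∀ k : Fin n, |(-1 + (2 * ((k : ℕ) : ℝ) + 1) / n)| ≤ 1 := by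
    intro k
    have hk : ((k : ℕ) : ℝ) + 1 ≤ n := by exact_mod_cast k.2
    have h1 : (2 * ((k : ℕ) : ℝ) + 1) / n ≤ 2 := by
      rw [div_le_iff₀ hn0]
      linarith
    have h2 : 0 ≤ (2 * ((k : ℕ) : ℝ) + 1) / n := by positivity
    rw [abs_le]
    constructor <;> linarith
  exact ⟨key a.1, key a.2⟩

lemma cen_mem_Sq {n : ℕ} (a : Fin n × Fin n) {s : ℝ} (hs : 0 < s) (p : ℂ) :
    p + s * cen n a ∈ Sq p s := by
  obtain ⟨h1, h2⟩ := cen_abs a
  refine ⟨?_, ?_⟩
  · have e : (p + s * cen n a - p).re = s * (cen n a).re := by simp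
    rw [e, abs_mul, abs_of_pos hs]
    nlinarith
  · have e : (p + s * cen n a - p).im = s * (cen n a).im := by simp
    rw [e, abs_mul, abs_of_pos hs]
    nlinarith

lemma norm_le_of_Sq {p w : ℂ} {s : ℝ} (h : w ∈ Sq p s) : ‖w - p‖ ≤ 2 * s :=
  (Complex.norm_le_abs_re_add_abs_im _).trans (by linarith [h.1, h.2])

/-- the covering lemma -/
theorem w0 (h7 : E7) : ∃ C : ℝ, 1 ≤ C ∧ ∀ (lam L s h : ℝ) (p : ℂ) (ρ φ : ℂ → ℝ) (n : ℕ),
    Loc lam L s p ρ φ → (∀ z ∈ closedBall p (32 * s), ContDiffAt ℝ ∞ ρ z) →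
    0 < h → h ≤ s → h ^ 2 * (lam * L) ≤ 1 → 4 * s ≤ n * h →
    μH[1] {z : ℂ | z ∈ Sq p s ∧ φ z = 0} ≤
      ENNReal.ofReal (C * h * ∑ a : Fin n × Fin n,
        (1 + Real.log (sn φ (closedBall (p + s * cen n a) (10 * h)) /
          sn φ (closedBall (p + s * cen n a) h)))) := by
  obtain ⟨C, hC, H⟩ := h7
  refine ⟨C, hC, ?_⟩
  intro lam L s h p ρ φ n hloc hsm hh hhs hL hn
  have hs := hloc.s_pos
  have hn0 : 0 < n := by
    rcases Nat.eq_zero_or_pos n with h0 | h0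
    · subst h0
      norm_num at hn
      linarith
    · exact h0
  have hnr : (0 : ℝ) < n := by exact_mod_cast hn0
  set w : Fin n × Fin n → ℂ := fun a => p + s * cen n a with hw
  have hsub : ∀ a, closedBall (w a) (10 * h) ⊆ closedBall p (32 * s) := by
    intro a
    refine closedBall_subset_closedBall' ?_
    rw [dist_eq_norm]
    have := norm_le_of_Sq (cen_mem_Sq a hs p)
    linarith
  have hb : BddAbove ((fun x => |φ x|) '' closedBall p (32 * s)) := by
    refine (isCompact_closedBall p (32 * s)).bddAbove_image ?_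
    intro z hz
    exact ((hloc.sol z hz).1.continuousAt).abs.continuousWithinAt
  have hlog : ∀ a, 0 ≤ Real.log (sn φ (closedBall (w a) (10 * h)) / sn φ (closedBall (w a) h)) := by
    intro a
    have hsub2 : closedBall (w a) h ⊆ closedBall (w a) (10 * h) := closedBall_subset_closedBall (by linarith)
    have hp : 0 < sn φ (closedBall (w a) h) := hloc.pos _ _ hh (hsub2.trans (hsub a))
    refine Real.log_nonneg ?_
    rw [one_le_div hp]
    refine csSup_le_csSup (hb.mono (Set.image_mono (hsub a))) ?_ (Set.image_mono hsub2)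
    exact (nonempty_closedBall.2 hh.le).image _
  have hone : ∀ a, μH[1] {z : ℂ | z ∈ ball (w a) h ∧ φ z = 0} ≤
      ENNReal.ofReal (C * h * (1 + Real.log (sn φ (closedBall (w a) (10 * h)) / sn φ (closedBall (w a) h)))) := by
    intro a
    refine H (w a) h (fun z => lam * ρ z) φ hh ?_ ?_
    · intro z hz
      have hz' := hsub a hz
      obtain ⟨g1, g2, g3, g4, g5, g6⟩ := hloc.sol z hz'
      refine ⟨g1, contDiffAt_const.mul (hsm z hz'), ?_, g6⟩
      have hl := hloc.lam_pos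
      rw [abs_of_nonneg (by positivity)]
      refine le_trans ?_ hL
      gcongr
    · intro z r hr hz
      exact hloc.pos z r hr (hz.trans (hsub a))
  have hcov : {z : ℂ | z ∈ Sq p s ∧ φ z = 0} ⊆ ⋃ a, {z : ℂ | z ∈ ball (w a) h ∧ φ z = 0} := by
    rintro z ⟨hz, hz0⟩
    obtain ⟨a, ha⟩ := cover_sq hn0 hs hz
    refine Set.mem_iUnion.2 ⟨a, ?_, hz0⟩
    rw [mem_ball, dist_eq_norm]
    refine ha.trans_lt ?_
    have : s / n ≤ h / 4 := by
      rw [div_le_iff₀ hnr]
      linarith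
    linarith
  calc μH[1] {z : ℂ | z ∈ Sq p s ∧ φ z = 0} ≤ μH[1] (⋃ a, {z : ℂ | z ∈ ball (w a) h ∧ φ z = 0}) :=
        measure_mono hcov
    _ ≤ ∑ a, μH[1] {z : ℂ | z ∈ ball (w a) h ∧ φ z = 0} := measure_iUnion_fintype_le _ _
    _ ≤ ∑ a, ENNReal.ofReal (C * h * (1 + Real.log (sn φ (closedBall (w a) (10 * h)) /
          sn φ (closedBall (w a) h)))) := Finset.sum_le_sum fun a _ => hone a
    _ = ENNReal.ofReal (C * h * ∑ a : Fin n × Fin n,
        (1 + Real.log (sn φ (closedBall (w a) (10 * h)) / sn φ (closedBall (w a) h)))) := by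
        rw [Finset.mul_sum, ENNReal.ofReal_sum_of_nonneg]
        intro a _
        have := hlog a
        positivity

/-- the number of points of the grid in a small disc -/
lemma grid_count {n : ℕ} {s h : ℝ} (hs : 0 < s) (hn : (n : ℝ) * h ≤ 5 * s) (p x : ℂ) :
    (Set.ncard {a : Fin n × Fin n | ‖x - (p + s * cen n a)‖ ≤ h} : ℝ) ≤ 36 := by
  classical
  rcases Nat.eq_zero_or_pos n with h0 | hn0
  · subst h0
    have : {a : Fin 0 × Fin 0 | ‖x - (p + s * cen 0 a)‖ ≤ h} = ∅ := by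
      ext a
      exact a.1.elim0
    rw [this, Set.ncard_empty]
    norm_num
  have hnr : (0 : ℝ) < n := by exact_mod_cast hn0
  -- the coordinates
  set α : ℝ := ((x - p).re + s) * n / (2 * s) - 1 / 2 with hα
  set β : ℝ := ((x - p).im + s) * n / (2 * s) - 1 / 2 with hβ
  have key : ∀ (t : ℝ) (k : ℕ), |t - s * (-1 + (2 * (k : ℝ) + 1) / n)| ≤ h →
      (k : ℤ) ∈ Finset.Icc ⌈(t + s) * n / (2 * s) - 1 / 2 - 5 / 2⌉ (⌈(t + s) * n / (2 * s) - 1 / 2 - 5 / 2⌉ + 5) := by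
    intro t k hk
    have e : t - s * (-1 + (2 * (k : ℝ) + 1) / n) = (2 * s / n) * (((t + s) * n / (2 * s) - 1 / 2) - k) := by
      field_simp
      ring
    rw [e, abs_mul, abs_of_pos (by positivity)] at hk
    have h1 : |((t + s) * n / (2 * s) - 1 / 2) - k| ≤ 5 / 2 := by
      have h2 : |((t + s) * n / (2 * s) - 1 / 2) - k| ≤ h / (2 * s / n) := by
        rw [le_div_iff₀ (by positivity), mul_comm]
        exact hk
      refine h2.trans ?_
      rw [div_div_eq_mul_div, div_le_div_iff₀ (by positivity) (by norm_num)]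
      linarith
    rw [abs_le] at h1
    have h3 : ⌈(t + s) * n / (2 * s) - 1 / 2 - 5 / 2⌉ ≤ (k : ℤ) := by
      rw [Int.ceil_le]
      push_cast
      linarith
    rw [Finset.mem_Icc]
    refine ⟨h3, ?_⟩
    have h4 := Int.le_ceil ((t + s) * n / (2 * s) - 1 / 2 - 5 / 2)
    have h5 : ((k : ℤ) : ℝ) ≤ ((⌈(t + s) * n / (2 * s) - 1 / 2 - 5 / 2⌉ + 5 : ℤ) : ℝ) := by
      push_cast
      linarith
    exact_mod_cast h5
  set T : Finset (ℤ × ℤ) :=
    Finset.Icc ⌈((x - p).re + s) * n / (2 * s) - 1 / 2 - 5 / 2⌉ (⌈((x - p).re + s) * n / (2 * s) - 1 / 2 - 5 / 2⌉ + 5) ×ˢ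
    Finset.Icc ⌈((x - p).im + s) * n / (2 * s) - 1 / 2 - 5 / 2⌉ (⌈((x - p).im + s) * n / (2 * s) - 1 / 2 - 5 / 2⌉ + 5) with hT
  have hTc : T.card = 36 := by
    rw [hT, Finset.card_product, Int.card_Icc, Int.card_Icc]
    have : ∀ y : ℤ, (y + 5 + 1 - y).toNat = 6 := fun y => by omega
    rw [this, this]
  have hle : Set.ncard {a : Fin n × Fin n | ‖x - (p + s * cen n a)‖ ≤ h} ≤ T.card := by
    rw [← Set.ncard_coe_finset]
    refine Set.ncard_le_ncard_of_injOn (fun a => (((a.1 : ℕ) : ℤ), ((a.2 : ℕ) : ℤ))) ?_ ?_ (Set.toFinite _)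
    · intro a ha
      have ha' : ‖x - (p + s * cen n a)‖ ≤ h := ha
      rw [Finset.mem_coe, hT, Finset.mem_product]
      constructor
      · apply key
        refine le_trans (le_of_eq ?_) ((Complex.abs_re_le_norm _).trans ha')
        simp only [cen, Complex.sub_re, Complex.add_re, Complex.mul_re, Complex.ofReal_re, Complex.ofReal_im]
        ring_nf
      · apply key
        refine le_trans (le_of_eq ?_) ((Complex.abs_im_le_norm _).trans ha')
        simp only [cen, Complex.sub_im, Complex.add_im, Complex.mul_im, Complex.ofReal_re, Complex.ofReal_im]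
        ring_nf
    · intro a _ b _ hab
      simp only [Prod.mk.injEq, Nat.cast_inj] at hab
      exact Prod.ext (Fin.ext hab.1) (Fin.ext hab.2)
  rw [hTc] at hle
  exact_mod_cast hle

/-- the length of the nodal set in a square, large eigenvalues -/
theorem w2 (h7 : E7) (h6 : Z6) : ∃ s₁ : ℝ, 0 < s₁ ∧ ∀ s L G₀ : ℝ, 0 < s → s ≤ s₁ → 1 ≤ L → 0 ≤ G₀ →
    ∃ A lam₀ : ℝ, 0 < A ∧ 0 < lam₀ ∧ ∀ (lam : ℝ) (p : ℂ) (ρ φ : ℂ → ℝ), lam₀ ≤ lam →
      Loc lam L s p ρ φ → (∀ z ∈ closedBall p (32 * s), ContDiffAt ℝ ∞ ρ z) →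
      gr φ p s ≤ G₀ * (Real.sqrt lam * s) →
      μH[1] {z : ℂ | z ∈ Sq p s ∧ φ z = 0} ≤ ENNReal.ofReal (A * Real.sqrt lam) := by
  obtain ⟨C, hC, H0⟩ := w0 h7
  obtain ⟨s₁, hs₁, H6⟩ := h6
  refine ⟨s₁, hs₁, ?_⟩
  intro s L G₀ hs hss₁ hL hG₀
  have hL0 : 0 < L := by linarith
  set c₀ : ℝ := 1 / L with hc₀
  have hc0 : 0 < c₀ := by positivity
  obtain ⟨A, lam₀, hA, hlam₀, H⟩ := H6 s L G₀ c₀ (10 * c₀) 36 hs hss₁ hL hG₀ hc0 (by positivity) (by norm_num)
  refine ⟨C * c₀ * (25 * s ^ 2 / c₀ ^ 2 + A), max lam₀ ((c₀ / s) ^ 2), by positivity, by positivity, ?_⟩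
  intro lam p ρ φ hlam hloc hsm hgr
  have hlam1 : lam₀ ≤ lam := (le_max_left _ _).trans hlam
  have hlam2 : (c₀ / s) ^ 2 ≤ lam := (le_max_right _ _).trans hlam
  have hlam0 : 0 < lam := hloc.lam_pos
  set sl : ℝ := Real.sqrt lam with hsl
  have hsl0 : 0 < sl := Real.sqrt_pos.2 hlam0
  have hslsq : sl ^ 2 = lam := Real.sq_sqrt hlam0.le
  have hsl2 : c₀ / s ≤ sl := Real.le_sqrt_of_sq_le hlam2
  set h : ℝ := c₀ / sl with hh
  have hh0 : 0 < h := by positivity
  have hhs : h ≤ s := by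
    rw [hh, div_le_iff₀ hsl0]
    rw [div_le_iff₀ hs] at hsl2
    linarith
  have hhL : h ^ 2 * (lam * L) ≤ 1 := by
    have e : h ^ 2 * (lam * L) = 1 / L := by
      rw [hh, ← hslsq, hc₀]
      field_simp
    rw [e, div_le_one hL0]
    exact hL
  set n : ℕ := ⌈4 * s / h⌉₊ with hn
  have hn1 : 4 * s ≤ n * h := by
    have := Nat.le_ceil (4 * s / h)
    rw [div_le_iff₀ hh0] at this
    exact this
  have hn2 : (n : ℝ) * h ≤ 5 * s := by
    have := (Nat.ceil_lt_add_one (show 0 ≤ 4 * s / h by positivity)).le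
    have h2 : (n : ℝ) * h ≤ (4 * s / h + 1) * h := mul_le_mul_of_nonneg_right this hh0.le
    have h3 : (4 * s / h + 1) * h = 4 * s + h := by field_simp
    rw [h3] at h2
    linarith
  refine (H0 lam L s h p ρ φ n hloc hsm hh0 hhs hhL hn1).trans (ENNReal.ofReal_le_ofReal ?_)
  have hsum := H lam p ρ φ (Fin n × Fin n) (fun a => p + s * cen n a) hlam1 hloc hgr
    (fun a => cen_mem_Sq a hs p) (fun x => grid_count hs hn2 p x)
  have e10 : 10 * c₀ / Real.sqrt lam = 10 * h := by rw [hh, hsl]; ring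
  rw [e10] at hsum
  have hsum' : ∑ a : Fin n × Fin n, (1 + Real.log (sn φ (closedBall (p + s * cen n a) (10 * h)) /
      sn φ (closedBall (p + s * cen n a) h))) ≤ (25 * s ^ 2 / c₀ ^ 2 + A) * lam := by
    rw [Finset.sum_add_distrib]
    have h1 : ∑ a : Fin n × Fin n, (1 : ℝ) = (n : ℝ) ^ 2 := by
      simp [sq]
    have h2 : (n : ℝ) ^ 2 ≤ 25 * s ^ 2 / c₀ ^ 2 * lam := by
      have h3 : (n : ℝ) ≤ 5 * s * sl / c₀ := by
        rw [le_div_iff₀ hc0]
        have : (n : ℝ) * h * sl ≤ 5 * s * sl := mul_le_mul_of_nonneg_right hn2 hsl0.le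
        have e : (n : ℝ) * h * sl = n * c₀ := by rw [hh]; field_simp
        linarith
      calc (n : ℝ) ^ 2 ≤ (5 * s * sl / c₀) ^ 2 := by gcongr
        _ = 25 * s ^ 2 / c₀ ^ 2 * lam := by rw [← hslsq]; ring
    rw [h1, add_mul]
    exact add_le_add h2 hsum
  calc C * h * ∑ a : Fin n × Fin n, (1 + Real.log (sn φ (closedBall (p + s * cen n a) (10 * h)) /
      sn φ (closedBall (p + s * cen n a) h))) ≤ C * h * ((25 * s ^ 2 / c₀ ^ 2 + A) * lam) := by gcongr
    _ = C * c₀ * (25 * s ^ 2 / c₀ ^ 2 + A) * sl := by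
        rw [hh, ← hslsq]
        field_simp

/-- the length of the nodal set in a square, bounded eigenvalues -/
theorem w3 (h7 : E7) : ∀ s L Λ : ℝ, 0 < s → s ≤ 1 → 1 ≤ L → 0 < Λ → ∃ h : ℝ, 0 < h ∧ ∀ N : ℝ, 0 ≤ N →
    ∃ B : ℝ, 0 ≤ B ∧ ∀ (lam : ℝ) (p : ℂ) (ρ φ : ℂ → ℝ), lam ≤ Λ →
      Loc lam L s p ρ φ → (∀ z ∈ closedBall p (32 * s), ContDiffAt ℝ ∞ ρ z) →
      (∀ z ∈ Sq p s, sn φ (closedBall p (32 * s)) ≤ Real.exp N * sn φ (closedBall z h)) →
      μH[1] {z : ℂ | z ∈ Sq p s ∧ φ z = 0} ≤ ENNReal.ofReal B := by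
  obtain ⟨C, hC, H0⟩ := w0 h7
  intro s L Λ hs hs1 hL hΛ
  have hL0 : 0 < L := by linarith
  set h : ℝ := min s (1 / (L * (1 + Λ))) with hh
  have hh0 : 0 < h := lt_min hs (by positivity)
  have hhs : h ≤ s := min_le_left _ _
  have hhL : h ≤ 1 / (L * (1 + Λ)) := min_le_right _ _
  set n : ℕ := ⌈4 * s / h⌉₊ with hn
  have hn1 : 4 * s ≤ n * h := by
    have := Nat.le_ceil (4 * s / h)
    rw [div_le_iff₀ hh0] at this
    exact this
  refine ⟨h, hh0, fun N hN => ⟨C * h * ((n : ℝ) ^ 2 * (1 + N)), by positivity, ?_⟩⟩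
  intro lam p ρ φ hlam hloc hsm hgrow
  have hlam0 := hloc.lam_pos
  have hhL' : h ^ 2 * (lam * L) ≤ 1 := by
    have h1 : h * (L * (1 + Λ)) ≤ 1 := by
      rw [le_div_iff₀ (by positivity)] at hhL
      exact hhL
    have h2 : h * (L * lam) ≤ h * (L * (1 + Λ)) := by gcongr; linarith
    have h3 : h ≤ 1 := hhs.trans hs1
    have h4 : 0 ≤ h * (L * lam) := by positivity
    calc h ^ 2 * (lam * L) = h * (h * (L * lam)) := by ring
      _ ≤ 1 * 1 := by gcongr; linarith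
      _ = 1 := one_mul 1
  refine (H0 lam L s h p ρ φ n hloc hsm hh0 hhs hhL' hn1).trans (ENNReal.ofReal_le_ofReal ?_)
  have hb : BddAbove ((fun x => |φ x|) '' closedBall p (32 * s)) := by
    refine (isCompact_closedBall p (32 * s)).bddAbove_image ?_
    intro z hz
    exact ((hloc.sol z hz).1.continuousAt).abs.continuousWithinAt
  have hlog : ∀ a : Fin n × Fin n, 1 + Real.log (sn φ (closedBall (p + s * cen n a) (10 * h)) /
      sn φ (closedBall (p + s * cen n a) h)) ≤ 1 + N := by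
    intro a
    have hsq := cen_mem_Sq a hs p
    have hsub : closedBall (p + s * cen n a) (10 * h) ⊆ closedBall p (32 * s) := by
      refine closedBall_subset_closedBall' ?_
      rw [dist_eq_norm]
      have := norm_le_of_Sq hsq
      linarith
    have hsub2 : closedBall (p + s * cen n a) h ⊆ closedBall (p + s * cen n a) (10 * h) :=
      closedBall_subset_closedBall (by linarith)
    have hp : 0 < sn φ (closedBall (p + s * cen n a) h) := hloc.pos _ _ hh0 (hsub2.trans hsub)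
    have hp2 : 0 < sn φ (closedBall (p + s * cen n a) (10 * h)) := hloc.pos _ _ (by linarith) hsub
    have h1 : sn φ (closedBall (p + s * cen n a) (10 * h)) ≤ sn φ (closedBall p (32 * s)) := by
      refine csSup_le_csSup hb ?_ (Set.image_mono hsub)
      exact (nonempty_closedBall.2 (by linarith)).image _
    have h2 := h1.trans (hgrow _ hsq)
    have h3 : sn φ (closedBall (p + s * cen n a) (10 * h)) / sn φ (closedBall (p + s * cen n a) h) ≤ Real.exp N := by
      rw [div_le_iff₀ hp]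
      exact h2
    have h4 := Real.log_le_log (div_pos hp2 hp) h3
    rw [Real.log_exp] at h4
    linarith
  have hsum : ∑ a : Fin n × Fin n, (1 + Real.log (sn φ (closedBall (p + s * cen n a) (10 * h)) /
      sn φ (closedBall (p + s * cen n a) h))) ≤ (n : ℝ) ^ 2 * (1 + N) := by
    refine (Finset.sum_le_sum fun a _ => hlog a).trans (le_of_eq ?_)
    simp [sq]
    ring
  gcongr

end Run7.h578.E8
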