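import Pool.Agent.Run7.h578.YE8a

/-!
# The length of the nodal set in a good piece (towards E8)
-/

set_option autoImplicit false
open MeasureTheory Filter Topology Complex Metric
open scoped ContDiff ENNReal NNReal

namespace Run7.h578.E8

open Pool.Agent.Q73.NL (lap)
open Pool.Agent.Q73.AD Run7.h341.NLen

universe u v

section

variable {M : Type u} [MetricSpace M] {φ : ℂ → M} {ρ : ℂ → ℝ} {V : Set ℂ} {z : ℂ} {R c L δ : ℝ}

/-- a disc contains the preimage of a small metric ball -/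
lemma small_ball (hG : Good φ ρ V z R c L δ) {f : M → ℝ}
    (hbdd : BddAbove ((fun x => |f x|) '' Set.univ)) {w : ℂ} (hw : w ∈ closedBall z (3 * R / 2)) {t : ℝ}
    (_ht : 0 < t) : sn f (ball (φ w) (min δ (c * t))) ≤ sn (fun w => f (φ w)) (closedBall w t) := by
  obtain ⟨Bf, hBf⟩ := hbdd
  have hBf' : ∀ x, |f x| ≤ Bf := fun x => hBf ⟨x, Set.mem_univ _, rfl⟩
  have hc := hG.c_pos
  have hR := hG.R_pos
  refine sn_le2 (sn_nonneg2 _ _) fun x hx => ?_
  have hx1 : x ∈ ball (φ w) δ := ball_subset_ball (min_le_left _ _) hx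
  obtain ⟨w', hw', rfl⟩ := hG.surj w hw hx1
  have h3 := (hG.lip w' hw' w (closedBall_subset_closedBall (by linarith) hw)).1
  have h4 : dist (φ w') (φ w) < c * t := lt_of_lt_of_le hx (min_le_right _ _)
  have h5 : ‖w' - w‖ < t := lt_of_mul_lt_mul_left (h3.trans_lt h4) hc.le
  have h6 : w' ∈ closedBall w t := by
    rw [mem_closedBall, dist_eq_norm]
    exact h5.le
  exact le_sn2 (f := fun w => f (φ w)) (fun w' _ => hBf' (φ w')) h6

lemma pos_disc (hG : Good φ ρ V z R c L δ) {f : M → ℝ}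
    (hbdd : BddAbove ((fun x => |f x|) '' Set.univ)) (hpos : ∀ x r, 0 < r → 0 < sn f (ball x r))
    {w : ℂ} (hw : w ∈ closedBall z (3 * R / 2)) {t : ℝ} (ht : 0 < t) :
    0 < sn (fun w => f (φ w)) (closedBall w t) := by
  have hc := hG.c_pos
  exact (hpos (φ w) _ (lt_min hG.δ_pos (by positivity))).trans_le (small_ball hG hbdd hw ht)

lemma loc_of_good (hG : Good φ ρ V z R c L δ) (hρ : ∀ w ∈ V, 0 ≤ ρ w) {s : ℝ} (hs : 0 < s) (hs1 : s ≤ 1)
    {lam : ℝ} (hlam : 0 < lam) {f : M → ℝ} (hsm : ContDiffOn ℝ ∞ (fun w => f (φ w)) V)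
    (heq : ∀ w ∈ V, lap (fun w => f (φ w)) w + lam * ρ w * f (φ w) = 0)
    (hbdd : BddAbove ((fun x => |f x|) '' Set.univ)) (hpos : ∀ x r, 0 < r → 0 < sn f (ball x r)) {p : ℂ}
    (hp : closedBall p (32 * s) ⊆ closedBall z (3 * R / 2)) : Loc lam L s p ρ (fun w => f (φ w)) := by
  have hR := hG.R_pos
  have hVn : ∀ y ∈ V, V ∈ 𝓝 y := fun y hy => hG.opn.mem_nhds hy
  have hsub2 : closedBall p (32 * s) ⊆ closedBall z (2 * R) :=
    hp.trans (closedBall_subset_closedBall (by linarith))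
  refine ⟨hlam, hs, hs1, ?_, ?_⟩
  · intro w hw
    have hw2 := hsub2 hw
    have hwV := hG.sub hw2
    exact ⟨(hsm w hwV).contDiffAt (hVn w hwV), (hG.smooth w hwV).contDiffAt (hVn w hwV), hρ w hwV,
      (le_abs_self _).trans (hG.bd w hw2).1, (hG.bd w hw2).2, heq w hwV⟩
  · intro w t ht hwt
    exact pos_disc hG hbdd hpos (hp (hwt (mem_closedBall_self ht.le))) ht

/-- images of sets in a good piece -/
lemma image_le [MeasurableSpace M] [BorelSpace M] (hG : Good φ ρ V z R c L δ) {E : Set ℂ}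
    (hE : E ⊆ closedBall z (2 * R)) : μH[1] (φ '' E) ≤ ENNReal.ofReal (1 / c) * μH[1] E := by
  have hc := hG.c_pos
  have hlip : LipschitzOnWith (Real.toNNReal (1 / c)) φ E := by
    refine LipschitzOnWith.of_dist_le_mul fun x hx y hy => ?_
    have h1 := (hG.lip x (hE hx) y (hE hy)).2
    rw [Real.coe_toNNReal _ (by positivity), dist_eq_norm x y]
    rw [one_div, inv_mul_eq_div, le_div_iff₀ hc]
    linarith
  have h := hlip.hausdorffMeasure_image_le (d := 1) zero_le_one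
  simpa [ENNReal.ofReal] using h

/-- from squares to a good piece -/
theorem w4 [MeasurableSpace M] [BorelSpace M] (hG : Good φ ρ V z R c L δ) {s : ℝ} (hs : 0 < s)
    (hsR : 100 * s ≤ R) {f : M → ℝ} (B : ℝ≥0∞)
    (hB : ∀ p : ℂ, closedBall p (32 * s) ⊆ closedBall z (3 * R / 2) →
      μH[1] {w : ℂ | w ∈ Sq p s ∧ f (φ w) = 0} ≤ B) :
    μH[1] {x | f x = 0 ∧ x ∈ φ '' closedBall z R} ≤
      ((2 * ⌈R / (2 * s) + 1⌉₊ + 1) ^ 2 : ℕ) * (ENNReal.ofReal (1 / c) * B) := by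
  classical
  have hR := hG.R_pos
  set Q : ℕ := ⌈R / (2 * s) + 1⌉₊ with hQ
  set IS : Finset (ℤ × ℤ) := Finset.Icc (-(Q : ℤ)) Q ×ˢ Finset.Icc (-(Q : ℤ)) Q with hIS
  have hIScard : IS.card = (2 * Q + 1) ^ 2 := by
    rw [hIS, Finset.card_product, Int.card_Icc]
    have : ((Q : ℤ) + 1 - -(Q : ℤ)).toNat = 2 * Q + 1 := by omega
    rw [this]
    ring
  set E : ℤ × ℤ → Set ℂ := fun m => {w : ℂ | w ∈ Sq (rt z s m) s ∧ f (φ w) = 0 ∧ w ∈ closedBall z R} with hE
  have hcov : {x | f x = 0 ∧ x ∈ φ '' closedBall z R} ⊆ ⋃ m ∈ IS, φ '' (E m) := by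
    rintro x ⟨hx, w, hw, rfl⟩
    have hw' : ‖w - z‖ ≤ R := by rwa [mem_closedBall, dist_eq_norm] at hw
    obtain ⟨m, h1, h2, h3, h4⟩ := locate2 hs hw'
    have hQr : R / (2 * s) + 1 ≤ Q := Nat.le_ceil _
    have key : ∀ k : ℤ, |(k : ℝ)| ≤ R / (2 * s) + 1 → k ∈ Finset.Icc (-(Q : ℤ)) Q := by
      intro k hk
      have h1 := abs_le.1 (hk.trans hQr)
      rw [Finset.mem_Icc]
      constructor
      · have : ((-(Q : ℤ) : ℤ) : ℝ) ≤ k := by push_cast; linarith [h1.1]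
        exact_mod_cast this
      · have : (k : ℝ) ≤ ((Q : ℤ) : ℝ) := by push_cast; linarith [h1.2]
        exact_mod_cast this
    refine Set.mem_biUnion (x := m) ?_ ⟨w, ⟨⟨h1, h2⟩, hx, hw⟩, rfl⟩
    rw [Finset.mem_coe, hIS, Finset.mem_product]
    exact ⟨key _ h3, key _ h4⟩
  have hone : ∀ m, μH[1] (φ '' (E m)) ≤ ENNReal.ofReal (1 / c) * B := by
    intro m
    have hsub : E m ⊆ closedBall z (2 * R) := by
      rintro w ⟨-, -, hw⟩
      exact closedBall_subset_closedBall (by linarith) hw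
    refine (image_le hG hsub).trans ?_
    rcases (E m).eq_empty_or_nonempty with he | ⟨w₀, h1, h2, h3⟩
    · rw [he]
      simp
    · gcongr
      have hpz : ‖rt z s m - z‖ ≤ R + 2 * s := by
        have e : rt z s m - z = (w₀ - z) - (w₀ - rt z s m) := by ring
        rw [e]
        refine (norm_sub_le _ _).trans ?_
        have h5 := norm_le_of_Sq h1
        rw [mem_closedBall, dist_eq_norm] at h3
        linarith
      refine le_trans (measure_mono ?_) (hB (rt z s m) ?_)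
      · rintro w ⟨g1, g2, -⟩
        exact ⟨g1, g2⟩
      · refine closedBall_subset_closedBall' ?_
        rw [dist_eq_norm]
        linarith
  calc μH[1] {x | f x = 0 ∧ x ∈ φ '' closedBall z R} ≤ μH[1] (⋃ m ∈ IS, φ '' (E m)) := measure_mono hcov
    _ ≤ ∑ m ∈ IS, μH[1] (φ '' (E m)) := measure_biUnion_finset_le _ _
    _ ≤ ∑ m ∈ IS, ENNReal.ofReal (1 / c) * B := Finset.sum_le_sum fun m _ => hone m
    _ = _ := by
        rw [Finset.sum_const, hIScard, nsmul_eq_mul]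

end

/-- the length of the nodal set in a good piece, large eigenvalues -/
theorem w5 (h7 : E7) (h6 : Z6) : ∀ (M : Type u) [MetricSpace M] [MeasurableSpace M] [BorelSpace M]
    (φ : ℂ → M) (ρ : ℂ → ℝ) (V : Set ℂ) (z : ℂ) (R c L δ : ℝ), Good φ ρ V z R c L δ → (∀ w ∈ V, 0 ≤ ρ w) →
    ContDiffOn ℝ ∞ ρ V →
    ∃ r₀ : ℝ, 0 < r₀ ∧ ∀ Cg : ℝ, 0 < Cg → ∃ A : ℝ, 0 < A ∧ ∃ lam₀ : ℝ, 0 < lam₀ ∧
    ∀ (lam : ℝ) (f : M → ℝ), lam₀ ≤ lam →
      ContDiffOn ℝ ∞ (fun w => f (φ w)) V →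
      (∀ w ∈ V, lap (fun w => f (φ w)) w + lam * ρ w * f (φ w) = 0) →
      BddAbove ((fun x => |f x|) '' Set.univ) → (∀ x r, 0 < r → 0 < sn f (ball x r)) →
      (∀ x : M, sn f Set.univ ≤ Real.exp (Cg * (1 + Real.sqrt lam)) * sn f (ball x r₀)) →
      μH[1] {x | f x = 0 ∧ x ∈ φ '' closedBall z R} ≤ ENNReal.ofReal (A * Real.sqrt lam) := by
  intro M _ _ _ φ ρ V z R c L δ hG hρ hρs
  obtain ⟨s₁, hs₁, H2⟩ := w2 h7 h6
  have hc := hG.c_pos
  have hR := hG.R_pos
  have hR1 := hG.R_le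
  have hδ := hG.δ_pos
  set s : ℝ := min s₁ (R / 100) with hsdef
  have hs0 : 0 < s := lt_min hs₁ (by positivity)
  have hss₁ : s ≤ s₁ := min_le_left _ _
  have hsR : 100 * s ≤ R := by
    have : s ≤ R / 100 := min_le_right _ _
    linarith
  refine ⟨min δ (c * (2 * s)), by positivity, fun Cg hCg => ?_⟩
  obtain ⟨A, lam₀, hA, hlam₀, H⟩ := H2 s L (2 * Cg / s) hs0 hss₁ hG.L_ge (by positivity)
  set q : ℕ := (2 * ⌈R / (2 * s) + 1⌉₊ + 1) ^ 2 with hq
  have hq0 : 0 < q := by positivity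
  have hqr : (0 : ℝ) < q := by exact_mod_cast hq0
  refine ⟨q * (1 / c * A), by positivity, max lam₀ 1, by positivity, ?_⟩
  intro lam f hlam hsm heq hbdd hpos hgrow
  have hlam0 : lam₀ ≤ lam := (le_max_left _ _).trans hlam
  have hlam1 : 1 ≤ lam := (le_max_right _ _).trans hlam
  set sl : ℝ := Real.sqrt lam with hsl
  have hsl1 : 1 ≤ sl := Real.one_le_sqrt.2 hlam1
  have hVn : ∀ y ∈ V, V ∈ 𝓝 y := fun y hy => hG.opn.mem_nhds hy
  have hBf := hbdd
  obtain ⟨Bf, hBf⟩ := hBf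
  have hBf' : ∀ x, |f x| ≤ Bf := fun x => hBf ⟨x, Set.mem_univ _, rfl⟩
  have key := w4 hG hs0 hsR (f := f) (ENNReal.ofReal (A * sl)) (by
    intro p hp
    have hloc := loc_of_good hG hρ hs0 (by linarith) (by linarith) hsm heq hbdd hpos hp
    refine H lam p ρ (fun w => f (φ w)) hlam0 hloc ?_ ?_
    · intro w hw
      have hwV := hG.sub (closedBall_subset_closedBall (by linarith) (hp hw))
      exact (hρs w hwV).contDiffAt (hVn w hwV)
    · have hpz : p ∈ closedBall z (3 * R / 2) := hp (mem_closedBall_self (by linarith))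
      have h1 : sn (fun w => f (φ w)) (closedBall p (32 * s)) ≤ sn f Set.univ :=
        sn_le2 (sn_nonneg2 _ _) fun w _ => le_sn2 (fun x _ => hBf' x) (Set.mem_univ (φ w))
      have h2 := small_ball hG hbdd hpz (t := 2 * s) (by linarith)
      have h3 := hgrow (φ p)
      have hp2 := pos_disc hG hbdd hpos hpz (t := 2 * s) (by linarith)
      have hp32 := pos_disc hG hbdd hpos hpz (t := 32 * s) (by linarith)
      have h4 : sn (fun w => f (φ w)) (closedBall p (32 * s)) / sn (fun w => f (φ w)) (closedBall p (2 * s)) ≤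
          Real.exp (Cg * (1 + sl)) := by
        rw [div_le_iff₀ hp2]
        calc _ ≤ _ := h1
          _ ≤ _ := h3
          _ ≤ _ := mul_le_mul_of_nonneg_left h2 (Real.exp_pos _).le
      have h5 := Real.log_le_log (div_pos hp32 hp2) h4
      rw [Real.log_exp] at h5
      unfold gr
      refine h5.trans ?_
      have e : 2 * Cg / s * (sl * s) = 2 * Cg * sl := by field_simp
      rw [e]
      nlinarith)
  refine key.trans (le_of_eq ?_)
  rw [← hq, ← ENNReal.ofReal_mul (by positivity), ← ENNReal.ofReal_natCast, ← ENNReal.ofReal_mul (by positivity)]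
  congr 1
  ring

/-- the length of the nodal set in a good piece, bounded eigenvalues -/
theorem w6 (h7 : E7) : ∀ (M : Type u) [MetricSpace M] [MeasurableSpace M] [BorelSpace M]
    (φ : ℂ → M) (ρ : ℂ → ℝ) (V : Set ℂ) (z : ℂ) (R c L δ Λ : ℝ), Good φ ρ V z R c L δ → (∀ w ∈ V, 0 ≤ ρ w) →
    ContDiffOn ℝ ∞ ρ V → 0 < Λ →
    ∃ r₀ : ℝ, 0 < r₀ ∧ ∀ Cg : ℝ, 0 < Cg → ∃ B : ℝ, 0 ≤ B ∧
    ∀ (lam : ℝ) (f : M → ℝ), 0 < lam → lam ≤ Λ →
      ContDiffOn ℝ ∞ (fun w => f (φ w)) V →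
      (∀ w ∈ V, lap (fun w => f (φ w)) w + lam * ρ w * f (φ w) = 0) →
      BddAbove ((fun x => |f x|) '' Set.univ) → (∀ x r, 0 < r → 0 < sn f (ball x r)) →
      (∀ x : M, sn f Set.univ ≤ Real.exp (Cg * (1 + Real.sqrt lam)) * sn f (ball x r₀)) →
      μH[1] {x | f x = 0 ∧ x ∈ φ '' closedBall z R} ≤ ENNReal.ofReal B := by
  intro M _ _ _ φ ρ V z R c L δ Λ hG hρ hρs hΛ
  have hc := hG.c_pos
  have hR := hG.R_pos
  have hR1 := hG.R_le
  have hδ := hG.δ_pos
  set s : ℝ := R / 100 with hsdef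
  have hs0 : 0 < s := by positivity
  have hsR : 100 * s ≤ R := by rw [hsdef]; linarith
  obtain ⟨h, hh, H⟩ := w3 h7 s L Λ hs0 (by linarith) hG.L_ge hΛ
  refine ⟨min δ (c * h), by positivity, fun Cg hCg => ?_⟩
  obtain ⟨B, hB, H'⟩ := H (Cg * (1 + Real.sqrt Λ)) (by positivity)
  set q : ℕ := (2 * ⌈R / (2 * s) + 1⌉₊ + 1) ^ 2 with hq
  refine ⟨q * (1 / c * B), by positivity, ?_⟩
  intro lam f hlam hlamΛ hsm heq hbdd hpos hgrow
  have hVn : ∀ y ∈ V, V ∈ 𝓝 y := fun y hy => hG.opn.mem_nhds hy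
  have hBf := hbdd
  obtain ⟨Bf, hBf⟩ := hBf
  have hBf' : ∀ x, |f x| ≤ Bf := fun x => hBf ⟨x, Set.mem_univ _, rfl⟩
  have key := w4 hG hs0 hsR (f := f) (ENNReal.ofReal B) (by
    intro p hp
    have hloc := loc_of_good hG hρ hs0 (by linarith) hlam hsm heq hbdd hpos hp
    refine H' lam p ρ (fun w => f (φ w)) hlamΛ hloc ?_ ?_
    · intro w hw
      have hwV := hG.sub (closedBall_subset_closedBall (by linarith) (hp hw))
      exact (hρs w hwV).contDiffAt (hVn w hwV)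
    · intro w hw
      have hwz : w ∈ closedBall z (3 * R / 2) := by
        apply hp
        rw [mem_closedBall, dist_eq_norm]
        have := norm_le_of_Sq hw
        linarith
      have h1 : sn (fun w => f (φ w)) (closedBall p (32 * s)) ≤ sn f Set.univ :=
        sn_le2 (sn_nonneg2 _ _) fun w _ => le_sn2 (fun x _ => hBf' x) (Set.mem_univ (φ w))
      have h2 := small_ball hG hbdd hwz hh
      have h3 := hgrow (φ w)
      have h4 : Real.exp (Cg * (1 + Real.sqrt lam)) ≤ Real.exp (Cg * (1 + Real.sqrt Λ)) := by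
        gcongr
      calc _ ≤ _ := h1
        _ ≤ _ := h3
        _ ≤ Real.exp (Cg * (1 + Real.sqrt Λ)) * sn f (ball (φ w) (min δ (c * h))) :=
            mul_le_mul_of_nonneg_right h4 (sn_nonneg2 _ _)
        _ ≤ _ := mul_le_mul_of_nonneg_left h2 (Real.exp_pos _).le)
  refine key.trans (le_of_eq ?_)
  rw [← hq, ← ENNReal.ofReal_mul (by positivity), ← ENNReal.ofReal_natCast, ← ENNReal.ofReal_mul (by positivity)]

end Run7.h578.E8
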