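import Pool.Agent.Run7.h578.YE8
import Pool.Agent.Q73.NL.T5
import Pool.Agent.Q73.AD.TA5

/-!
# There are no small eigenvalues on a closed surface

Let `|f| ≤ 1 = f (x₀)`. Then `v = 1 - f` is nonnegative, `|Δv| ≤ L lam`, hence `v ≤ C lam` by the Harnack
inequality, so `f > 0` if `lam` is small, which is impossible at the minimum of `f`.
-/

set_option autoImplicit false
open MeasureTheory Filter Topology Complex Metric
open scoped ContDiff ENNReal NNReal

namespace Run7.h578.E8

open Pool.Agent.Q73.NL (lap dx dy line_der snd_test line_cont dd_eq dd_sub lap_sub)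
open Pool.Agent.Q73.AD Run7.h341.NLen

universe u v

/-! ### The Laplacian -/

lemma lap_nonneg_of_localMin {h : ℂ → ℝ} {z : ℂ} (hs : ContDiffAt ℝ 2 h z) (hm : IsLocalMin h z) :
    0 ≤ lap h z := by
  have key : ∀ e : ℂ, 0 ≤ fderiv ℝ (fun w => fderiv ℝ h w e) z e := by
    intro e
    obtain ⟨h1, h2⟩ := line_der e hs
    refine snd_test h1 h2 ?_
    have ht : Tendsto (fun s : ℝ => z + s • e) (𝓝 0) (𝓝 z) := by
      have := (line_cont z e).tendsto 0
      simpa using this
    have := ht.eventually hm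
    filter_upwards [this] with s hs
    simpa using hs
  exact add_nonneg (key 1) (key Complex.I)

/-- the square of the distance -/
def qd (p x : ℂ) : ℝ := (x - p).re ^ 2 + (x - p).im ^ 2

lemma qd_eq (p x : ℂ) : qd p x = ‖x - p‖ ^ 2 := by
  rw [Complex.sq_norm, Complex.normSq_apply, qd]
  ring

lemma qd_smooth (p : ℂ) : ContDiff ℝ ∞ (qd p) := by
  unfold qd
  have h1 : ContDiff ℝ ∞ fun z : ℂ => (z - p).re :=
    reCLM.contDiff.comp (contDiff_id.sub contDiff_const)
  have h2 : ContDiff ℝ ∞ fun z : ℂ => (z - p).im :=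
    imCLM.contDiff.comp (contDiff_id.sub contDiff_const)
  exact (h1.pow 2).add (h2.pow 2)

lemma qd_smooth2 (p z : ℂ) : ContDiffAt ℝ 2 (qd p) z :=
  (qd_smooth p).contDiffAt.of_le (by norm_cast)

lemma qd_lap (p z : ℂ) : lap (qd p) z = 4 := by
  have hs := qd_smooth2 p z
  set x := (z - p).re with hx
  set y := (z - p).im with hy
  have hder : ∀ a b : ℝ, (∀ s : ℝ, HasDerivAt (fun s : ℝ => (a + s) ^ 2 + b) (2 * (a + s)) s) := by
    intro a b s
    have h2 : HasDerivAt (fun s : ℝ => a + s) 1 s := (hasDerivAt_id s).const_add a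
    refine ((h2.pow 2).add_const b).congr_deriv ?_
    norm_num
  have hder2 : ∀ a : ℝ, HasDerivAt (fun s : ℝ => 2 * (a + s)) 2 0 := by
    intro a
    have h2 : HasDerivAt (fun s : ℝ => a + s) 1 0 := (hasDerivAt_id (0 : ℝ)).const_add a
    refine (h2.const_mul 2).congr_deriv ?_
    norm_num
  have e1 : fderiv ℝ (fun w => fderiv ℝ (qd p) w 1) z 1 = 2 := by
    refine dd_eq hs (g' := fun s => 2 * (x + s)) ?_ (hder2 x)
    intro s
    have h1 : (fun s : ℝ => qd p (z + s • (1 : ℂ))) = fun s => (x + s) ^ 2 + y ^ 2 := by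
      funext s
      have r1 : (z + s • (1 : ℂ) - p).re = x + s := by
        simp [hx]
        ring
      have r2 : (z + s • (1 : ℂ) - p).im = y := by simp [hy]
      rw [qd, r1, r2]
    rw [h1]
    exact hder x (y ^ 2) s
  have e2 : fderiv ℝ (fun w => fderiv ℝ (qd p) w I) z I = 2 := by
    refine dd_eq hs (g' := fun s => 2 * (y + s)) ?_ (hder2 y)
    intro s
    have h1 : (fun s : ℝ => qd p (z + s • I)) = fun s => (y + s) ^ 2 + x ^ 2 := by
      funext s
      have r1 : (z + s • I - p).re = x := by simp [hx]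
      have r2 : (z + s • I - p).im = y + s := by
        simp [hy]
        ring
      rw [qd, r1, r2]
      ring
    rw [h1]
    exact hder y (x ^ 2) s
  have e : lap (qd p) z = fderiv ℝ (fun w => fderiv ℝ (qd p) w 1) z 1 +
    fderiv ℝ (fun w => fderiv ℝ (qd p) w I) z I := rfl
  rw [e, e1, e2]
  norm_num

lemma lap_const (c : ℝ) (z : ℂ) : lap (fun _ => c) z = 0 := by
  have e : ∀ k : ℂ → ℝ, lap k z = fderiv ℝ (fun w => fderiv ℝ k w 1) z 1 +
    fderiv ℝ (fun w => fderiv ℝ k w I) z I := fun k => rfl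
  rw [e]
  simp

lemma lap_re (z : ℂ) : lap Complex.re z = 0 := by
  have e : ∀ k : ℂ → ℝ, lap k z = fderiv ℝ (fun w => fderiv ℝ k w 1) z 1 +
    fderiv ℝ (fun w => fderiv ℝ k w I) z I := fun k => rfl
  have h1 : ∀ w : ℂ, fderiv ℝ Complex.re w = reCLM := fun w => reCLM.fderiv
  rw [e]
  simp [h1]

lemma lap_re_analytic {G : ℂ → ℂ} {z : ℂ} (hG : AnalyticAt ℂ G z) : lap (fun x => (G x).re) z = 0 := by
  have h1 := ta5 G Complex.re z hG (reCLM.contDiff.contDiffAt)
  rw [h1, lap_re, mul_zero]

lemma re_analytic_smooth {G : ℂ → ℂ} {z : ℂ} (hG : AnalyticAt ℂ G z) :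
    ContDiffAt ℝ 2 (fun x => (G x).re) z := by
  have h1 : ContDiffAt ℝ 2 G z := hG.contDiffAt.restrict_scalars ℝ
  exact (reCLM.contDiff.contDiffAt (x := G z)).comp z h1

/-! ### The mean value inequality for exponentials -/

lemma nc_exp {D : Set ℂ} {g : ℂ → ℝ} (hg : ∀ x ∈ D, ContDiffAt ℝ 2 g x ∧ 0 ≤ lap g x) :
    NC D (fun x => Real.exp (g x)) := by
  intro x₀ G ε r hx₀ _ hG hε hr _ hcon
  obtain ⟨hg1, hg2⟩ := hg x₀ hx₀
  have hGs := re_analytic_smooth hG
  have hqs : ContDiffAt ℝ 2 (fun x => ε * qd x₀ x) x₀ := contDiffAt_const.mul (qd_smooth2 x₀ x₀)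
  have hmin : IsLocalMin (fun x => ((G x).re - ε * qd x₀ x) - g x) x₀ := by
    filter_upwards [ball_mem_nhds x₀ hr] with x hx
    have h1 := hcon x hx
    simp only at h1
    rw [← Real.exp_add, Real.exp_le_exp, Complex.sub_re, ← qd_eq] at h1
    have h2 : qd x₀ x₀ = 0 := by simp [qd]
    rw [h2]
    linarith
  have h1 := lap_nonneg_of_localMin ((hGs.sub hqs).sub hg1) hmin
  rw [lap_sub (hGs.sub hqs) hg1, lap_sub hGs hqs, lap_re_analytic hG, lap_const_mul', qd_lap] at h1
  linarith

lemma mean_exp (h5 : C5) {D : Set ℂ} (hD : IsOpen D) {g : ℂ → ℝ}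
    (hg : ∀ x ∈ D, ContDiffAt ℝ 2 g x ∧ 0 ≤ lap g x ∧ g x ≤ 0) {x₀ : ℂ} {r : ℝ} (hr : 0 < r)
    (hsub : closedBall x₀ r ⊆ D) :
    Real.exp (g x₀) * (Real.pi * r ^ 2) ≤ ∫ x in ball x₀ r, Real.exp (g x) := by
  refine h5 D (fun x => Real.exp (g x)) hD ?_ ?_ (nc_exp fun x hx => ⟨(hg x hx).1, (hg x hx).2.1⟩) x₀ r hr hsub
  · intro x hx
    exact ⟨(Real.exp_pos _).le, Real.exp_le_one_iff.2 (hg x hx).2.2⟩
  · have hc : ContinuousOn (fun x => Real.exp (g x)) D := fun x hx =>
      (Real.continuous_exp.continuousAt.comp (hg x hx).1.continuousAt).continuousWithinAt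
    exact hc.upperSemicontinuousOn

/-! ### The Harnack inequality in the plane -/

theorem harnack (h5 : C5) {v : ℂ → ℝ} {z : ℂ} {R κ : ℝ} (hR : 0 < R) (hκ : 0 ≤ κ)
    (hv : ∀ x ∈ ball z R, ContDiffAt ℝ 2 v x ∧ |lap v x| ≤ κ ∧ 0 ≤ v x ∧ v x ≤ 2) {y y' : ℂ}
    (hy : y ∈ ball z (R / 8)) (hy' : y' ∈ ball z (R / 8)) :
    v y' ≤ (1 + 4 * Real.exp 4) * (v y + κ * R ^ 2 / 4) := by
  set D : Set ℂ := ball z R with hD
  set s : ℝ := R / 4 with hs
  have hs0 : 0 < s := by positivity
  set K : ℝ := κ * R ^ 2 / 4 with hK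
  have hK0 : 0 ≤ K := by positivity
  have hsub1 : closedBall y (2 * s) ⊆ D := by
    intro x hx
    rw [mem_closedBall] at hx
    rw [mem_ball] at hy
    rw [hD, mem_ball]
    have := dist_triangle x y z
    linarith
  have hsub2 : closedBall y' s ⊆ D := by
    intro x hx
    rw [mem_closedBall] at hx
    rw [mem_ball] at hy'
    rw [hD, mem_ball]
    have := dist_triangle x y' z
    linarith
  have hsub3 : ball y' s ⊆ ball y (2 * s) := by
    intro x hx
    rw [mem_ball] at hx hy hy' ⊢
    have h1 := dist_triangle x y' y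
    have h2 := dist_triangle y' z y
    rw [dist_comm z y] at h2
    linarith
  have hqd : ∀ x ∈ D, 0 ≤ qd z x ∧ qd z x ≤ R ^ 2 := by
    intro x hx
    rw [qd_eq]
    rw [hD, mem_ball, dist_eq_norm] at hx
    exact ⟨by positivity, by gcongr⟩
  have hcv : ContinuousOn v D := fun x hx => (hv x hx).1.continuousAt.continuousWithinAt
  -- integrability
  have hint : ∀ (F : ℝ → ℝ), Continuous F → ∀ S, S ⊆ closedBall y (2 * s) →
      IntegrableOn (fun x => F (v x)) S := by
    intro F hF S hS
    have h1 : ContinuousOn (fun x => F (v x)) (closedBall y (2 * s)) :=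
      hF.comp_continuousOn (hcv.mono hsub1)
    exact (h1.integrableOn_compact (isCompact_closedBall _ _)).mono_set hS
  have hvol : ∀ (w : ℂ) (t : ℝ), 0 ≤ t → ∫ _ in ball w t, (1 : ℝ) = Real.pi * t ^ 2 := by
    intro w t ht
    rw [setIntegral_const, smul_eq_mul, mul_one, Measure.real, Complex.volume_ball]
    rw [ENNReal.toReal_mul, ENNReal.toReal_pow, ENNReal.toReal_ofReal ht]
    simp
    ring
  have hqs : ∀ x, ContDiffAt ℝ 2 (fun x => κ / 4 * qd z x) x := fun x => contDiffAt_const.mul (qd_smooth2 z x)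
  have hql : ∀ x, lap (fun x => κ / 4 * qd z x) x = κ := fun x => by
    rw [lap_const_mul', qd_lap]
    ring
  -- the first inequality
  have hm1 : ∫ x in ball y (2 * s), v x ≤ Real.exp 2 * (Real.pi * (2 * s) ^ 2 * (v y + K)) := by
    have hg : ∀ x ∈ D, ContDiffAt ℝ 2 (fun x => κ / 4 * qd z x - (v x - (-K))) x ∧
        0 ≤ lap (fun x => κ / 4 * qd z x - (v x - (-K))) x ∧ κ / 4 * qd z x - (v x - (-K)) ≤ 0 := by
      intro x hx
      obtain ⟨g1, g2, g3, g4⟩ := hv x hx
      have g5 := hqd x hx
      have hvc : ContDiffAt ℝ 2 (fun x => v x - (-K)) x := g1.sub contDiffAt_const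
      refine ⟨(hqs x).sub hvc, ?_, ?_⟩
      · rw [lap_sub (hqs x) hvc, lap_sub g1 contDiffAt_const, lap_const, hql]
        rw [abs_le] at g2
        linarith [g2.2]
      · have : κ / 4 * qd z x ≤ K := by
          rw [hK]
          nlinarith [g5.2]
        linarith
    have h1 := mean_exp h5 isOpen_ball hg (x₀ := y) (r := 2 * s) (by positivity) hsub1
    have h2 : ∫ x in ball y (2 * s), Real.exp (κ / 4 * qd z x - (v x - (-K))) ≤
        ∫ x in ball y (2 * s), Real.exp (-v x) := by
      refine setIntegral_mono_on ?_ (hint (fun t => Real.exp (-t)) (by fun_prop) _ ball_subset_closedBall)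
        measurableSet_ball ?_
      · have hc : ContinuousOn (fun x => Real.exp (κ / 4 * qd z x - (v x - (-K)))) (closedBall y (2 * s)) := by
          intro x hx
          have := (hg x (hsub1 hx)).1.continuousAt
          exact (Real.continuous_exp.continuousAt.comp this).continuousWithinAt
        exact (hc.integrableOn_compact (isCompact_closedBall _ _)).mono_set ball_subset_closedBall
      · intro x hx
        have hxD := hsub1 (ball_subset_closedBall hx)
        have g5 := hqd x hxD
        have : κ / 4 * qd z x ≤ K := by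
          rw [hK]
          nlinarith [g5.2]
        exact Real.exp_le_exp.2 (by linarith)
    have h3 : Real.exp (-v y - K) ≤ Real.exp (κ / 4 * qd z y - (v y - (-K))) := by
      have hyD : y ∈ D := hsub1 (mem_closedBall_self (by positivity))
      have g5 := hqd y hyD
      have : 0 ≤ κ / 4 * qd z y := mul_nonneg (by positivity) g5.1
      exact Real.exp_le_exp.2 (by linarith)
    have hpi : 0 < Real.pi * (2 * s) ^ 2 := by positivity
    have h4 : 1 - (v y + K) ≤ Real.exp (-v y - K) := by
      have := Real.add_one_le_exp (-v y - K)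
      linarith
    have h5' : (1 - (v y + K)) * (Real.pi * (2 * s) ^ 2) ≤ ∫ x in ball y (2 * s), Real.exp (-v x) :=
      (mul_le_mul_of_nonneg_right (h4.trans h3) hpi.le).trans (h1.trans h2)
    have h6 : ∫ x in ball y (2 * s), (1 - Real.exp (-v x)) ≤ Real.pi * (2 * s) ^ 2 * (v y + K) := by
      rw [integral_sub (hint (fun _ => 1) continuous_const _ ball_subset_closedBall)
        (hint (fun t => Real.exp (-t)) (by fun_prop) _ ball_subset_closedBall), hvol y (2 * s) (by positivity)]
      linarith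
    have h7 : ∫ x in ball y (2 * s), v x ≤ ∫ x in ball y (2 * s), Real.exp 2 * (1 - Real.exp (-v x)) := by
      refine setIntegral_mono_on (hint (fun t => t) continuous_id _ ball_subset_closedBall)
        (hint (fun t => Real.exp 2 * (1 - Real.exp (-t))) (by fun_prop) _ ball_subset_closedBall)
        measurableSet_ball ?_
      intro x hx
      obtain ⟨-, -, g3, g4⟩ := hv x (hsub1 (ball_subset_closedBall hx))
      have a1 : v x * Real.exp (-v x) ≤ 1 - Real.exp (-v x) := by
        have b1 := Real.add_one_le_exp (v x)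
        have b2 : Real.exp (v x) * Real.exp (-v x) = 1 := by rw [← Real.exp_add]; simp
        have b3 := Real.exp_pos (-v x)
        nlinarith
      have a2 : 1 ≤ Real.exp 2 * Real.exp (-v x) := by
        rw [← Real.exp_add]
        exact Real.one_le_exp (by linarith)
      calc v x ≤ v x * (Real.exp 2 * Real.exp (-v x)) := le_mul_of_one_le_right g3 a2
        _ = Real.exp 2 * (v x * Real.exp (-v x)) := by ring
        _ ≤ Real.exp 2 * (1 - Real.exp (-v x)) := by gcongr
    refine h7.trans ?_
    rw [integral_const_mul]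
    gcongr
  -- the second inequality
  have hm2 : Real.pi * s ^ 2 * (v y' - K) ≤ Real.exp 2 * ∫ x in ball y (2 * s), v x := by
    have hg : ∀ x ∈ D, ContDiffAt ℝ 2 (fun x => κ / 4 * qd z x - ((2 + K) - v x)) x ∧
        0 ≤ lap (fun x => κ / 4 * qd z x - ((2 + K) - v x)) x ∧ κ / 4 * qd z x - ((2 + K) - v x) ≤ 0 := by
      intro x hx
      obtain ⟨g1, g2, g3, g4⟩ := hv x hx
      have g5 := hqd x hx
      have hvc : ContDiffAt ℝ 2 (fun x => (2 + K) - v x) x := contDiffAt_const.sub g1
      refine ⟨(hqs x).sub hvc, ?_, ?_⟩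
      · rw [lap_sub (hqs x) hvc, lap_sub contDiffAt_const g1, lap_const, hql]
        rw [abs_le] at g2
        linarith [g2.1]
      · have : κ / 4 * qd z x ≤ K := by
          rw [hK]
          nlinarith [g5.2]
        linarith
    have h1 := mean_exp h5 isOpen_ball hg (x₀ := y') (r := s) hs0 hsub2
    have hsub4 : ball y' s ⊆ closedBall y (2 * s) := hsub3.trans ball_subset_closedBall
    have h2 : ∫ x in ball y' s, Real.exp (κ / 4 * qd z x - ((2 + K) - v x)) ≤
        ∫ x in ball y' s, Real.exp (v x - 2) := by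
      refine setIntegral_mono_on ?_ (hint (fun t => Real.exp (t - 2)) (by fun_prop) _ hsub4)
        measurableSet_ball ?_
      · have hc : ContinuousOn (fun x => Real.exp (κ / 4 * qd z x - ((2 + K) - v x))) (closedBall y' s) := by
          intro x hx
          have := (hg x (hsub2 hx)).1.continuousAt
          exact (Real.continuous_exp.continuousAt.comp this).continuousWithinAt
        exact (hc.integrableOn_compact (isCompact_closedBall _ _)).mono_set ball_subset_closedBall
      · intro x hx
        have hxD := hsub2 (ball_subset_closedBall hx)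
        have g5 := hqd x hxD
        have : κ / 4 * qd z x ≤ K := by
          rw [hK]
          nlinarith [g5.2]
        exact Real.exp_le_exp.2 (by linarith)
    have h3 : Real.exp (v y' - K - 2) ≤ Real.exp (κ / 4 * qd z y' - ((2 + K) - v y')) := by
      have hyD : y' ∈ D := hsub2 (mem_closedBall_self (by positivity))
      have g5 := hqd y' hyD
      have : 0 ≤ κ / 4 * qd z y' := mul_nonneg (by positivity) g5.1
      exact Real.exp_le_exp.2 (by linarith)
    have hpi : 0 < Real.pi * s ^ 2 := by positivity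
    have h4 : Real.exp (v y' - K - 2) * (Real.pi * s ^ 2) ≤ ∫ x in ball y' s, Real.exp (v x - 2) :=
      (mul_le_mul_of_nonneg_right h3 hpi.le).trans (h1.trans h2)
    have e2 : ∀ t : ℝ, Real.exp 2 * Real.exp (t - 2) = Real.exp t := fun t => by
      rw [← Real.exp_add]; ring_nf
    have h5' : Real.exp (v y' - K) * (Real.pi * s ^ 2) ≤ ∫ x in ball y' s, Real.exp (v x) := by
      have a1 := mul_le_mul_of_nonneg_left h4 (Real.exp_pos 2).le
      rw [← integral_const_mul, ← mul_assoc, e2] at a1
      refine a1.trans (le_of_eq ?_)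
      congr 1
      funext x
      exact e2 _
    have h6 : Real.pi * s ^ 2 * (v y' - K) ≤ ∫ x in ball y' s, (Real.exp (v x) - 1) := by
      rw [integral_sub (hint Real.exp Real.continuous_exp _ hsub4)
        (hint (fun _ => 1) continuous_const _ hsub4), hvol y' s hs0.le]
      have := Real.add_one_le_exp (v y' - K)
      nlinarith
    refine h6.trans ?_
    have h7 : ∫ x in ball y' s, (Real.exp (v x) - 1) ≤ ∫ x in ball y' s, Real.exp 2 * v x := by
      refine setIntegral_mono_on (hint (fun t => Real.exp t - 1) (by fun_prop) _ hsub4)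
        (hint (fun t => Real.exp 2 * t) (by fun_prop) _ hsub4) measurableSet_ball ?_
      intro x hx
      obtain ⟨-, -, g3, g4⟩ := hv x (hsub2 (ball_subset_closedBall hx))
      have b1 := Real.add_one_le_exp (-v x)
      have b2 : Real.exp (v x) * Real.exp (-v x) = 1 := by rw [← Real.exp_add]; simp
      have b3 := Real.exp_pos (v x)
      have b4 : Real.exp (v x) - 1 ≤ v x * Real.exp (v x) := by nlinarith
      have b5 : Real.exp (v x) ≤ Real.exp 2 := Real.exp_le_exp.2 g4
      calc Real.exp (v x) - 1 ≤ v x * Real.exp (v x) := b4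
        _ ≤ v x * Real.exp 2 := by gcongr
        _ = Real.exp 2 * v x := mul_comm _ _
    refine h7.trans ?_
    rw [integral_const_mul]
    refine mul_le_mul_of_nonneg_left ?_ (Real.exp_pos _).le
    refine setIntegral_mono_set (hint (fun t => t) continuous_id _ ball_subset_closedBall) ?_
      hsub3.eventuallyLE
    refine (ae_restrict_iff' measurableSet_ball).2 (Eventually.of_forall fun x hx => ?_)
    exact (hv x (hsub1 (ball_subset_closedBall hx))).2.2.1
  have hfin : Real.pi * s ^ 2 * (v y' - K) ≤ Real.pi * s ^ 2 * (4 * Real.exp 4 * (v y + K)) := by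
    refine hm2.trans ?_
    have a1 := mul_le_mul_of_nonneg_left hm1 (Real.exp_pos 2).le
    refine a1.trans (le_of_eq ?_)
    have e4 : Real.exp 4 = Real.exp 2 * Real.exp 2 := by rw [← Real.exp_add]; norm_num
    rw [e4]
    ring
  have hpi : 0 < Real.pi * s ^ 2 := by positivity
  have h8 := le_of_mul_le_mul_left hfin hpi
  have h9 : 0 ≤ v y := (hv y (hsub1 (mem_closedBall_self (by positivity)))).2.2.1
  nlinarith

end Run7.h578.E8
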